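import Pool.Agent.RCP.Basic

namespace RCP

open Matrix
open scoped Classical

variable {A : Type*}

/-- Initial segments of words of `Y` (proper ones), together with the empty word. -/
def IsState (Y : Set (List A)) (p : List A) : Prop := p = [] ∨ ∃ s, s ≠ [] ∧ p ++ s ∈ Y

abbrev St (Y : Set (List A)) := {p : List A // IsState Y p}

theorem finite_states {Y : Set (List A)} (hY : Y.Finite) : Finite (St Y) := by
  have h1 : {p : List A | IsState Y p} ⊆ {[]} ∪ ⋃ y ∈ Y, {p | p ∈ y.inits} := by
    rintro p (rfl | ⟨s, _, hs⟩)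
    · left; rfl
    · right
      rw [Set.mem_iUnion₂]
      exact ⟨_, hs, by simp⟩
  have h2 : ({[]} ∪ ⋃ y ∈ Y, {p | p ∈ y.inits} : Set (List A)).Finite :=
    (Set.finite_singleton _).union (hY.biUnion (fun y _ => List.finite_toSet _))
  exact (h2.subset h1).to_subtype

def root (Y : Set (List A)) : St Y := ⟨[], Or.inl rfl⟩

/-- Matrix of a letter. -/
noncomputable def MM (Y : Set (List A)) (x : A) : Matrix (St Y) (St Y) ℂ := fun p q =>
  (if p.1 ++ [x] = q.1 then 1 else 0) + (if p.1 ++ [x] ∈ Y ∧ q.1 = [] then 1 else 0)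

variable {Y : Set (List A)} [Fintype (St Y)]

/-- Matrix of a word. -/
noncomputable def MW (Y : Set (List A)) [Fintype (St Y)] (z : List A) : Matrix (St Y) (St Y) ℂ :=
  (z.map (MM Y)).prod

theorem MW_nil : MW Y [] = 1 := by simp [MW]

theorem MW_cons (x : A) (z : List A) : MW Y (x :: z) = MM Y x * MW Y z := by simp [MW]

theorem MW_append (u v : List A) : MW Y (u ++ v) = MW Y u * MW Y v := by simp [MW]

theorem step (x : A) (N : Matrix (St Y) (St Y) ℂ) (p q : St Y) :
    (MM Y x * N) p q = (if h : IsState Y (p.1 ++ [x]) then N ⟨p.1 ++ [x], h⟩ q else 0) +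
      (if p.1 ++ [x] ∈ Y then N (root Y) q else 0) := by
  rw [Matrix.mul_apply]
  simp only [MM, add_mul, Finset.sum_add_distrib]
  congr 1
  · by_cases h : IsState Y (p.1 ++ [x])
    · rw [dif_pos h, Finset.sum_eq_single (⟨p.1 ++ [x], h⟩ : St Y)]
      · simp
      · intro b _ hb
        rw [if_neg, zero_mul]
        intro h'
        exact hb (Subtype.ext h'.symm)
      · intro h'; exact absurd (Finset.mem_univ _) h'
    · rw [dif_neg h]
      refine Finset.sum_eq_zero (fun b _ => ?_)
      rw [if_neg, zero_mul]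
      intro h'
      exact h (h' ▸ b.2)
  · by_cases h : p.1 ++ [x] ∈ Y
    · rw [if_pos h, Finset.sum_eq_single (root Y)]
      · simp [h, root]
      · intro b _ hb
        rw [if_neg, zero_mul]
        rintro ⟨_, h'⟩
        exact hb (Subtype.ext h')
      · intro h'; exact absurd (Finset.mem_univ _) h'
    · rw [if_neg h]
      refine Finset.sum_eq_zero (fun b _ => ?_)
      rw [if_neg, zero_mul]
      rintro ⟨h', _⟩
      exact h h'

/-- Entries are `0` or `1`, and a nonzero entry comes from a parse. -/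
theorem entries (hcode : IsCode Y) (z : List A) : ∀ p q : St Y,
    (MW Y z p q = 0 ∨ MW Y z p q = 1) ∧ (MW Y z p q ≠ 0 → ∃ l : List (List A),
      (∀ y ∈ l, y ∈ Y) ∧ p.1 ++ z = l.flatten ++ q.1 ∧
      (l = [] ∨ ∃ h t, l = h :: t ∧ p.1.length < h.length)) := by
  induction z with
  | nil =>
    intro p q
    rw [MW_nil]
    by_cases hpq : p = q
    · subst hpq
      refine ⟨by simp, fun _ => ⟨[], by simp, by simp, Or.inl rfl⟩⟩
    · refine ⟨by simp [hpq], fun h => absurd (by simp [hpq]) h⟩
  | cons x z ih =>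
    intro p q
    rw [MW_cons, step]
    -- the two summands
    have h1 : ((if h : IsState Y (p.1 ++ [x]) then MW Y z ⟨p.1 ++ [x], h⟩ q else 0) = 0 ∨
        (if h : IsState Y (p.1 ++ [x]) then MW Y z ⟨p.1 ++ [x], h⟩ q else 0) = 1) ∧
        ((if h : IsState Y (p.1 ++ [x]) then MW Y z ⟨p.1 ++ [x], h⟩ q else 0) ≠ 0 →
          ∃ l : List (List A), (∀ y ∈ l, y ∈ Y) ∧ p.1 ++ x :: z = l.flatten ++ q.1 ∧
          (l = [] ∨ ∃ h t, l = h :: t ∧ p.1.length + 1 < h.length)) := by
      by_cases h : IsState Y (p.1 ++ [x])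
      · simp only [dif_pos h]
        obtain ⟨h3, h4⟩ := ih ⟨p.1 ++ [x], h⟩ q
        refine ⟨h3, fun hne => ?_⟩
        obtain ⟨l, hl, hfl, hlen⟩ := h4 hne
        refine ⟨l, hl, by simpa using hfl, ?_⟩
        simpa using hlen
      · simp [dif_neg h]
    have h2 : ((if p.1 ++ [x] ∈ Y then MW Y z (root Y) q else 0) = 0 ∨
        (if p.1 ++ [x] ∈ Y then MW Y z (root Y) q else 0) = 1) ∧
        ((if p.1 ++ [x] ∈ Y then MW Y z (root Y) q else 0) ≠ 0 →
          ∃ l : List (List A), (∀ y ∈ l, y ∈ Y) ∧ p.1 ++ x :: z = l.flatten ++ q.1 ∧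
          (∃ h t, l = h :: t ∧ p.1.length + 1 = h.length)) := by
      by_cases h : p.1 ++ [x] ∈ Y
      · simp only [if_pos h]
        obtain ⟨h3, h4⟩ := ih (root Y) q
        refine ⟨h3, fun hne => ?_⟩
        obtain ⟨l, hl, hfl, _⟩ := h4 hne
        refine ⟨(p.1 ++ [x]) :: l, ?_, ?_, ⟨_, _, rfl, by simp⟩⟩
        · intro y hy
          rcases List.mem_cons.1 hy with rfl | hy
          · exact h
          · exact hl y hy
        · rw [List.flatten_cons, List.append_assoc, ← hfl]
          simp [root]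
      · simp [if_neg h]
    generalize (if h : IsState Y (p.1 ++ [x]) then MW Y z ⟨p.1 ++ [x], h⟩ q else 0) = a at h1 ⊢
    generalize (if p.1 ++ [x] ∈ Y then MW Y z (root Y) q else 0) = b at h2 ⊢
    obtain ⟨h1a, h1b⟩ := h1
    obtain ⟨h2a, h2b⟩ := h2
    have hab : a = 0 ∨ b = 0 := by
      by_contra hcon
      push Not at hcon
      obtain ⟨l, hl, hfl, hlen⟩ := h1b hcon.1
      obtain ⟨l', hl', hfl', h, t, hht, hlen'⟩ := h2b hcon.2
      have : l.flatten = l'.flatten := by
        have := hfl.symm.trans hfl'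
        exact List.append_cancel_right this
      have := hcode l l' hl hl' this
      subst this
      rcases hlen with hlen | ⟨h', t', hht', hlen⟩
      · rw [hlen] at hht; simp at hht
      · rw [hht'] at hht
        simp only [List.cons.injEq] at hht
        rw [hht.1] at hlen
        omega
    rcases hab with hab | hab
    · subst hab
      rw [zero_add]
      refine ⟨h2a, fun hne => ?_⟩
      obtain ⟨l, hl, hfl, h, t, hht, hlen⟩ := h2b hne
      exact ⟨l, hl, hfl, Or.inr ⟨h, t, hht, by omega⟩⟩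
    · subst hab
      rw [add_zero]
      refine ⟨h1a, fun hne => ?_⟩
      obtain ⟨l, hl, hfl, hlen⟩ := h1b hne
      refine ⟨l, hl, hfl, ?_⟩
      rcases hlen with hlen | ⟨h, t, hht, hlen⟩
      · exact Or.inl hlen
      · exact Or.inr ⟨h, t, hht, by omega⟩

/-- A word of `Y` leads from a state to the root. -/
theorem path (hcode : IsCode Y) : ∀ (s : List A) (p : St Y), s ≠ [] → p.1 ++ s ∈ Y →
    MW Y s p (root Y) ≠ 0 := by
  intro s
  induction s with
  | nil => intro p h; exact absurd rfl h
  | cons x s ih =>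
    intro p _ hps
    have hE := (entries hcode s)
    rw [MW_cons, step]
    rcases s with _ | ⟨x', s'⟩
    · rw [if_pos hps, MW_nil]
      by_cases h : IsState Y (p.1 ++ [x])
      · rw [dif_pos h]
        have : (⟨p.1 ++ [x], h⟩ : St Y) ≠ root Y := by
          intro h'
          have := congrArg Subtype.val h'
          simp [root] at this
        rw [Matrix.one_apply_ne this]
        simp
      · rw [dif_neg h]; simp
    · have h : IsState Y (p.1 ++ [x]) := Or.inr ⟨x' :: s', by simp, by simpa using hps⟩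
      rw [dif_pos h]
      have h1 := ih ⟨p.1 ++ [x], h⟩ (by simp) (by simpa using hps)
      have h1' : MW Y (x' :: s') ⟨p.1 ++ [x], h⟩ (root Y) = 1 := by
        rcases (hE ⟨p.1 ++ [x], h⟩ (root Y)).1 with h0 | h0
        · exact absurd h0 h1
        · exact h0
      rw [h1']
      by_cases h2 : p.1 ++ [x] ∈ Y
      · rw [if_pos h2]
        rcases (hE (root Y) (root Y)).1 with h0 | h0 <;> rw [h0] <;> norm_num
      · rw [if_neg h2]; norm_num

omit [Fintype (St Y)] in
theorem nil_notMem (hcode : IsCode Y) : [] ∉ Y := by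
  intro h
  have := hcode [[]] [] (by simpa using h) (by simp) (by simp)
  simp at this

theorem mul_root_ne {u v : List A} (hcode : IsCode Y) {p : St Y}
    (hu : MW Y u p (root Y) ≠ 0) (hv : MW Y v (root Y) (root Y) ≠ 0) :
    MW Y (u ++ v) p (root Y) ≠ 0 := by
  rw [MW_append, Matrix.mul_apply]
  have h01 : ∀ j, MW Y u p j * MW Y v j (root Y) = 0 ∨ MW Y u p j * MW Y v j (root Y) = 1 := by
    intro j
    rcases (entries hcode u p j).1 with h | h <;> rcases (entries hcode v j (root Y)).1 with h' | h'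
      <;> rw [h, h'] <;> norm_num
  have h1 : MW Y u p (root Y) * MW Y v (root Y) (root Y) = 1 := by
    rcases h01 (root Y) with h | h
    · rcases mul_eq_zero.1 h with h | h
      · exact absurd h hu
      · exact absurd h hv
    · exact h
  have h2 : ∑ j, MW Y u p j * MW Y v j (root Y) =
      ((Finset.univ.filter (fun j => MW Y u p j * MW Y v j (root Y) = 1)).card : ℂ) := by
    rw [Finset.card_eq_sum_ones, Nat.cast_sum, Finset.sum_filter]
    refine Finset.sum_congr rfl (fun j _ => ?_)
    rcases h01 j with h | h <;> rw [h] <;> simp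
  rw [h2]
  have : (root Y) ∈ Finset.univ.filter (fun j => MW Y u p j * MW Y v j (root Y) = 1) := by
    simp [h1]
  exact_mod_cast (Finset.card_pos.2 ⟨_, this⟩).ne'

theorem star_root (hcode : IsCode Y) : ∀ w ∈ star Y, MW Y w (root Y) (root Y) ≠ 0 := by
  refine star_cons_induction ?_ ?_
  · rw [MW_nil]; simp
  · intro x hx v _ hv
    have hxne : x ≠ [] := fun h => nil_notMem hcode (h ▸ hx)
    exact mul_root_ne hcode (path hcode x (root Y) hxne (by simpa [root] using hx)) hv

theorem MW_ne_zero_iff (hcode : IsCode Y) (z : List A) : MW Y z ≠ 0 ↔ z ∈ factors (star Y) := by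
  constructor
  · intro h
    have : ∃ p q, MW Y z p q ≠ 0 := by
      by_contra hcon
      push Not at hcon
      exact h (by ext p q; simpa using hcon p q)
    obtain ⟨p, q, hpq⟩ := this
    obtain ⟨l, hl, hfl, _⟩ := (entries hcode z p q).2 hpq
    have hq : ∃ s, q.1 ++ s ∈ star Y := by
      rcases q.2 with h | ⟨s, _, hs⟩
      · exact ⟨[], by rw [h]; simpa using nil_mem_star Y⟩
      · exact ⟨s, mem_star_of_mem hs⟩
    obtain ⟨s, hs⟩ := hq
    refine ⟨p.1, s, ?_⟩
    rw [hfl, List.append_assoc]
    exact star_append ⟨l, hl, rfl⟩ hs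
  · rintro ⟨u, w, h⟩ h0
    have := star_root hcode _ h
    rw [MW_append, MW_append, h0] at this
    simp at this

end RCP
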