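import Pool.Agent.RCP.Defs

namespace RCP

variable {A : Type*}

/-- The letter `a` is tame for `X`: the greatest common divisor `n` of the exponents `m` with
`a ^ m ∈ X` is itself such an exponent (or no positive exponent occurs). -/
def Tame (X : Set (List A)) (a : A) : Prop :=
  ∃ n : ℕ, (∀ m, List.replicate m a ∈ X → n ∣ m) ∧
    (∀ m, 0 < m → List.replicate m a ∈ X → List.replicate n a ∈ X)

theorem nil_mem_star (C : Set (List A)) : [] ∈ star C := ⟨[], by simp, rfl⟩

theorem mem_star_of_mem {C : Set (List A)} {x : List A} (h : x ∈ C) : x ∈ star C :=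
  ⟨[x], by simpa using h, by simp⟩

theorem star_append {C : Set (List A)} {u v : List A} (hu : u ∈ star C) (hv : v ∈ star C) :
    u ++ v ∈ star C := by
  obtain ⟨l, hl, rfl⟩ := hu
  obtain ⟨l', hl', rfl⟩ := hv
  refine ⟨l ++ l', ?_, by simp⟩
  intro x hx
  rcases List.mem_append.1 hx with h | h
  · exact hl x h
  · exact hl' x h

theorem star_subset_star {C D : Set (List A)} (h : C ⊆ star D) : star C ⊆ star D := by
  rintro w ⟨l, hl, rfl⟩
  induction l with
  | nil => exact nil_mem_star D
  | cons x l ih =>
    rw [List.flatten_cons]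
    exact star_append (h (hl x (by simp))) (ih (fun y hy => hl y (by simp [hy])))

theorem star_cons_induction {C : Set (List A)} {p : List A → Prop} (h0 : p [])
    (h1 : ∀ x ∈ C, ∀ v ∈ star C, p v → p (x ++ v)) : ∀ w ∈ star C, p w := by
  rintro w ⟨l, hl, rfl⟩
  induction l with
  | nil => exact h0
  | cons x l ih =>
    rw [List.flatten_cons]
    have hl' : ∀ y ∈ l, y ∈ C := fun y hy => hl y (by simp [hy])
    exact h1 x (hl x (by simp)) _ ⟨l, hl', rfl⟩ (ih hl')

theorem mem_factors_self {L : Set (List A)} {v : List A} (h : v ∈ L) : v ∈ factors L :=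
  ⟨[], [], by simpa using h⟩

/-- The letter `a` is isolated in `X`: a word of `X` in which `a` occurs is a power of `a`. -/
def Isolated (X : Set (List A)) (a : A) : Prop :=
  ∀ x ∈ X, a ∈ x → ∃ m, x = List.replicate m a

/-- Splitting a product between two different letters, one of which is isolated. -/
theorem split {X : Set (List A)} {x y : A} (hX : Isolated X x ∨ Isolated X y) (hxy : x ≠ y)
    {u v : List A} (h : u ++ x :: y :: v ∈ star X) : u ++ [x] ∈ star X ∧ y :: v ∈ star X := by
  obtain ⟨l, hl, hfl⟩ := h
  induction l generalizing u with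
  | nil => simp at hfl
  | cons w l ih =>
    have hl' : ∀ y ∈ l, y ∈ X := fun y hy => hl y (by simp [hy])
    have hw := hl w (by simp)
    rw [List.flatten_cons] at hfl
    have hfl' : w ++ l.flatten = (u ++ [x]) ++ (y :: v) := by rw [hfl]; simp
    rcases List.append_eq_append_iff.1 hfl' with ⟨t, ht1, ht2⟩ | ⟨t, ht1, ht2⟩
    · -- u ++ [x] = w ++ t, l.flatten = t ++ (y :: v)
      rcases List.eq_nil_or_concat' t with rfl | ⟨t', z, rfl⟩
      · simp only [List.append_nil, List.nil_append] at ht1 ht2
        exact ⟨ht1 ▸ mem_star_of_mem hw, ⟨l, hl', ht2⟩⟩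
      · have hz : z = x := by
          have := congrArg List.getLast? ht1
          simpa using this.symm
        subst hz
        have h2 := ih (u := t') hl' (by rw [ht2]; simp)
        refine ⟨?_, h2.2⟩
        rw [ht1]
        exact star_append (mem_star_of_mem hw) h2.1
    · -- w = (u ++ [x]) ++ t, y :: v = t ++ l.flatten
      rcases t with _ | ⟨z, t'⟩
      · simp only [List.append_nil, List.nil_append] at ht1 ht2
        exact ⟨ht1 ▸ mem_star_of_mem hw, ⟨l, hl', ht2.symm⟩⟩
      · exfalso
        have hz : y = z := by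
          have := congrArg List.head? ht2
          simpa using this
        have h1 : x ∈ w := by rw [ht1]; simp
        have h2 : y ∈ w := by rw [ht1]; simp [hz]
        rcases hX with hX | hX
        · obtain ⟨m, hm⟩ := hX w hw h1
          rw [hm] at h2
          exact hxy (List.eq_of_mem_replicate h2).symm
        · obtain ⟨m, hm⟩ := hX w hw h2
          rw [hm] at h1
          exact hxy (List.eq_of_mem_replicate h1)

/-- The exponents `m` with `x ^ m` a product of words of `X`. -/
def expo (X : Set (List A)) (x : A) : AddSubmonoid ℕ where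
  carrier := {m | List.replicate m x ∈ star X}
  zero_mem' := by simpa using nil_mem_star X
  add_mem' := by
    intro a b ha hb
    have := star_append ha hb
    simpa [List.replicate_append_replicate] using this

theorem mem_expo {X : Set (List A)} {x : A} {m : ℕ} :
    m ∈ expo X x ↔ List.replicate m x ∈ star X := Iff.rfl

theorem rep_cons_mem {X : Set (List A)} {x y : A} (hX : Isolated X y) (hxy : x ≠ y) {j : ℕ}
    (hj : 0 < j) {v : List A} : List.replicate j y ++ x :: v ∈ star X ↔ j ∈ expo X y ∧ x :: v ∈ star X := by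
  constructor
  · intro h
    obtain ⟨i, rfl⟩ : ∃ i, j = i + 1 := ⟨j - 1, by omega⟩
    rw [List.replicate_succ', List.append_assoc, List.singleton_append] at h
    have := split (Or.inl hX) hxy.symm h
    rw [← List.replicate_succ'] at this
    exact this
  · rintro ⟨h1, h2⟩
    exact star_append h1 h2

theorem exists_decomp {y : A} {v : List A} (h : ∃ x ∈ v, x ≠ y) :
    ∃ k x v', v = List.replicate k y ++ x :: v' ∧ x ≠ y := by
  induction v with
  | nil => simp at h
  | cons c v ih =>
    by_cases hc : c = y
    · subst hc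
      obtain ⟨x, hx, hxy⟩ := h
      rcases List.mem_cons.1 hx with rfl | hx
      · exact absurd rfl hxy
      · obtain ⟨k, x', v', hv, hne⟩ := ih ⟨x, hx, hxy⟩
        exact ⟨k + 1, x', v', by rw [hv, List.replicate_succ]; simp, hne⟩
    · exact ⟨0, c, v, by simp, hc⟩

/-- Facts on a wild (not tame) letter. -/
theorem wild_facts {X : Set (List A)} {x : A} (h : ¬ Tame X x) :
    ∃ g k : ℕ, 0 < g ∧ 0 < k ∧ g ∉ expo X x ∧ (∀ m ∈ expo X x, g ∣ m) ∧
      (∀ m, g * k ≤ m → g ∣ m → m ∈ expo X x) := by
  set S : Set ℕ := (expo X x : Set ℕ) with hS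
  set g := Nat.setGcd S with hg
  have hdvd : ∀ m ∈ expo X x, g ∣ m := fun m hm => Nat.setGcd_dvd_of_mem hm
  have hE : ∀ m, List.replicate m x ∈ X → m ∈ expo X x := fun m hm => mem_star_of_mem hm
  have hw : ∃ m, 0 < m ∧ List.replicate m x ∈ X ∧ List.replicate g x ∉ X := by
    by_contra hcon
    push Not at hcon
    exact h ⟨g, fun m hm => hdvd m (hE m hm), fun m h0 hm => hcon m h0 hm⟩
  obtain ⟨m, hm0, hmX, hgX⟩ := hw
  have hg0 : 0 < g := Nat.pos_of_dvd_of_pos (hdvd m (hE m hmX)) hm0
  obtain ⟨N, hN⟩ := Nat.exists_mem_closure_of_ge S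
  have hcl : AddSubmonoid.closure S = expo X x := AddSubmonoid.closure_eq _
  refine ⟨g, N + 1, hg0, Nat.succ_pos _, ?_, hdvd, ?_⟩
  · -- g not in S
    rintro ⟨l, hl, hfl⟩
    -- there is a nonempty word in l
    have hex : ∃ w ∈ l, w ≠ [] := by
      by_contra hcon
      push Not at hcon
      have : l.flatten = [] := by
        rw [List.flatten_eq_nil_iff]; exact hcon
      rw [this] at hfl
      have := congrArg List.length hfl
      simp at this
      omega
    obtain ⟨w, hwl, hwne⟩ := hex
    have hsub : List.Sublist w l.flatten := List.sublist_flatten_of_mem hwl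
    rw [hfl] at hsub
    obtain ⟨k, hk, hwk⟩ := List.sublist_replicate_iff.1 hsub
    have hkX : List.replicate k x ∈ X := hwk ▸ hl w hwl
    have hk0 : 0 < k := by
      rcases Nat.eq_zero_or_pos k with h0 | h0
      · subst h0; simp at hwk; exact absurd hwk hwne
      · exact h0
    have := Nat.le_of_dvd hk0 (hdvd k (hE k hkX))
    have hkg : k = g := le_antisymm hk this
    exact hgX (hkg ▸ hkX)
  · intro m hm hgm
    rw [← hcl]
    refine hN m ?_ hgm
    calc N ≤ 1 * (N + 1) := by omega
      _ ≤ g * (N + 1) := Nat.mul_le_mul_right _ hg0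
      _ ≤ m := hm

end RCP
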