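import Pool.Agent.RCP.Letters

namespace RCP

open scoped Classical

variable {A : Type*}

variable {D : Set (List A)}

theorem phi_nil : phi (D := D) [] = [] := rfl

theorem phi_append (u v : List ↥D) : phi (u ++ v) = phi u ++ phi v := by
  simp [phi]

theorem phi_flatten (l : List (List ↥D)) : phi l.flatten = (l.map phi).flatten := by
  induction l with
  | nil => rfl
  | cons x l ih => rw [List.flatten_cons, phi_append, ih, List.map_cons, List.flatten_cons]

theorem phi_replicate (d : ↥D) (m : ℕ) : phi (List.replicate m d) = wpow d.1 m := by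
  simp [phi, wpow]

theorem phi_inj (hD : IsCode D) : Function.Injective (phi (D := D)) := by
  intro z z' h
  have h1 := hD (z.map Subtype.val) (z'.map Subtype.val)
    (by intro x hx; obtain ⟨y, _, rfl⟩ := List.mem_map.1 hx; exact y.2)
    (by intro x hx; obtain ⟨y, _, rfl⟩ := List.mem_map.1 hx; exact y.2) h
  exact List.map_injective_iff.2 Subtype.val_injective h1

theorem mem_star_iff_phi {w : List A} : w ∈ star D ↔ ∃ z : List ↥D, phi z = w := by
  constructor
  · rintro ⟨l, hl, rfl⟩
    refine ⟨l.attach.map (fun x => ⟨x.1, hl x.1 x.2⟩), ?_⟩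
    rw [phi, List.map_map]
    congr 1
    exact List.attach_map_subtype_val l
  · rintro ⟨z, rfl⟩
    refine ⟨z.map Subtype.val, ?_, rfl⟩
    intro x hx
    obtain ⟨y, _, rfl⟩ := List.mem_map.1 hx
    exact y.2

theorem phi_mem_star {X : Set (List A)} {z : List ↥D} (hz : z ∈ star (pre D X)) :
    phi z ∈ star X := by
  obtain ⟨l, hl, rfl⟩ := hz
  refine ⟨l.map phi, ?_, (phi_flatten l).symm⟩
  intro x hx
  obtain ⟨y, hy, rfl⟩ := List.mem_map.1 hx
  exact hl y hy

theorem star_lift {X : Set (List A)} (hX : X ⊆ star D) {w : List A} (hw : w ∈ star X) :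
    ∃ z ∈ star (pre D X), phi z = w := by
  revert hw
  revert w
  have key : ∀ w ∈ star X, ∃ z ∈ star (pre D X), phi z = w := by
    refine star_cons_induction ?_ ?_
    · exact ⟨[], nil_mem_star _, rfl⟩
    · rintro x hx v _ ⟨z, hz, hzv⟩
      obtain ⟨y, hy⟩ := mem_star_iff_phi.1 (hX hx)
      refine ⟨y ++ z, star_append (mem_star_of_mem ?_) hz, ?_⟩
      · show phi y ∈ X
        rw [hy]; exact hx
      · rw [phi_append, hy, hzv]
  intro w hw
  exact key w hw

theorem mem_star_pre (hD : IsCode D) {X : Set (List A)} (hX : X ⊆ star D) {z : List ↥D} :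
    z ∈ star (pre D X) ↔ phi z ∈ star X := by
  constructor
  · exact phi_mem_star
  · intro h
    obtain ⟨z', hz', h'⟩ := star_lift hX h
    rw [← phi_inj hD h']
    exact hz'

/-- A rich code upstairs gives one downstairs. -/
theorem rich_of_pre (hD : IsCode D) {X : Set (List A)} (hX : X ⊆ star D)
    (h : HasRichCode (pre D X)) : HasRichCode X := by
  obtain ⟨Y, hYf, hYX, hcode, hrich⟩ := h
  have hYX' : phi '' Y ⊆ star X := by
    rintro _ ⟨y, hy, rfl⟩
    exact phi_mem_star (hYX hy)
  have hstar : ∀ z ∈ star Y, phi z ∈ star (phi '' Y) := by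
    rintro z ⟨l, hl, rfl⟩
    refine ⟨l.map phi, ?_, (phi_flatten l).symm⟩
    intro x hx
    obtain ⟨y, hy, rfl⟩ := List.mem_map.1 hx
    exact ⟨y, hl y hy, rfl⟩
  have hlift : ∀ l : List (List A), (∀ x ∈ l, x ∈ phi '' Y) →
      ∃ L : List (List ↥D), (∀ y ∈ L, y ∈ Y) ∧ L.map phi = l := by
    intro l
    induction l with
    | nil => intro _; exact ⟨[], by simp, rfl⟩
    | cons x l ih =>
      intro hl
      obtain ⟨L, hL, hLl⟩ := ih (fun y hy => hl y (by simp [hy]))
      obtain ⟨y, hy, hyx⟩ := hl x (by simp)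
      refine ⟨y :: L, ?_, by rw [List.map_cons, hLl, hyx]⟩
      intro y' hy'
      rcases List.mem_cons.1 hy' with rfl | hy'
      · exact hy
      · exact hL y' hy'
  refine ⟨phi '' Y, hYf.image _, hYX', ?_, ?_⟩
  · intro l l' hl hl' hfl
    obtain ⟨L, hL, rfl⟩ := hlift l hl
    obtain ⟨L', hL', rfl⟩ := hlift l' hl'
    rw [← phi_flatten, ← phi_flatten] at hfl
    rw [hcode L L' hL hL' (phi_inj hD hfl)]
  · apply Set.Subset.antisymm
    · rintro v ⟨u, w, huw⟩
      exact ⟨u, w, star_subset_star hYX' huw⟩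
    · rintro v ⟨u, w, huw⟩
      obtain ⟨z, hz, hzw⟩ := star_lift hX huw
      have h1 : z ∈ factors (star (pre D X)) := mem_factors_self hz
      rw [← hrich] at h1
      obtain ⟨u', w', h2⟩ := h1
      have h3 := hstar _ h2
      rw [phi_append, phi_append, hzw] at h3
      exact ⟨phi u' ++ u, w ++ phi w', by simpa using h3⟩

/-- A rich code downstairs gives one upstairs. -/
theorem pre_of_rich (hD : IsCode D) {X : Set (List A)} (hX : X ⊆ star D)
    (h : HasRichCode X) : HasRichCode (pre D X) := by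
  obtain ⟨Y, hYf, hYX, hcode, hrich⟩ := h
  have hYD : Y ⊆ star D := hYX.trans (star_subset_star hX)
  have hYX' : pre D Y ⊆ star (pre D X) := by
    intro z hz
    rw [mem_star_pre hD hX]
    exact hYX hz
  refine ⟨pre D Y, ?_, hYX', ?_, ?_⟩
  · exact Set.Finite.preimage ((phi_inj hD).injOn) hYf
  · intro L L' hL hL' hfl
    have h1 := hcode (L.map phi) (L'.map phi)
      (by intro x hx; obtain ⟨y, hy, rfl⟩ := List.mem_map.1 hx; exact hL y hy)
      (by intro x hx; obtain ⟨y, hy, rfl⟩ := List.mem_map.1 hx; exact hL' y hy)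
      (by rw [← phi_flatten, ← phi_flatten, hfl])
    exact List.map_injective_iff.2 (phi_inj hD) h1
  · apply Set.Subset.antisymm
    · rintro v ⟨u, w, huw⟩
      exact ⟨u, w, star_subset_star hYX' huw⟩
    · rintro v ⟨u, w, huw⟩
      have h0 : phi (u ++ v ++ w) ∈ star X := phi_mem_star huw
      have hfs := finite_states hYf
      have hft : Fintype (St Y) := Fintype.ofFinite _
      obtain ⟨s, hs, hrec⟩ := recur hcode
      have hsX : s ∈ star X := star_subset_star hYX hs
      have h1 : s ++ phi (u ++ v ++ w) ++ s ∈ factors (star X) :=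
        mem_factors_self (star_append (star_append hsX h0) hsX)
      rw [← hrich] at h1
      obtain ⟨k, hk⟩ := hrec _ h1
      obtain ⟨a, ha⟩ := mem_star_iff_phi.1 (star_subset_star hYD hs)
      have h5 : phi (a ++ (u ++ v ++ w) ++ a ++
          ((List.replicate k (a ++ (u ++ v ++ w) ++ a)).flatten ++ (a ++ a ++ a))) ∈ star Y := by
        rw [List.replicate_succ, List.flatten_cons] at hk
        have h6 : phi (List.replicate k (a ++ (u ++ v ++ w) ++ a)).flatten =
            (List.replicate k (s ++ phi (u ++ v ++ w) ++ s)).flatten := by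
          rw [phi_flatten, List.map_replicate, phi_append, phi_append a, ha]
        rw [phi_append _ (_ ++ (a ++ a ++ a)), phi_append _ (a ++ a ++ a), h6,
          phi_append _ a, phi_append a (u ++ v ++ w), phi_append (a ++ a) a, phi_append a a, ha]
        simpa using hk
      rw [← mem_star_pre hD hYD] at h5
      exact ⟨a ++ u, w ++ a ++
        ((List.replicate k (a ++ (u ++ v ++ w) ++ a)).flatten ++ (a ++ a ++ a)),
        by simpa using h5⟩

theorem tame_pre {X : Set (List A)} (d : ↥D) : Tame (pre D X) d ↔ TameW X d.1 := by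
  have h : ∀ m, List.replicate m d ∈ pre D X ↔ wpow d.1 m ∈ X := by
    intro m
    show phi (List.replicate m d) ∈ X ↔ _
    rw [phi_replicate]
  constructor
  · rintro ⟨n, h1, h2⟩
    exact ⟨n, fun m hm => h1 m ((h m).2 hm), fun m h0 hm => (h n).1 (h2 m h0 ((h m).2 hm))⟩
  · rintro ⟨n, h1, h2⟩
    exact ⟨n, fun m hm => h1 m ((h m).1 hm), fun m h0 hm => (h n).2 (h2 m h0 ((h m).1 hm))⟩

theorem isolated_pre {X : Set (List A)} (d : ↥D) (h : IsolatedW D X d.1) :
    Isolated (pre D X) d := by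
  intro z hz hd
  obtain ⟨m, hm⟩ := h (z.map Subtype.val)
    (by intro x hx; obtain ⟨y, _, rfl⟩ := List.mem_map.1 hx; exact y.2) hz
    (List.mem_map.2 ⟨d, hd, rfl⟩)
  refine ⟨m, ?_⟩
  have h1 : z.map Subtype.val = (List.replicate m d).map Subtype.val := by
    rw [hm, List.map_replicate]
  exact List.map_injective_iff.2 Subtype.val_injective h1

theorem encard_pre (p : ↥D → Prop) (q : List A → Prop) (h : ∀ d : ↥D, p d ↔ q d.1) :
    {d : ↥D | p d}.encard = {d : List A | d ∈ D ∧ q d}.encard := by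
  rw [← (Subtype.val_injective).encard_image]
  congr 1
  ext d
  constructor
  · rintro ⟨e, he, rfl⟩
    exact ⟨e.2, (h e).1 he⟩
  · rintro ⟨h1, h2⟩
    exact ⟨⟨d, h1⟩, (h ⟨d, h1⟩).2 h2, rfl⟩

/-- Positive part for powers of words of a code. -/
theorem pos_code (hD : IsCode D) {X : Set (List A)} (hfin : X.Finite)
    (hX : ∀ x ∈ X, ∃ d ∈ D, ∃ m, x = wpow d m)
    (h2 : {d | d ∈ D ∧ ¬ TameW X d}.encard ≤ 2) : HasRichCode X := by
  have hXD : X ⊆ star D := by
    intro x hx
    obtain ⟨d, hd, m, rfl⟩ := hX x hx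
    refine ⟨List.replicate m d, ?_, rfl⟩
    intro y hy
    rw [List.eq_of_mem_replicate hy]
    exact hd
  apply rich_of_pre hD hXD
  apply pos_letters
  · exact Set.Finite.preimage ((phi_inj hD).injOn) hfin
  · intro z hz
    obtain ⟨d, hd, m, hm⟩ := hX _ hz
    refine ⟨⟨d, hd⟩, m, phi_inj hD ?_⟩
    rw [hm, phi_replicate]
  · rw [encard_pre (fun d => ¬ Tame (pre D X) d) (fun d => ¬ TameW X d)
      (fun d => not_congr (tame_pre d))]
    exact h2

/-- Negative part. -/
theorem neg_code (hD : IsCode D) {X : Set (List A)} (hX : X ⊆ star D)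
    (h : HasRichCode X) : {d | d ∈ D ∧ (IsolatedW D X d ∧ ¬ TameW X d)}.encard ≤ 2 := by
  have h1 := neg_general (pre_of_rich hD hX h)
  have h2 : {d : ↥D | IsolatedW D X d.1 ∧ ¬ TameW X d.1}.encard ≤ 2 := by
    refine le_trans (Set.encard_le_encard ?_) h1
    rintro d ⟨hd1, hd2⟩
    exact ⟨isolated_pre d hd1, fun h => hd2 ((tame_pre d).1 h)⟩
  rwa [encard_pre (fun d : ↥D => IsolatedW D X d.1 ∧ ¬ TameW X d.1)
      (fun d => IsolatedW D X d ∧ ¬ TameW X d) (fun d => Iff.rfl)] at h2

/-- The criterion for sets of powers of words of a code. -/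
theorem code_iff (hD : IsCode D) {X : Set (List A)} (hfin : X.Finite)
    (hX : ∀ x ∈ X, ∃ d ∈ D, ∃ m, x = wpow d m) :
    HasRichCode X ↔ {d | d ∈ D ∧ ¬ TameW X d}.encard ≤ 2 := by
  refine ⟨fun h => ?_, pos_code hD hfin hX⟩
  have hXD : X ⊆ star D := by
    intro x hx
    obtain ⟨d, hd, m, rfl⟩ := hX x hx
    refine ⟨List.replicate m d, ?_, rfl⟩
    intro y hy
    rw [List.eq_of_mem_replicate hy]
    exact hd
  refine le_trans (Set.encard_le_encard ?_) (neg_code hD hXD h)
  rintro d ⟨hd, hw⟩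
  refine ⟨hd, ?_, hw⟩
  intro l hl hlX hdl
  obtain ⟨e, he, m, hm⟩ := hX _ hlX
  have h1 : l = List.replicate m e := by
    refine hD l _ hl ?_ hm
    intro y hy
    rw [List.eq_of_mem_replicate hy]
    exact he
  rw [h1] at hdl
  rw [h1, List.eq_of_mem_replicate hdl]
  exact ⟨m, rfl⟩

end RCP
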