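import Pool.Agent.RCP.CompleteSets
import Pool.Agent.RCP.Transfer

namespace RCP

open scoped Classical

variable {A : Type*} {D X : Set (List A)}

theorem phi_replicate_eq (d : ↥D) (m : ℕ) : phi (List.replicate m d) = wpow d.1 m :=
  phi_replicate d m

theorem phi_cons (d : ↥D) (z : List ↥D) : phi (d :: z) = d.1 ++ phi z := by
  simp [phi]

theorem complete_code_iff (hD : IsCode D) (hfin : X.Finite) (hXD : X ⊆ star D)
    (hcomplete : ∀ w ∈ star D, ∃ s ∈ star D, ∃ t ∈ star D, s ++ w ++ t ∈ star X)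
    {b : List A} (hbD : b ∈ D) {p : ℕ} (hp : p.Prime) (hb : wpow b p ∈ X)
    (hX : ∀ x ∈ X, x ≠ [] → x ≠ wpow b p →
      ∃ c ∈ D, c ≠ b ∧ ∃ i, i < p ∧ ∃ s ∈ star D, x = wpow b i ++ c ++ s)
    (hX' : ∀ x ∈ X, x ≠ [] → x ≠ wpow b p →
      ∃ c ∈ D, c ≠ b ∧ ∃ j, j < p ∧ ∃ s ∈ star D, x = s ++ c ++ wpow b j) :
    HasRichCode X ↔ (∀ w ∈ star D, ∃ t ∈ star D, w ++ t ∈ star X) ∨
      (∀ w ∈ star D, ∃ s ∈ star D, s ++ w ∈ star X) := by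
  have hphiD : ∀ z : List ↥D, phi z ∈ star D := fun z => mem_star_iff_phi.2 ⟨z, rfl⟩
  have h1 : HasRichCode X ↔ HasRichCode (pre D X) := ⟨pre_of_rich hD hXD, rich_of_pre hD hXD⟩
  have hpfin : (pre D X).Finite := Set.Finite.preimage ((phi_inj hD).injOn) hfin
  have hpc : factors (star (pre D X)) = Set.univ := by
    rw [Set.eq_univ_iff_forall]
    intro z
    obtain ⟨s, hs, t, ht, hst⟩ := hcomplete _ (hphiD z)
    obtain ⟨zs, rfl⟩ := mem_star_iff_phi.1 hs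
    obtain ⟨zt, rfl⟩ := mem_star_iff_phi.1 ht
    refine ⟨zs, zt, ?_⟩
    rw [mem_star_pre hD hXD, phi_append, phi_append]
    exact hst
  have hpb : List.replicate p (⟨b, hbD⟩ : ↥D) ∈ pre D X := by
    show phi _ ∈ X
    rw [phi_replicate]
    exact hb
  have hne : ∀ x ∈ pre D X, x ≠ [] → x ≠ List.replicate p (⟨b, hbD⟩ : ↥D) →
      phi x ≠ [] ∧ phi x ≠ wpow b p := by
    intro x _ hx0 hxp
    refine ⟨fun h => hx0 (phi_inj hD (h.trans phi_nil.symm)), fun h => hxp (phi_inj hD ?_)⟩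
    rw [h, phi_replicate]
  have hpX : ∀ x ∈ pre D X, x ≠ [] → x ≠ List.replicate p (⟨b, hbD⟩ : ↥D) →
      ∃ c, c ≠ (⟨b, hbD⟩ : ↥D) ∧ ∃ i, i < p ∧ ∃ s,
        x = List.replicate i (⟨b, hbD⟩ : ↥D) ++ c :: s := by
    intro x hx hx0 hxp
    obtain ⟨h2, h3⟩ := hne x hx hx0 hxp
    obtain ⟨c, hc, hcb, i, hi, s, hs, h⟩ := hX (phi x) hx h2 h3
    obtain ⟨zs, rfl⟩ := mem_star_iff_phi.1 hs
    refine ⟨⟨c, hc⟩, fun h => hcb (congrArg Subtype.val h), i, hi, zs, phi_inj hD ?_⟩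
    rw [h, phi_append, phi_replicate, phi_cons, List.append_assoc]
  have hpX' : ∀ x ∈ pre D X, x ≠ [] → x ≠ List.replicate p (⟨b, hbD⟩ : ↥D) →
      ∃ c, c ≠ (⟨b, hbD⟩ : ↥D) ∧ ∃ j, j < p ∧ ∃ s,
        x = s ++ c :: List.replicate j (⟨b, hbD⟩ : ↥D) := by
    intro x hx hx0 hxp
    obtain ⟨h2, h3⟩ := hne x hx hx0 hxp
    obtain ⟨c, hc, hcb, j, hj, s, hs, h⟩ := hX' (phi x) hx h2 h3
    obtain ⟨zs, rfl⟩ := mem_star_iff_phi.1 hs
    refine ⟨⟨c, hc⟩, fun h => hcb (congrArg Subtype.val h), j, hj, zs, phi_inj hD ?_⟩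
    rw [h, phi_append, phi_cons, phi_replicate, List.append_assoc]
  rw [h1, complete_iff hpfin hpc hp hpb hpX hpX']
  refine or_congr ⟨fun h w hw => ?_, fun h z => ?_⟩ ⟨fun h w hw => ?_, fun h z => ?_⟩
  · obtain ⟨z, rfl⟩ := mem_star_iff_phi.1 hw
    obtain ⟨t, ht⟩ := h z
    refine ⟨phi t, hphiD t, ?_⟩
    rw [← phi_append]
    exact (mem_star_pre hD hXD).1 ht
  · obtain ⟨t, ht, h2⟩ := h _ (hphiD z)
    obtain ⟨zt, rfl⟩ := mem_star_iff_phi.1 ht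
    refine ⟨zt, ?_⟩
    rw [mem_star_pre hD hXD, phi_append]
    exact h2
  · obtain ⟨z, rfl⟩ := mem_star_iff_phi.1 hw
    obtain ⟨s, hs⟩ := h z
    refine ⟨phi s, hphiD s, ?_⟩
    rw [← phi_append]
    exact (mem_star_pre hD hXD).1 hs
  · obtain ⟨s, hs, h2⟩ := h _ (hphiD z)
    obtain ⟨zs, rfl⟩ := mem_star_iff_phi.1 hs
    refine ⟨zs, ?_⟩
    rw [mem_star_pre hD hXD, phi_append]
    exact h2

end RCP
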