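import Pool.Agent.RCP.Defs

/-!
Prefix codes and prefixes of a language.
-/

namespace RCP

variable {A : Type*}

/-- The set of prefixes of words of `L`. -/
def prefs (L : Set (List A)) : Set (List A) := {z | ∃ v, z ++ v ∈ L}

/-- `Y` is a prefix code: it does not contain the empty word, and no word of `Y` is a proper
prefix of another. -/
def IsPrefixCode (Y : Set (List A)) : Prop := [] ∉ Y ∧ ∀ x ∈ Y, ∀ y ∈ Y, x <+: y → x = y

end RCP
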