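import Pool.Agent.RCP.Pos
import Pool.Agent.RCP.PrefixDefs

namespace RCP

open scoped Classical

variable {A : Type*} {Y : Set (List A)}

theorem mem_prefs_self {L : Set (List A)} {z : List A} (h : z ∈ L) : z ∈ prefs L :=
  ⟨[], by simpa using h⟩

theorem nil_mem_prefs (X : Set (List A)) : [] ∈ prefs (star X) :=
  mem_prefs_self (nil_mem_star X)

theorem prefs_take {L : Set (List A)} {u v : List A} (h : u ++ v ∈ prefs L) : u ∈ prefs L := by
  obtain ⟨w, hw⟩ := h
  exact ⟨v ++ w, by simpa using hw⟩

/-- Cancellation of a code word of a prefix code. -/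
theorem prefs_cancel (hY : IsPrefixCode Y) {y s : List A} (hy : y ∈ Y)
    (h : y ++ s ∈ prefs (star Y)) : s ∈ prefs (star Y) := by
  obtain ⟨v, l, hl, hfl⟩ := h
  rcases l with _ | ⟨x, l⟩
  · simp only [List.flatten_nil] at hfl
    have : y = [] := by
      have := congrArg List.length hfl
      simp at this
      exact List.length_eq_zero_iff.1 (by omega)
    exact absurd (this ▸ hy) hY.1
  · have hl' : ∀ z ∈ l, z ∈ Y := fun z hz => hl z (by simp [hz])
    have hx := hl x (by simp)
    rw [List.flatten_cons, List.append_assoc] at hfl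
    have hxy : x = y := by
      rcases List.append_eq_append_iff.1 hfl with ⟨t, ht1, ht2⟩ | ⟨t, ht1, ht2⟩
      · exact hY.2 x hx y hy ⟨t, ht1.symm⟩
      · exact (hY.2 y hy x hx ⟨t, ht1.symm⟩).symm
    subst hxy
    have h2 := List.append_cancel_left hfl
    exact ⟨v, l, hl', h2⟩

theorem isCode_of_prefix (hY : IsPrefixCode Y) : IsCode Y := by
  refine isCode_of_dec hY.1 ?_
  intro y hy y' hy' s _ s' _ heq
  rcases List.append_eq_append_iff.1 heq with ⟨t, ht1, ht2⟩ | ⟨t, ht1, ht2⟩
  · exact hY.2 y hy y' hy' ⟨t, ht1.symm⟩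
  · exact (hY.2 y' hy' y hy ⟨t, ht1.symm⟩).symm

/-- States: proper prefixes of words of `Y`, and the empty word. -/
def IsSt (Y : Set (List A)) (p : List A) : Prop := p = [] ∨ ∃ s, s ≠ [] ∧ p ++ s ∈ Y

/-- One step. -/
noncomputable def dl (Y : Set (List A)) (p : List A) (a : A) : Option (List A) :=
  if p ++ [a] ∈ Y then some [] else if IsSt Y (p ++ [a]) then some (p ++ [a]) else none

/-- The action of a word. -/
noncomputable def run (Y : Set (List A)) : List A → List A → Option (List A)
  | p, [] => some p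
  | p, a :: w => (dl Y p a).bind (fun q => run Y q w)

theorem run_append (u v : List A) : ∀ p : List A,
    run Y p (u ++ v) = (run Y p u).bind (fun q => run Y q v) := by
  induction u with
  | nil => intro p; simp [run]
  | cons a u ih =>
    intro p
    simp only [List.cons_append, run]
    cases dl Y p a with
    | none => rfl
    | some q => simp [ih]

theorem dl_state {p q : List A} {a : A} (h : dl Y p a = some q) : IsSt Y q := by
  unfold dl at h
  split_ifs at h with h1 h2
  · simp only [Option.some.injEq] at h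
    exact Or.inl h.symm
  · simp only [Option.some.injEq] at h
    rw [← h]; exact h2

theorem run_state (w : List A) : ∀ {p q : List A}, IsSt Y p → run Y p w = some q → IsSt Y q := by
  induction w with
  | nil => intro p q hp h; simp only [run, Option.some.injEq] at h; exact h ▸ hp
  | cons a w ih =>
    intro p q _ h
    simp only [run, Option.bind_eq_some_iff] at h
    obtain ⟨r, hr, hq⟩ := h
    exact ih (dl_state hr) hq

/-- Reading the rest of a code word. -/
theorem run_rest (hY : IsPrefixCode Y) (s : List A) : ∀ p : List A, s ≠ [] → p ++ s ∈ Y →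
    run Y p s = some [] := by
  induction s with
  | nil => intro p h; exact absurd rfl h
  | cons a s ih =>
    intro p _ hps
    simp only [run]
    by_cases hs : s = []
    · subst hs
      have : dl Y p a = some [] := by unfold dl; rw [if_pos hps]
      rw [this]; rfl
    · have hps' : (p ++ [a]) ++ s ∈ Y := by simpa using hps
      have h1 : p ++ [a] ∉ Y := by
        intro h
        have := hY.2 _ h _ hps' ⟨s, rfl⟩
        apply hs
        have := congrArg List.length this
        simp at this
        exact this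
      have h2 : IsSt Y (p ++ [a]) := Or.inr ⟨s, hs, hps'⟩
      have : dl Y p a = some (p ++ [a]) := by
        unfold dl
        rw [if_neg h1, if_pos h2]
      rw [this]
      exact ih _ hs hps'

theorem run_star (hY : IsPrefixCode Y) : ∀ w ∈ star Y, run Y [] w = some [] := by
  refine star_cons_induction rfl ?_
  intro x hx v _ hv
  have hxne : x ≠ [] := fun h => hY.1 (h ▸ hx)
  rw [run_append, run_rest hY x [] hxne (by simpa using hx)]
  exact hv

/-- Soundness. -/
theorem run_sound (w : List A) : ∀ {p q : List A}, run Y p w = some q →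
    ∃ y ∈ star Y, p ++ w = y ++ q := by
  induction w with
  | nil =>
    intro p q h
    simp only [run, Option.some.injEq] at h
    exact ⟨[], nil_mem_star Y, by simp [h]⟩
  | cons a w ih =>
    intro p q h
    simp only [run, Option.bind_eq_some_iff] at h
    obtain ⟨r, hr, hq⟩ := h
    obtain ⟨y, hy, hyq⟩ := ih hq
    unfold dl at hr
    split_ifs at hr with h1 h2
    · simp only [Option.some.injEq] at hr
      subst hr
      refine ⟨(p ++ [a]) ++ y, star_append (mem_star_of_mem h1) hy, ?_⟩
      simp only [List.nil_append] at hyq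
      simp [hyq]
    · simp only [Option.some.injEq] at hr
      subst hr
      exact ⟨y, hy, by simpa using hyq⟩

theorem run_prefs {w q : List A} (hq : IsSt Y q) (h : run Y [] w = some q) :
    w ∈ prefs (star Y) := by
  obtain ⟨y, hy, hyq⟩ := run_sound w h
  simp only [List.nil_append] at hyq
  rcases hq with rfl | ⟨s, _, hs⟩
  · exact ⟨[], by simpa [hyq] using hy⟩
  · refine ⟨s, ?_⟩
    rw [hyq, List.append_assoc]
    exact star_append hy (mem_star_of_mem hs)

theorem finite_st (hY : Y.Finite) : {p : List A | IsSt Y p}.Finite := by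
  have h1 : {p : List A | IsSt Y p} ⊆ {[]} ∪ ⋃ y ∈ Y, {p | p ∈ y.inits} := by
    rintro p (rfl | ⟨s, _, hs⟩)
    · left; rfl
    · right
      rw [Set.mem_iUnion₂]
      exact ⟨_, hs, by simp⟩
  have h2 : ({[]} ∪ ⋃ y ∈ Y, {p | p ∈ y.inits} : Set (List A)).Finite :=
    (Set.finite_singleton _).union (hY.biUnion (fun y _ => List.finite_toSet _))
  exact h2.subset h1

/-- The image of a word. -/
def img (Y : Set (List A)) (w : List A) : Set (List A) :=
  {q | ∃ p, IsSt Y p ∧ run Y p w = some q}

theorem img_sub (w : List A) : img Y w ⊆ {p | IsSt Y p} := by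
  rintro q ⟨p, hp, hq⟩
  exact run_state w hp hq

theorem img_append (u v : List A) :
    img Y (u ++ v) = {q | ∃ p ∈ img Y u, run Y p v = some q} := by
  ext q
  constructor
  · rintro ⟨p, hp, hq⟩
    rw [run_append, Option.bind_eq_some_iff] at hq
    obtain ⟨r, hr, hq⟩ := hq
    exact ⟨r, ⟨p, hp, hr⟩, hq⟩
  · rintro ⟨r, ⟨p, hp, hr⟩, hq⟩
    exact ⟨p, hp, by rw [run_append, hr]; exact hq⟩

theorem img_append_sub (u v : List A) : img Y (u ++ v) ⊆ img Y v := by
  rw [img_append]
  rintro q ⟨p, hp, hq⟩
  exact ⟨p, img_sub u hp, hq⟩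

theorem img_nonempty (hY : IsPrefixCode Y) {w : List A} (h : w ∈ factors (star Y)) :
    (img Y w).Nonempty := by
  obtain ⟨u, v, h⟩ := h
  have h1 := run_star hY _ h
  rw [run_append, run_append, Option.bind_eq_some_iff] at h1
  obtain ⟨q, hq, _⟩ := h1
  rw [Option.bind_eq_some_iff] at hq
  obtain ⟨p, hp, hq⟩ := hq
  exact ⟨q, p, run_state u (Or.inl rfl) hp, hq⟩

/-- The number of words of `img (u ++ v)` is at most that of `img u`, with equality only if `v` is
readable from every state of `img u`. -/
theorem img_card (hYf : Y.Finite) (u v : List A) :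
    (img Y (u ++ v)).ncard ≤ (img Y u).ncard ∧
      ((img Y (u ++ v)).ncard = (img Y u).ncard → ∀ p ∈ img Y u, ∃ q, run Y p v = some q) := by
  have hfin : (img Y u).Finite := (finite_st hYf).subset (img_sub u)
  set D : Set (List A) := {p | p ∈ img Y u ∧ ∃ q, run Y p v = some q} with hD
  have hDs : D ⊆ img Y u := fun p hp => hp.1
  have hDf : D.Finite := hfin.subset hDs
  have h1 : img Y (u ++ v) = (fun p => (run Y p v).getD []) '' D := by
    rw [img_append]
    ext q
    constructor
    · rintro ⟨p, hp, hq⟩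
      exact ⟨p, ⟨hp, q, hq⟩, by simp [hq]⟩
    · rintro ⟨p, ⟨hp, q', hq'⟩, rfl⟩
      exact ⟨p, hp, by simp [hq']⟩
  have h2 : (img Y (u ++ v)).ncard ≤ D.ncard := by
    rw [h1]
    exact Set.ncard_image_le hDf
  have h3 : D.ncard ≤ (img Y u).ncard := Set.ncard_le_ncard hDs hfin
  refine ⟨h2.trans h3, fun heq => ?_⟩
  have h4 : D = img Y u := Set.eq_of_subset_of_ncard_le hDs (by omega) hfin
  intro p hp
  rw [← h4] at hp
  exact hp.2

/-- A word after which only prefixes of `Y∗` can be read. -/
theorem exists_reset (hYf : Y.Finite) (hY : IsPrefixCode Y) :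
    ∃ w ∈ star Y, ∀ z, w ++ z ∈ factors (star Y) → z ∈ prefs (star Y) := by
  have hex : ∃ n, ∃ w ∈ star Y, (img Y w).ncard = n := ⟨_, [], nil_mem_star Y, rfl⟩
  obtain ⟨w, hw, hwn⟩ := Nat.find_spec hex
  refine ⟨w, hw, fun z hz => ?_⟩
  have hpos := img_nonempty hY hz
  obtain ⟨u, v, huv⟩ := hz
  have hmin : (img Y w).ncard ≤ (img Y (u ++ (w ++ z) ++ v)).ncard := by
    rw [hwn]
    exact Nat.find_min' hex ⟨_, huv, rfl⟩
  have h1 : (img Y (u ++ (w ++ z) ++ v)).ncard ≤ (img Y (w ++ z)).ncard := by
    have h2 := (img_card hYf (u ++ (w ++ z)) v).1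
    have h3 : (img Y (u ++ (w ++ z))).ncard ≤ (img Y (w ++ z)).ncard :=
      Set.ncard_le_ncard (img_append_sub u (w ++ z)) ((finite_st hYf).subset (img_sub _))
    exact h2.trans h3
  have h4 := img_card hYf w z
  have heq : (img Y (w ++ z)).ncard = (img Y w).ncard := le_antisymm h4.1 (hmin.trans h1)
  have hroot : [] ∈ img Y w := ⟨[], Or.inl rfl, run_star hY w hw⟩
  obtain ⟨q, hq⟩ := h4.2 heq [] hroot
  exact run_prefs (run_state z (Or.inl rfl) hq) hq

/-- The prefixes of `X∗` and of a rich prefix code in `X∗` agree. -/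
theorem prefs_eq {X : Set (List A)} (hYf : Y.Finite) (hY : IsPrefixCode Y) (hYX : Y ⊆ star X)
    (hrich : factors (star Y) = factors (star X)) : prefs (star Y) = prefs (star X) := by
  apply Set.Subset.antisymm
  · rintro z ⟨v, hv⟩
    exact ⟨v, star_subset_star hYX hv⟩
  · rintro z ⟨v, hv⟩
    obtain ⟨w, hw, hreset⟩ := exists_reset hYf hY
    apply hreset
    rw [hrich]
    refine ⟨[], v, ?_⟩
    have := star_append (star_subset_star hYX hw) hv
    simpa using this

/-- The right stable words of `X∗`. -/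
def Stab (X : Set (List A)) (c : List A) : Prop :=
  c ∈ star X ∧ c ≠ [] ∧ ∀ s, c ++ s ∈ prefs (star X) → s ∈ prefs (star X)

theorem prefix_nec {X : Set (List A)} (hYf : Y.Finite) (hY : IsPrefixCode Y) (hYX : Y ⊆ star X)
    (hrich : factors (star Y) = factors (star X)) :
    ∃ N : ℕ, ∀ z ∈ prefs (star X), N ≤ z.length → ∃ c, c <+: z ∧ Stab X c := by
  have hpe := prefs_eq hYf hY hYX hrich
  obtain ⟨M, hM⟩ : ∃ M, ∀ y ∈ Y, y.length ≤ M := by
    obtain ⟨M, hM⟩ := (hYf.image List.length).bddAbove
    exact ⟨M, fun y hy => hM ⟨y, hy, rfl⟩⟩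
  refine ⟨M + 1, fun z hz hzl => ?_⟩
  rw [← hpe] at hz
  obtain ⟨v, l, hl, hfl⟩ := hz
  rcases l with _ | ⟨y, l⟩
  · exfalso
    have := congrArg List.length hfl
    simp at this
    omega
  · have hy := hl y (by simp)
    have hyM := hM y hy
    rw [List.flatten_cons] at hfl
    have hpre : y <+: z := by
      rcases List.append_eq_append_iff.1 hfl with ⟨t, ht1, ht2⟩ | ⟨t, ht1, ht2⟩
      · exact ⟨t, ht1.symm⟩
      · have := congrArg List.length ht1
        simp at this
        omega
    refine ⟨y, hpre, hYX hy, fun h => hY.1 (h ▸ hy), fun s hs => ?_⟩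
    rw [← hpe] at hs ⊢
    exact prefs_cancel hY hy hs

/-- The minimal right stable words. -/
def base (X : Set (List A)) : Set (List A) :=
  {y | Stab X y ∧ ∀ c, c <+: y → Stab X c → c = y}

theorem base_prefix (X : Set (List A)) : IsPrefixCode (base X) := by
  refine ⟨fun h => h.1.2.1 rfl, ?_⟩
  intro x hx y hy hxy
  exact hy.2 x hxy hx.1

theorem exists_base {X : Set (List A)} {z c : List A} (hc : c <+: z) (h : Stab X c) :
    ∃ y ∈ base X, y <+: z := by
  have hex : ∃ n, ∃ c, c.length = n ∧ c <+: z ∧ Stab X c := ⟨_, c, rfl, hc, h⟩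
  obtain ⟨y, hyl, hyz, hy⟩ := Nat.find_spec hex
  refine ⟨y, ⟨hy, fun c hc hcs => ?_⟩, hyz⟩
  have hmin := Nat.find_min' hex ⟨c, rfl, hc.trans hyz, hcs⟩
  have hle := hc.length_le
  exact hc.eq_of_length (by omega)

theorem letters_star {X : Set (List A)} {T : Finset A} (hT : ∀ x ∈ X, ∀ a ∈ x, a ∈ T) :
    ∀ w ∈ star X, ∀ a ∈ w, a ∈ T := by
  refine star_cons_induction ?_ ?_
  · intro a ha; simp at ha
  · intro x hx v _ ih a ha
    rcases List.mem_append.1 ha with ha | ha
    · exact hT x hx a ha
    · exact ih a ha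

theorem base_finite {X : Set (List A)} (hfin : X.Finite) {N : ℕ}
    (hN : ∀ z ∈ prefs (star X), N ≤ z.length → ∃ c, c <+: z ∧ Stab X c) :
    (base X).Finite := by
  have h1 : (⋃ w ∈ X, {x : A | x ∈ w}).Finite := hfin.biUnion (fun w _ => List.finite_toSet w)
  set T := h1.toFinset with hTd
  have hT : ∀ x ∈ X, ∀ a ∈ x, a ∈ T := by
    intro x hx a ha
    rw [hTd, Set.Finite.mem_toFinset]
    exact Set.mem_biUnion hx ha
  have h2 : {l : List ↥T | l.length ≤ N}.Finite := List.finite_length_le _ N
  refine (h2.image (fun l => l.map Subtype.val)).subset ?_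
  intro y hy
  have hyT := letters_star hT y hy.1.1
  have hyN : y.length ≤ N := by
    by_contra hlt
    have hz : y.take N ∈ prefs (star X) := ⟨y.drop N, by
      rw [List.take_append_drop]; exact hy.1.1⟩
    obtain ⟨c, hc, hcs⟩ := hN _ hz (by rw [List.length_take]; omega)
    have hcy : c <+: y := hc.trans (List.take_prefix N y)
    have := hy.2 c hcy hcs
    have hlen := hc.length_le
    rw [List.length_take, this] at hlen
    omega
  have hyT' : ∀ a ∈ y, a ∈ T := hyT
  lift y to List ↥T using hyT' with y'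
  refine ⟨y', ?_, rfl⟩
  simpa using hyN

theorem base_prefs {X : Set (List A)} {N : ℕ}
    (hN : ∀ z ∈ prefs (star X), N ≤ z.length → ∃ c, c <+: z ∧ Stab X c) (n : ℕ) :
    ∀ z : List A, z.length ≤ n → z ∈ prefs (star X) → z ∈ prefs (star (base X)) := by
  induction n with
  | zero =>
    intro z hz _
    have : z = [] := List.length_eq_zero_iff.1 (by omega)
    rw [this]
    exact nil_mem_prefs _
  | succ n ih =>
    intro z hz hzX
    by_cases hz0 : z = []
    · rw [hz0]; exact nil_mem_prefs _
    · obtain ⟨v, hv⟩ := hzX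
      have hlong : ∀ k : ℕ, ∃ r, (z ++ v) ++ r ∈ star X ∧ k ≤ ((z ++ v) ++ r).length := by
        intro k
        induction k with
        | zero => exact ⟨[], by simpa using hv, Nat.zero_le _⟩
        | succ k ihk =>
          obtain ⟨r, hr, hrl⟩ := ihk
          refine ⟨r ++ (z ++ v), ?_, ?_⟩
          · have := star_append hr hv
            simpa using this
          · have hzl : 0 < z.length := List.length_pos_iff.2 hz0
            simp only [List.length_append] at hrl ⊢
            omega
      obtain ⟨r, hr, hrl⟩ := hlong N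
      obtain ⟨c, hc, hcs⟩ := hN _ (mem_prefs_self hr) hrl
      obtain ⟨y, hy, hyz⟩ := exists_base hc hcs
      obtain ⟨t, ht⟩ := hyz
      have ht' : y ++ t = z ++ (v ++ r) := by rw [ht]; simp
      rcases List.append_eq_append_iff.1 ht' with ⟨t', ht1, ht2⟩ | ⟨t', ht1, ht2⟩
      · -- z = y ++ t'
        subst ht1
        have hzX' : y ++ t' ∈ prefs (star X) := ⟨v, hv⟩
        have h1 := hy.1.2.2 t' hzX'
        have hylen : 0 < y.length := List.length_pos_iff.2 hy.1.2.1
        have h2 := ih t' (by simp at hz; omega) h1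
        obtain ⟨v', hv'⟩ := h2
        refine ⟨v', ?_⟩
        rw [List.append_assoc]
        exact star_append (mem_star_of_mem hy) hv'
      · -- y = z ++ t'
        refine ⟨t', ?_⟩
        rw [← ht1]
        exact mem_star_of_mem hy

theorem prefix_iff {X : Set (List A)} (hfin : X.Finite) :
    (∃ Y : Set (List A), Y.Finite ∧ Y ⊆ star X ∧ IsPrefixCode Y ∧
      factors (star Y) = factors (star X)) ↔
    ∃ N : ℕ, ∀ z ∈ prefs (star X), N ≤ z.length → ∃ c, c <+: z ∧ Stab X c := by
  constructor
  · rintro ⟨Y, hYf, hYX, hY, hrich⟩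
    exact prefix_nec hYf hY hYX hrich
  · rintro ⟨N, hN⟩
    refine ⟨base X, base_finite hfin hN, fun y hy => hy.1.1, base_prefix X, ?_⟩
    apply Set.Subset.antisymm
    · rintro w ⟨u, v, h⟩
      exact ⟨u, v, star_subset_star (fun y hy => hy.1.1) h⟩
    · rintro w ⟨u, v, h⟩
      have h1 : u ++ w ∈ prefs (star X) := ⟨v, h⟩
      obtain ⟨v', hv'⟩ := base_prefs hN _ _ le_rfl h1
      exact ⟨u, v', hv'⟩

end RCP
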