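import Pool.Agent.RCP.ShortNeg
import Pool.Agent.RCP.Transfer

namespace RCP

open scoped Classical

variable {A : Type*} {X : Set (List A)}

theorem path_of_mem (hX : Short X) (n : ℕ) : ∀ (b : A) (s : List A), s.length ≤ n → [b] ∉ X →
    b :: s ∈ star X → s ∈ star X → ∃ c l, [c] ∈ X ∧ (∀ b' ∈ l, [b'] ∉ X) ∧
      List.IsChain (fun x y => [x, y] ∈ X) (b :: (l ++ [c])) := by
  induction n with
  | zero =>
    intro b s hs hb hbs _
    have hs0 : s = [] := List.length_eq_zero_iff.1 (by omega)
    subst hs0
    rcases (star_cons_iff hX).1 hbs with ⟨h, _⟩ | ⟨b', z', h, _⟩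
    · exact absurd h hb
    · simp at h
  | succ n ih =>
    intro b s hs hb hbs hsX
    rcases (star_cons_iff hX).1 hbs with ⟨h, _⟩ | ⟨c, z, h, hbc, hz⟩
    · exact absurd h hb
    · subst h
      by_cases hc : [c] ∈ X
      · exact ⟨c, [], hc, by simp, by simpa using hbc⟩
      · obtain ⟨c', l, hc', hl, hch⟩ := ih c z (by simp at hs; omega) hc hsX hz
        refine ⟨c', c :: l, hc', ?_, ?_⟩
        · intro b' hb'
          rcases List.mem_cons.1 hb' with rfl | hb'
          · exact hc
          · exact hl b' hb'
        · rw [List.cons_append]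
          exact List.isChain_cons_cons.2 ⟨hbc, hch⟩

theorem short_pos (hfin : X.Finite) (hX : Short X) (hno : ¬ HasChain X) :
    HasRichCode X := by
  set Y : Set (List A) := {x | x ∈ X ∧ ¬ ∃ a b, x = [a, b] ∧ [a] ∈ X ∧ [b] ∈ X} with hY
  have hYX : Y ⊆ X := fun x hx => hx.1
  have hXY : X ⊆ star Y := by
    intro x hx
    by_cases h : ∃ a b, x = [a, b] ∧ [a] ∈ X ∧ [b] ∈ X
    · obtain ⟨a, b, rfl, ha, hb⟩ := h
      have ha' : [a] ∈ Y := ⟨ha, by rintro ⟨_, _, h, _⟩; simp at h⟩
      have hb' : [b] ∈ Y := ⟨hb, by rintro ⟨_, _, h, _⟩; simp at h⟩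
      exact star_append (mem_star_of_mem ha') (mem_star_of_mem hb')
    · exact mem_star_of_mem ⟨hx, h⟩
  have hstar : star Y = star X := by
    apply Set.Subset.antisymm
    · exact star_subset_star (fun x hx => mem_star_of_mem (hYX hx))
    · exact star_subset_star hXY
  refine ⟨Y, hfin.subset hYX, fun x hx => mem_star_of_mem (hYX hx), ?_, by rw [hstar]⟩
  have hsing : ∀ a, [a] ∈ Y ↔ [a] ∈ X := by
    intro a
    constructor
    · exact fun h => h.1
    · exact fun h => ⟨h, by rintro ⟨_, _, h, _⟩; simp at h⟩
  have key : ∀ a b s s', [a] ∈ Y → [a, b] ∈ Y → s ∈ star Y → s' ∈ star Y →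
      [a] ++ s = [a, b] ++ s' → False := by
    intro a b s s' ha hab hs hs' heq
    have ha' := (hsing a).1 ha
    have hb : [b] ∉ X := fun hb => hab.2 ⟨a, b, rfl, ha', hb⟩
    have hs1 : s = b :: s' := by simpa using heq
    rw [hs1, hstar] at hs
    rw [hstar] at hs'
    obtain ⟨c, l, hc, hl, hch⟩ := path_of_mem hX s'.length b s' le_rfl hb hs hs'
    refine hno ⟨a, c, b :: l, ha', hc, by simp, ?_, ?_⟩
    · intro b' hb'
      rcases List.mem_cons.1 hb' with rfl | hb'
      · exact hb
      · exact hl b' hb'
    · rw [List.cons_append]
      exact List.isChain_cons_cons.2 ⟨hab.1, hch⟩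
  refine isCode_of_dec ?_ ?_
  · intro h0
    rcases hX _ h0.1 with ⟨a, h⟩ | ⟨a, b, h⟩ <;> simp at h
  · intro y hy y' hy' s hs s' hs' heq
    rcases hX _ hy.1 with ⟨a, rfl⟩ | ⟨a, b, rfl⟩ <;>
      rcases hX _ hy'.1 with ⟨a', rfl⟩ | ⟨a', b', rfl⟩
    · simp only [List.cons_append, List.nil_append, List.cons.injEq] at heq
      rw [heq.1]
    · have h1 : a = a' := by
        simp only [List.cons_append, List.nil_append, List.cons.injEq] at heq
        exact heq.1
      subst h1
      exact (key a b' s s' hy hy' hs hs' heq).elim
    · have h1 : a = a' := by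
        simp only [List.cons_append, List.nil_append, List.cons.injEq] at heq
        exact heq.1
      subst h1
      exact (key a b s' s hy' hy hs' hs heq.symm).elim
    · simp only [List.cons_append, List.nil_append, List.cons.injEq] at heq
      rw [heq.1, heq.2.1]

/-- The reversed set. -/
def rev (X : Set (List A)) : Set (List A) := {x | x.reverse ∈ X}

theorem rev_rev (X : Set (List A)) : rev (rev X) = X := by
  ext x
  simp [rev]

theorem mem_star_rev {x : List A} (h : x ∈ star (rev X)) : x.reverse ∈ star X := by
  obtain ⟨l, hl, rfl⟩ := h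
  refine ⟨(l.map List.reverse).reverse, ?_, ?_⟩
  · intro y hy
    rw [List.mem_reverse, List.mem_map] at hy
    obtain ⟨z, hz, rfl⟩ := hy
    exact hl z hz
  · rw [List.reverse_flatten]

theorem star_rev (X : Set (List A)) : star (rev X) = rev (star X) := by
  ext x
  constructor
  · exact fun h => mem_star_rev h
  · intro h
    have h1 : x.reverse ∈ star (rev (rev X)) := by rw [rev_rev]; exact h
    simpa using mem_star_rev h1

theorem factors_rev (L : Set (List A)) : factors (rev L) = rev (factors L) := by
  ext x
  constructor
  · rintro ⟨u, w, h⟩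
    refine ⟨w.reverse, u.reverse, ?_⟩
    have : (u ++ x ++ w).reverse ∈ L := h
    simpa using this
  · rintro ⟨u, w, h⟩
    refine ⟨w.reverse, u.reverse, ?_⟩
    show (w.reverse ++ x ++ u.reverse).reverse ∈ L
    simpa using h

theorem isCode_rev (h : IsCode X) : IsCode (rev X) := by
  intro l l' hl hl' hfl
  have h1 : (l.map List.reverse).reverse = (l'.map List.reverse).reverse := by
    apply h
    · intro y hy
      rw [List.mem_reverse, List.mem_map] at hy
      obtain ⟨z, hz, rfl⟩ := hy
      exact hl z hz
    · intro y hy
      rw [List.mem_reverse, List.mem_map] at hy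
      obtain ⟨z, hz, rfl⟩ := hy
      exact hl' z hz
    · rw [← List.reverse_flatten, ← List.reverse_flatten, hfl]
  have h2 := List.reverse_injective h1
  exact (List.map_injective_iff.2 List.reverse_injective) h2

theorem rich_rev (h : HasRichCode (rev X)) : HasRichCode X := by
  obtain ⟨Y, hYf, hYX, hcode, hrich⟩ := h
  refine ⟨rev Y, ?_, ?_, isCode_rev hcode, ?_⟩
  · exact hYf.preimage List.reverse_injective.injOn
  · intro y hy
    have h1 := hYX hy
    rw [star_rev] at h1
    simpa [rev] using h1
  · rw [star_rev, factors_rev, hrich, star_rev, factors_rev, rev_rev]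

theorem left_pos (hfin : X.Finite) (hX : Short X) (hL : LeftFull X) : HasRichCode X := by
  set Y : Set (List A) := {x | x ∈ X ∧ ¬ ∃ a b, x = [a, b] ∧ [b] ∈ X} with hY
  have hYX : Y ⊆ X := fun x hx => hx.1
  have hsing : ∀ a, [a] ∈ X → [a] ∈ Y := fun a h => ⟨h, by rintro ⟨_, _, h, _⟩; simp at h⟩
  have hcode : IsCode Y := by
    have h1 : IsCode (rev Y) := by
      refine isCode_of_dec ?_ ?_
      · intro h0
        have h0' : ([] : List A) ∈ Y := h0
        rcases hX _ h0'.1 with ⟨a, h⟩ | ⟨a, b, h⟩ <;> simp at h
      · intro y hy y' hy' s hs s' hs' heq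
        have hy1 : y.reverse ∈ Y := hy
        have hy1' : y'.reverse ∈ Y := hy'
        have key : ∀ u v : List A, ∀ a a' b', u.reverse = [a] → v.reverse = [a', b'] →
            u.reverse ∈ Y → v.reverse ∈ Y → ∀ s s', u ++ s = v ++ s' → False := by
          intro u v a a' b' hu hv huY hvY s s' heq
          have hu' : u = [a] := by
            have := congrArg List.reverse hu
            simpa using this
          have hv' : v = [b', a'] := by
            have := congrArg List.reverse hv
            simpa using this
          rw [hu', hv'] at heq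
          simp only [List.cons_append, List.nil_append, List.cons.injEq] at heq
          rw [hv] at hvY
          rw [hu] at huY
          exact hvY.2 ⟨a', b', rfl, heq.1 ▸ huY.1⟩
        rcases hX _ hy1.1 with ⟨a, ha⟩ | ⟨a, b, ha⟩ <;>
          rcases hX _ hy1'.1 with ⟨a', ha'⟩ | ⟨a', b', ha'⟩
        · have hu' : y = [a] := by
            have := congrArg List.reverse ha
            simpa using this
          have hv' : y' = [a'] := by
            have := congrArg List.reverse ha'
            simpa using this
          rw [hu', hv'] at heq ⊢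
          simp only [List.cons_append, List.nil_append, List.cons.injEq] at heq
          rw [heq.1]
        · exact (key y y' a a' b' ha ha' hy1 hy1' s s' heq).elim
        · exact (key y' y a' a b ha' ha hy1' hy1 s' s heq.symm).elim
        · have hu' : y = [b, a] := by
            have := congrArg List.reverse ha
            simpa using this
          have hv' : y' = [b', a'] := by
            have := congrArg List.reverse ha'
            simpa using this
          rw [hu', hv'] at heq ⊢
          simp only [List.cons_append, List.nil_append, List.cons.injEq] at heq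
          rw [heq.1, heq.2.1]
    have h2 := isCode_rev h1
    rwa [rev_rev] at h2
  refine ⟨Y, hfin.subset hYX, fun x hx => mem_star_of_mem (hYX hx), hcode, ?_⟩
  by_cases hB : ∃ y z, [y] ∉ X ∧ [y, z] ∈ X
  · obtain ⟨y0, z0, hy0, hyz⟩ := hB
    have hend : ∀ x, Begins X x → Ends X x := by
      intro x hx
      by_cases hxX : [x] ∈ X
      · exact Or.inl hxX
      · exact Or.inr ⟨z0, hL z0 x (Or.inr ⟨y0, hyz⟩) hx hxX⟩
    have hbeg : ∀ x, Ends X x → Begins X x := by
      intro x hx
      exact Or.inr ⟨y0, hL x y0 hx (Or.inr ⟨z0, hyz⟩) hy0⟩
    have hcomp : ∀ (n : ℕ) (w : List A), w.length ≤ n → (∀ a ∈ w, Ends X a) →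
        w ∈ star Y ∨ ∀ x, Ends X x → x :: w ∈ star Y := by
      intro n
      induction n with
      | zero =>
        intro w hw _
        have : w = [] := List.length_eq_zero_iff.1 (by omega)
        subst this
        exact Or.inl (nil_mem_star Y)
      | succ n ih =>
        intro w hw hwE
        rcases List.eq_nil_or_concat' w with rfl | ⟨w', z, rfl⟩
        · exact Or.inl (nil_mem_star Y)
        · by_cases hz : [z] ∈ X
          · have hz' := mem_star_of_mem (hsing z hz)
            rcases ih w' (by simp at hw; omega) (fun a ha => hwE a (by simp [ha])) with h | h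
            · exact Or.inl (star_append h hz')
            · exact Or.inr (fun x hx => by
                have := star_append (h x hx) hz'
                simpa using this)
          · have hzE := hwE z (by simp)
            have hpair : ∀ x, Ends X x → [x, z] ∈ Y := by
              intro x hx
              refine ⟨hL x z hx (hbeg z hzE) hz, ?_⟩
              rintro ⟨a, b, h1, h2⟩
              simp only [List.cons.injEq, and_true] at h1
              exact hz (h1.2 ▸ h2)
            rcases List.eq_nil_or_concat' w' with rfl | ⟨w'', x, rfl⟩
            · exact Or.inr (fun x hx => mem_star_of_mem (hpair x hx))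
            · have hx := hwE x (by simp)
              have hxz := mem_star_of_mem (hpair x hx)
              rcases ih w'' (by simp at hw; omega) (fun a ha => hwE a (by simp [ha])) with h | h
              · left
                have := star_append h hxz
                simpa using this
              · right
                intro x' hx'
                have := star_append (h x' hx') hxz
                simpa using this
    have hletters : ∀ w ∈ star X, ∀ a ∈ w, Ends X a := by
      refine star_cons_induction ?_ ?_
      · intro a ha; simp at ha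
      · intro x hx v _ ih a ha
        rcases List.mem_append.1 ha with ha | ha
        · rcases hX x hx with ⟨b, rfl⟩ | ⟨b, c, rfl⟩
          · simp only [List.mem_singleton] at ha
            subst ha
            exact Or.inl hx
          · simp only [List.mem_cons, List.not_mem_nil, or_false] at ha
            rcases ha with rfl | rfl
            · exact hend _ (Or.inr ⟨c, hx⟩)
            · exact Or.inr ⟨b, hx⟩
        · exact ih a ha
    apply Set.Subset.antisymm
    · rintro w ⟨u, v, h⟩
      exact ⟨u, v, star_subset_star (fun x hx => mem_star_of_mem (hYX hx)) h⟩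
    · rintro w ⟨u, v, h⟩
      have h1 : ∀ a ∈ w, Ends X a := fun a ha => hletters _ h a (by simp [ha])
      rcases hcomp w.length w le_rfl h1 with h2 | h2
      · exact mem_factors_self h2
      · refine ⟨[z0], [], ?_⟩
        have := h2 z0 (Or.inr ⟨y0, hyz⟩)
        simpa using this
  · have hXY : X ⊆ star Y := by
      intro x hx
      by_cases h : ∃ a b, x = [a, b] ∧ [b] ∈ X
      · obtain ⟨a, b, rfl, hb⟩ := h
        have ha : [a] ∈ X := by
          by_contra ha
          exact hB ⟨a, b, ha, hx⟩
        exact star_append (mem_star_of_mem (hsing a ha)) (mem_star_of_mem (hsing b hb))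
      · exact mem_star_of_mem ⟨hx, h⟩
    have hstar : star Y = star X := by
      apply Set.Subset.antisymm
      · exact star_subset_star (fun x hx => mem_star_of_mem (hYX hx))
      · exact star_subset_star hXY
    rw [hstar]

theorem short_rev (hX : Short X) : Short (rev X) := by
  intro x hx
  have hx' : x.reverse ∈ X := hx
  rcases hX _ hx' with ⟨a, h⟩ | ⟨a, b, h⟩
  · left
    refine ⟨a, ?_⟩
    have := congrArg List.reverse h
    simpa using this
  · right
    refine ⟨b, a, ?_⟩
    have := congrArg List.reverse h
    simpa using this

theorem right_pos (hfin : X.Finite) (hX : Short X) (hR : RightFull X) : HasRichCode X := by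
  apply rich_rev
  apply left_pos (hfin.preimage List.reverse_injective.injOn) (short_rev hX)
  intro x y hx hy hyX
  have hy' : [y] ∉ X := hyX
  show [x, y].reverse ∈ X
  simp only [List.reverse_cons, List.reverse_nil, List.nil_append, List.cons_append]
  refine hR y x ?_ ?_ hy'
  · rcases hy with h | ⟨z, h⟩
    · exact Or.inl h
    · right
      exact ⟨z, h⟩
  · rcases hx with h | ⟨z, h⟩
    · exact Or.inl h
    · right
      exact ⟨z, h⟩

/-- The classification for sets of words of length at most two. -/
theorem short_iff (hfin : X.Finite) (hX : Short X) :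
    HasRichCode X ↔ ¬ HasChain X ∨ LeftFull X ∨ RightFull X := by
  constructor
  · intro h
    by_contra h'
    push Not at h'
    exact short_neg hfin hX h'.1 h'.2.1 h'.2.2 h
  · rintro (h | h | h)
    · exact short_pos hfin hX h
    · exact left_pos hfin hX h
    · exact right_pos hfin hX h

end RCP
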