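import Pool.Agent.RCP.CycPrime
import Pool.Agent.RCP.Prefix
import Pool.Agent.RCP.ShortPos

namespace RCP

open scoped Classical

variable {A : Type*} {X : Set (List A)}

/-- If all factors of `X∗` are prefixes of words of `X∗`, there is a finite rich code. -/
theorem rich_of_right_dense (hfin : X.Finite)
    (h : factors (star X) ⊆ prefs (star X)) : HasRichCode X := by
  obtain ⟨M, hM⟩ : ∃ M, ∀ y ∈ X, y.length ≤ M := by
    obtain ⟨M, hM⟩ := (hfin.image List.length).bddAbove
    exact ⟨M, fun y hy => hM ⟨y, hy, rfl⟩⟩
  obtain ⟨Y, hYf, hYX, hY, hrich⟩ := (prefix_iff hfin).2 ⟨M + 1, fun z hz hzl => by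
    obtain ⟨v, l, hl, hfl⟩ := hz
    have key : ∀ (l : List (List A)) (z v : List A), (∀ y ∈ l, y ∈ X) → l.flatten = z ++ v →
        z ≠ [] → M < z.length → ∃ c, c <+: z ∧ Stab X c := by
      intro l
      induction l with
      | nil =>
        intro z v _ hfl hz0
        simp only [List.flatten_nil] at hfl
        exact absurd (List.append_eq_nil_iff.1 hfl.symm).1 hz0
      | cons x l ih =>
        intro z v hl hfl hz0 hzl
        have hx := hl x (by simp)
        have hl' : ∀ y ∈ l, y ∈ X := fun y hy => hl y (by simp [hy])
        rw [List.flatten_cons] at hfl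
        by_cases hx0 : x = []
        · subst hx0
          exact ih z v hl' (by simpa using hfl) hz0 hzl
        · have hpre : x <+: z := by
            rcases List.append_eq_append_iff.1 hfl with ⟨t, ht1, ht2⟩ | ⟨t, ht1, ht2⟩
            · exact ⟨t, ht1.symm⟩
            · have h1 := congrArg List.length ht1
              have h2 := hM x hx
              simp at h1
              omega
          refine ⟨x, hpre, mem_star_of_mem hx, hx0, fun s hs => h ?_⟩
          obtain ⟨t, ht⟩ := hs
          exact ⟨x, t, ht⟩
    have hz0 : z ≠ [] := by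
      rintro rfl
      simp at hzl
    exact key l z v hl hfl hz0 (by omega)⟩
  exact ⟨Y, hYf, hYX, isCode_of_prefix hY, hrich⟩

/-- Removing powers `b ^ p` in front. -/
theorem strip {b : A} {p : ℕ} (hp : 0 < p)
    (hX : ∀ x ∈ X, x ≠ [] → x ≠ List.replicate p b →
      ∃ c, c ≠ b ∧ ∃ i, i < p ∧ ∃ s, x = List.replicate i b ++ c :: s)
    {c : A} (hc : c ≠ b) (l : List (List A)) : ∀ (k : ℕ) (t : List A), (∀ y ∈ l, y ∈ X) →
      l.flatten = List.replicate k b ++ c :: t →
      List.replicate (k % p) b ++ c :: t ∈ star X := by
  induction l with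
  | nil =>
    intro k t _ hfl
    simp at hfl
  | cons x l ih =>
    intro k t hl hfl
    have hx := hl x (by simp)
    have hl' : ∀ y ∈ l, y ∈ X := fun y hy => hl y (by simp [hy])
    by_cases hx0 : x = []
    · subst hx0
      exact ih k t hl' (by simpa using hfl)
    · by_cases hxp : x = List.replicate p b
      · subst hxp
        rw [List.flatten_cons] at hfl
        have hpk : p ≤ k := by
          by_contra hlt
          have h1 := congrArg (fun l : List A => l[k]?) hfl
          rw [List.getElem?_append_left (by simp; omega),
            List.getElem?_append_right (by simp)] at h1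
          simp only [List.length_replicate, Nat.sub_self, List.getElem?_cons_zero] at h1
          rw [List.getElem?_replicate_of_lt (by omega)] at h1
          simp only [Option.some.injEq] at h1
          exact hc h1.symm
        obtain ⟨d, rfl⟩ := Nat.exists_eq_add_of_le hpk
        rw [List.replicate_add, List.append_assoc] at hfl
        have h2 := List.append_cancel_left hfl
        have := ih d t hl' h2
        rwa [Nat.add_mod_left]
      · obtain ⟨c', hc', i, hi, s, rfl⟩ := hX x hx hx0 hxp
        have hik : i = k := by
          rw [List.flatten_cons, List.append_assoc, List.cons_append] at hfl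
          rcases Nat.lt_trichotomy i k with h | h | h
          · exfalso
            have h1 := congrArg (fun l : List A => l[i]?) hfl
            rw [List.getElem?_append_right (by simp), List.getElem?_append_left (by simp; omega),
              List.getElem?_replicate_of_lt (by omega)] at h1
            simp only [List.length_replicate, Nat.sub_self, List.getElem?_cons_zero,
              Option.some.injEq] at h1
            exact hc' h1
          · exact h
          · exfalso
            have h1 := congrArg (fun l : List A => l[k]?) hfl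
            rw [List.getElem?_append_left (by simp; omega), List.getElem?_append_right (by simp),
              List.getElem?_replicate_of_lt (by omega)] at h1
            simp only [List.length_replicate, Nat.sub_self, List.getElem?_cons_zero,
              Option.some.injEq] at h1
            exact hc h1.symm
        subst hik
        rw [Nat.mod_eq_of_lt hi, ← hfl]
        exact ⟨_, hl, rfl⟩

/-- Words of `X∗` which are powers of `b`. -/
theorem pow_dvd {b : A} {p : ℕ}
    (hX : ∀ x ∈ X, x ≠ [] → x ≠ List.replicate p b →
      ∃ c, c ≠ b ∧ ∃ i, i < p ∧ ∃ s, x = List.replicate i b ++ c :: s)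
    (l : List (List A)) : ∀ k : ℕ, (∀ y ∈ l, y ∈ X) → l.flatten = List.replicate k b → p ∣ k := by
  induction l with
  | nil =>
    intro k _ hfl
    have := congrArg List.length hfl
    simp at this
    rw [← this]
    exact dvd_zero p
  | cons x l ih =>
    intro k hl hfl
    have hx := hl x (by simp)
    have hl' : ∀ y ∈ l, y ∈ X := fun y hy => hl y (by simp [hy])
    rw [List.flatten_cons] at hfl
    by_cases hx0 : x = []
    · subst hx0
      exact ih k hl' (by simpa using hfl)
    · by_cases hxp : x = List.replicate p b
      · subst hxp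
        have hlen := congrArg List.length hfl
        simp only [List.length_append, List.length_replicate] at hlen
        obtain ⟨d, rfl⟩ := Nat.exists_eq_add_of_le (show p ≤ k by omega)
        rw [List.replicate_add] at hfl
        have h2 := List.append_cancel_left hfl
        exact dvd_add (dvd_refl p) (ih d hl' h2)
      · obtain ⟨c', hc', i, _, s, rfl⟩ := hX x hx hx0 hxp
        exfalso
        have hmem : c' ∈ List.replicate k b := by rw [← hfl]; simp
        exact hc' (List.eq_of_mem_replicate hmem)

theorem rep_pow_mem {b : A} {p : ℕ} (hb : List.replicate p b ∈ X) (q : ℕ) :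
    List.replicate (p * q) b ∈ star X := by
  refine ⟨List.replicate q (List.replicate p b), ?_, ?_⟩
  · intro x hx
    rw [List.eq_of_mem_replicate hx]
    exact hb
  · rw [List.flatten_replicate_replicate, Nat.mul_comm]

/-- Density from full residues. -/
theorem dense_of_residues {b : A} {p : ℕ} (hp : 0 < p) (hb : List.replicate p b ∈ X)
    (hX : ∀ x ∈ X, x ≠ [] → x ≠ List.replicate p b →
      ∃ c, c ≠ b ∧ ∃ i, i < p ∧ ∃ s, x = List.replicate i b ++ c :: s)
    (hall : ∀ (v : List A) (m : ℕ), ∃ (k : ℕ) (t : List A), (k : ZMod p) = (m : ZMod p) ∧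
      List.replicate k b ++ v ++ t ∈ star X) : ∀ w, w ∈ prefs (star X) := by
  have hform : ∀ w : List A, (∃ m, w = List.replicate m b) ∨
      ∃ m c v, c ≠ b ∧ w = List.replicate m b ++ c :: v := by
    intro w
    induction w with
    | nil => exact Or.inl ⟨0, rfl⟩
    | cons a w ih =>
      by_cases ha : a = b
      · subst ha
        rcases ih with ⟨m, rfl⟩ | ⟨m, c, v, hc, rfl⟩
        · exact Or.inl ⟨m + 1, rfl⟩
        · exact Or.inr ⟨m + 1, c, v, hc, rfl⟩
      · exact Or.inr ⟨0, a, w, ha, rfl⟩
  intro w
  rcases hform w with ⟨m, rfl⟩ | ⟨m, c, v, hc, rfl⟩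
  · have h1 := rep_pow_mem hb m
    have h2 : p * m = m + (p * m - m) := by
      have : m ≤ p * m := Nat.le_mul_of_pos_left m hp
      omega
    rw [h2, List.replicate_add] at h1
    exact ⟨_, h1⟩
  · obtain ⟨k, t, hkm, hkt⟩ := hall (c :: v) m
    obtain ⟨l, hl, hfl⟩ := hkt
    have h1 := strip hp hX hc l k (v ++ t) hl (by rw [hfl]; simp)
    have hmod : k % p = m % p := (ZMod.natCast_eq_natCast_iff' k m p).1 hkm
    rw [hmod] at h1
    have h2 := star_append (rep_pow_mem hb (m / p)) h1
    rw [← List.append_assoc, ← List.replicate_add, Nat.div_add_mod] at h2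
    exact ⟨t, by simpa using h2⟩

/-- The set of suffixes. -/
theorem rev_prefs_iff (w : List A) : w.reverse ∈ prefs (star (rev X)) ↔ ∃ u, u ++ w ∈ star X := by
  constructor
  · rintro ⟨v, hv⟩
    rw [star_rev] at hv
    refine ⟨v.reverse, ?_⟩
    have h1 : (w.reverse ++ v).reverse ∈ star X := hv
    simpa using h1
  · rintro ⟨u, hu⟩
    refine ⟨u.reverse, ?_⟩
    rw [star_rev]
    show (w.reverse ++ u.reverse).reverse ∈ star X
    simpa using hu

theorem complete_iff (hfin : X.Finite) (hcomplete : factors (star X) = Set.univ) {b : A} {p : ℕ}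
    (hp : p.Prime) (hb : List.replicate p b ∈ X)
    (hX : ∀ x ∈ X, x ≠ [] → x ≠ List.replicate p b →
      ∃ c, c ≠ b ∧ ∃ i, i < p ∧ ∃ s, x = List.replicate i b ++ c :: s)
    (hX' : ∀ x ∈ X, x ≠ [] → x ≠ List.replicate p b →
      ∃ c, c ≠ b ∧ ∃ j, j < p ∧ ∃ s, x = s ++ c :: List.replicate j b) :
    HasRichCode X ↔ (∀ w, ∃ t, w ++ t ∈ star X) ∨ (∀ w, ∃ s, s ++ w ∈ star X) := by
  have : Fact p.Prime := ⟨hp⟩
  have hrevfin : (rev X).Finite := hfin.preimage List.reverse_injective.injOn
  have hrevb : List.replicate p b ∈ rev X := by
    show (List.replicate p b).reverse ∈ X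
    simpa using hb
  have hrevX : ∀ x ∈ rev X, x ≠ [] → x ≠ List.replicate p b →
      ∃ c, c ≠ b ∧ ∃ i, i < p ∧ ∃ s, x = List.replicate i b ++ c :: s := by
    intro x hx hx0 hxp
    obtain ⟨c, hc, j, hj, s, h⟩ := hX' x.reverse hx (by simpa using hx0) (by
      intro h
      apply hxp
      have := congrArg List.reverse h
      simpa using this)
    refine ⟨c, hc, j, hj, s.reverse, ?_⟩
    have := congrArg List.reverse h
    simpa using this
  constructor
  · rintro ⟨Y, hYf, hYX, hcode, hrich⟩
    have hn : ∀ k, List.replicate k b ∈ star X → p ∣ k := by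
      rintro k ⟨l, hl, hfl⟩
      exact pow_dvd hX l k hl hfl
    have hpair : ∀ u v : List A,
        (∀ m : ℕ, ∃ (k : ℕ) (s : List A), (k : ZMod p) = (m : ZMod p) ∧
          s ++ u ++ List.replicate k b ∈ star X) ∨
        (∀ m : ℕ, ∃ (k : ℕ) (t : List A), (k : ZMod p) = (m : ZMod p) ∧
          List.replicate k b ++ v ++ t ∈ star X) := by
      intro u v
      obtain ⟨f, g, hf, hg, C, hC, hconv⟩ := cyc_main hYf hYX hcode hrich hn (u := u) (v := v)
        (fun s _ t _ k => by rw [hcomplete]; trivial)
      rcases prime_conv f g hC hconv with h | h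
      · left
        intro m
        exact hf _ (h _)
      · right
        intro m
        exact hg _ (h _)
    by_cases hv : ∀ (v : List A) (m : ℕ), ∃ (k : ℕ) (t : List A), (k : ZMod p) = (m : ZMod p) ∧
        List.replicate k b ++ v ++ t ∈ star X
    · left
      exact dense_of_residues hp.pos hb hX hv
    · right
      push Not at hv
      obtain ⟨v, m0, hv⟩ := hv
      have hu : ∀ (u : List A) (m : ℕ), ∃ (k : ℕ) (s : List A), (k : ZMod p) = (m : ZMod p) ∧
          s ++ u ++ List.replicate k b ∈ star X := by
        intro u
        rcases hpair u v with h | h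
        · exact h
        · obtain ⟨k, t, h1, h2⟩ := h m0
          exact absurd h2 (hv k t h1)
      have hd := dense_of_residues hp.pos hrevb hrevX (fun v m => by
        obtain ⟨k, s, h1, h2⟩ := hu v.reverse m
        refine ⟨k, s.reverse, h1, ?_⟩
        rw [star_rev]
        show (List.replicate k b ++ v ++ s.reverse).reverse ∈ star X
        simpa using h2)
      intro w
      exact (rev_prefs_iff w).1 (hd w.reverse)
  · rintro (h | h)
    · exact rich_of_right_dense hfin (fun w _ => h w)
    · apply rich_rev
      refine rich_of_right_dense hrevfin (fun w _ => ?_)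
      have := (rev_prefs_iff w.reverse).2 (h w.reverse)
      simpa using this

end RCP
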