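import Mathlib

/-!
Weighted generating series of a set of words.
-/

namespace RCP

variable {A : Type*}

/-- The weight of a word: the product of the weights of its letters. -/
noncomputable def wgt (w : A → ℂ) (z : List A) : ℂ := (z.map w).prod

open scoped Classical in
/-- The generating series of `L`: the coefficient of `t ^ n` is the sum of the weights of the
words of length `n` in `L`. -/
noncomputable def series [Fintype A] (w : A → ℂ) (L : Set (List A)) : PowerSeries ℂ :=
  PowerSeries.mk (fun n => ∑ z : Fin n → A, if List.ofFn z ∈ L then wgt w (List.ofFn z) else 0)

/-- The generating polynomial of a finite set of words. -/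
noncomputable def genpoly (w : A → ℂ) (Y : Finset (List A)) : Polynomial ℂ :=
  ∑ y ∈ Y, Polynomial.C (wgt w y) * Polynomial.X ^ y.length

end RCP
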