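import Pool.Agent.RCP.Rep
import Pool.Agent.RCP.GrowthDefs

namespace RCP

open Matrix
open scoped Classical

variable {A : Type*}

theorem wgt_cons (w : A → ℂ) (a : A) (z : List A) : wgt w (a :: z) = w a * wgt w z := by
  simp [wgt]

theorem wgt_nil (w : A → ℂ) : wgt w [] = 1 := by
  simp [wgt]

/-- Weighted series of a function on words. -/
noncomputable def hser [Fintype A] (w : A → ℂ) (h : List A → ℂ) : PowerSeries ℂ :=
  PowerSeries.mk (fun n => ∑ z : Fin n → A, wgt w (List.ofFn z) * h (List.ofFn z))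

theorem series_eq_hser [Fintype A] (w : A → ℂ) (L : Set (List A)) :
    series w L = hser w (fun z => if z ∈ L then 1 else 0) := by
  unfold series hser
  congr 1
  funext n
  refine Finset.sum_congr rfl (fun z _ => ?_)
  by_cases h : List.ofFn z ∈ L <;> simp [h]

theorem hser_rec [Fintype A] (w : A → ℂ) (h : List A → ℂ) :
    hser w h = PowerSeries.C (h []) +
      PowerSeries.X * ∑ a : A, PowerSeries.C (w a) * hser w (fun z => h (a :: z)) := by
  ext n
  rcases n with _ | n
  · simp [hser, wgt]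
  · rw [map_add, PowerSeries.coeff_succ_X_mul, PowerSeries.coeff_C, if_neg (by omega), zero_add,
      map_sum]
    simp only [PowerSeries.coeff_C_mul, hser, PowerSeries.coeff_mk]
    rw [← (Fin.consEquiv (fun _ => A)).sum_comp, Fintype.sum_prod_type]
    refine Finset.sum_congr rfl (fun a _ => ?_)
    rw [Finset.mul_sum]
    refine Finset.sum_congr rfl (fun z _ => ?_)
    have h1 : List.ofFn ((Fin.consEquiv (fun _ => A)) (a, z)) = a :: List.ofFn z := by
      simp [Fin.consEquiv, List.ofFn_succ]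
    rw [h1, wgt_cons]
    ring

theorem hser_add [Fintype A] (w : A → ℂ) (h k : List A → ℂ) :
    hser w (fun z => h z + k z) = hser w h + hser w k := by
  ext n
  simp [hser, mul_add, Finset.sum_add_distrib]

theorem hser_zero [Fintype A] (w : A → ℂ) : hser w (fun _ => 0) = 0 := by
  ext n
  simp [hser]

theorem hser_smul [Fintype A] (w : A → ℂ) (c : ℂ) (h : List A → ℂ) :
    hser w (fun z => c * h z) = PowerSeries.C c * hser w h := by
  ext n
  simp only [hser, PowerSeries.coeff_mk, PowerSeries.coeff_C_mul, Finset.mul_sum]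
  exact Finset.sum_congr rfl (fun z _ => by ring)

theorem hser_sum [Fintype A] {ι : Type*} (w : A → ℂ) (s : Finset ι) (h : ι → List A → ℂ) :
    hser w (fun z => ∑ i ∈ s, h i z) = ∑ i ∈ s, hser w (h i) := by
  induction s using Finset.induction_on with
  | empty => simp [hser_zero]
  | insert a s ha ih =>
    rw [Finset.sum_insert ha, ← ih, ← hser_add]
    congr 1
    funext z
    rw [Finset.sum_insert ha]

/-- Generating polynomial of the completions of `i` to a word of `Y`. -/
noncomputable def vv (w : A → ℂ) (Y : Finset (List A)) (i : List A) : Polynomial ℂ :=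
  ∑ y ∈ Y, if i <+: y ∧ i ≠ y then
    Polynomial.C (wgt w (y.drop i.length)) * Polynomial.X ^ (y.length - i.length) else 0

theorem vv_nil (w : A → ℂ) {Y : Finset (List A)} (h0 : [] ∉ Y) : vv w Y [] = genpoly w Y := by
  unfold vv genpoly
  refine Finset.sum_congr rfl (fun y hy => ?_)
  have : [] ≠ y := fun h => h0 (h ▸ hy)
  rw [if_pos ⟨List.nil_prefix, this⟩]
  simp

theorem vv_rec [Fintype A] (w : A → ℂ) (Y : Finset (List A)) (i : List A) :
    vv w Y i = ∑ a : A, Polynomial.C (w a) * Polynomial.X *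
      (vv w Y (i ++ [a]) + if i ++ [a] ∈ Y then 1 else 0) := by
  have h1 : ∀ a : A, Polynomial.C (w a) * Polynomial.X *
      (vv w Y (i ++ [a]) + if i ++ [a] ∈ Y then 1 else 0) =
      ∑ y ∈ Y, if i ++ [a] <+: y then
        Polynomial.C (wgt w (y.drop i.length)) * Polynomial.X ^ (y.length - i.length) else 0 := by
    intro a
    have h2 : (if i ++ [a] ∈ Y then (1 : Polynomial ℂ) else 0) =
        ∑ y ∈ Y, if i ++ [a] = y then 1 else 0 := by
      rw [Finset.sum_ite_eq]
    rw [h2]
    unfold vv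
    rw [← Finset.sum_add_distrib, Finset.mul_sum]
    refine Finset.sum_congr rfl (fun y _ => ?_)
    by_cases hp : i ++ [a] <+: y
    · obtain ⟨r, rfl⟩ := hp
      have hd : (i ++ [a] ++ r).drop i.length = a :: r := by simp
      have hd2 : (i ++ [a] ++ r).drop (i ++ [a]).length = r := by simp
      have hl : (i ++ [a] ++ r).length - i.length = r.length + 1 := by
        simp only [List.length_append, List.length_singleton]; omega
      have hl2 : (i ++ [a] ++ r).length - (i ++ [a]).length = r.length := by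
        simp only [List.length_append, List.length_singleton]; omega
      rw [if_pos (List.prefix_append _ _), hd, hd2, hl, hl2, wgt_cons]
      by_cases hr : r = []
      · subst hr
        simp [wgt]
      · have hne : i ++ [a] ≠ i ++ [a] ++ r := by
          intro h
          apply hr
          have := congrArg List.length h
          simp at this
          exact this
        rw [if_pos ⟨List.prefix_append _ _, hne⟩, if_neg hne, add_zero, map_mul]
        ring
    · have hne : i ++ [a] ≠ y := by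
        rintro rfl
        exact hp List.prefix_rfl
      rw [if_neg (fun h => hp h.1), if_neg hne, if_neg hp]
      ring
  rw [Finset.sum_congr rfl (fun a _ => h1 a), Finset.sum_comm]
  unfold vv
  refine Finset.sum_congr rfl (fun y _ => ?_)
  by_cases hp : i <+: y ∧ i ≠ y
  · obtain ⟨⟨r, rfl⟩, hne⟩ := hp
    rcases r with _ | ⟨a, r⟩
    · simp at hne
    · rw [if_pos ⟨List.prefix_append _ _, hne⟩, Finset.sum_eq_single a]
      · rw [if_pos]
        exact ⟨r, by simp⟩
      · intro b _ hb
        rw [if_neg]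
        rintro ⟨r', hr'⟩
        rw [List.append_assoc] at hr'
        have := List.append_cancel_left hr'
        simp only [List.cons_append, List.nil_append, List.cons.injEq] at this
        exact hb this.1
      · intro h; exact absurd (Finset.mem_univ _) h
  · rw [if_neg hp, Finset.sum_eq_zero]
    intro a _
    rw [if_neg]
    rintro ⟨r, rfl⟩
    apply hp
    refine ⟨⟨[a] ++ r, by simp⟩, ?_⟩
    intro h
    have := congrArg List.length h
    simp at this

variable {Y : Set (List A)} [Fintype (St Y)]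

theorem MW_cons_vec (x : A) (z : List A) (κ : St Y → ℂ) (p : St Y) :
    (MW Y (x :: z) *ᵥ κ) p =
      (if h : IsState Y (p.1 ++ [x]) then (MW Y z *ᵥ κ) ⟨p.1 ++ [x], h⟩ else 0) +
      (if p.1 ++ [x] ∈ Y then (MW Y z *ᵥ κ) (root Y) else 0) := by
  rw [MW_cons]
  simp only [Matrix.mulVec, dotProduct, step, add_mul, Finset.sum_add_distrib]
  congr 1
  · by_cases h : IsState Y (p.1 ++ [x])
    · simp [h]
    · simp [h]
  · by_cases h : p.1 ++ [x] ∈ Y
    · simp [h]
    · simp [h]

variable [Fintype A]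

theorem G_rec (w : A → ℂ) (κ : St Y → ℂ) (p : St Y) :
    hser w (fun z => (MW Y z *ᵥ κ) p) = PowerSeries.C (κ p) + PowerSeries.X *
      ∑ a : A, PowerSeries.C (w a) *
        ((if h : IsState Y (p.1 ++ [a]) then hser w (fun z => (MW Y z *ᵥ κ) ⟨p.1 ++ [a], h⟩)
          else 0) +
        (if p.1 ++ [a] ∈ Y then hser w (fun z => (MW Y z *ᵥ κ) (root Y)) else 0)) := by
  rw [hser_rec, MW_nil, Matrix.one_mulVec]
  congr 2
  refine Finset.sum_congr rfl (fun a _ => ?_)
  congr 1
  simp only [MW_cons_vec]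
  rw [hser_add]
  congr 1
  · by_cases h : IsState Y (p.1 ++ [a])
    · simp [h]
    · simp [h, hser_zero]
  · by_cases h : p.1 ++ [a] ∈ Y
    · simp [h]
    · simp [h, hser_zero]

omit [Fintype (St Y)] [Fintype A] in
theorem vv_zero (w : A → ℂ) (YF : Finset (List A)) (hYF : ∀ y, y ∈ YF ↔ y ∈ Y) {i : List A}
    (hi : ¬ IsState Y i) : vv w YF i = 0 := by
  unfold vv
  refine Finset.sum_eq_zero (fun y hy => ?_)
  rw [if_neg]
  rintro ⟨⟨s, rfl⟩, hne⟩
  apply hi
  right
  refine ⟨s, ?_, (hYF _).1 hy⟩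
  rintro rfl
  simp at hne

theorem G_poly (w : A → ℂ) (κ : St Y → ℂ) (YF : Finset (List A)) (hYF : ∀ y, y ∈ YF ↔ y ∈ Y)
    (M : ℕ) (hM : ∀ p : St Y, p.1.length ≤ M) (n : ℕ) : ∀ p : St Y, M - p.1.length ≤ n →
    ∃ u : Polynomial ℂ, hser w (fun z => (MW Y z *ᵥ κ) p) = (u : PowerSeries ℂ) +
      (vv w YF p.1 : PowerSeries ℂ) * hser w (fun z => (MW Y z *ᵥ κ) (root Y)) := by
  induction n with
  | zero =>
    intro p hp
    have hlen := hM p
    have hno : ∀ a : A, ¬ IsState Y (p.1 ++ [a]) := by
      intro a h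
      have := hM ⟨p.1 ++ [a], h⟩
      simp at this
      omega
    refine ⟨Polynomial.C (κ p), ?_⟩
    rw [G_rec]
    have h1 : ∀ a : A, PowerSeries.C (w a) *
        ((if h : IsState Y (p.1 ++ [a]) then hser w (fun z => (MW Y z *ᵥ κ) ⟨p.1 ++ [a], h⟩)
          else 0) +
        (if p.1 ++ [a] ∈ Y then hser w (fun z => (MW Y z *ᵥ κ) (root Y)) else 0)) =
        PowerSeries.C (w a) * ((if p.1 ++ [a] ∈ Y then (1 : PowerSeries ℂ) else 0)) *
          hser w (fun z => (MW Y z *ᵥ κ) (root Y)) := by
      intro a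
      rw [dif_neg (hno a)]
      split_ifs <;> ring
    rw [Finset.sum_congr rfl (fun a _ => h1 a), ← Finset.sum_mul, vv_rec]
    have h2 : ∀ a : A, Polynomial.C (w a) * Polynomial.X *
        (vv w YF (p.1 ++ [a]) + if p.1 ++ [a] ∈ YF then 1 else 0) =
        Polynomial.X * (Polynomial.C (w a) * (if p.1 ++ [a] ∈ YF then 1 else 0)) := by
      intro a
      rw [vv_zero w YF hYF (hno a)]
      ring
    rw [Finset.sum_congr rfl (fun a _ => h2 a), ← Finset.mul_sum]
    have h3 : ((∑ a : A, (Polynomial.C (w a) * (if p.1 ++ [a] ∈ YF then 1 else 0)) :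
        Polynomial ℂ) : PowerSeries ℂ) =
        ∑ a : A, PowerSeries.C (w a) * ((if p.1 ++ [a] ∈ Y then (1 : PowerSeries ℂ) else 0)) := by
      have h4 := map_sum (Polynomial.coeToPowerSeries.ringHom (R := ℂ))
        (fun a : A => (Polynomial.C (w a) * (if p.1 ++ [a] ∈ YF then 1 else 0))) Finset.univ
      refine h4.trans (Finset.sum_congr rfl (fun a _ => ?_))
      by_cases h : p.1 ++ [a] ∈ Y
      · have h' := (hYF _).2 h
        simp [h, h']
      · have h' : p.1 ++ [a] ∉ YF := fun h' => h ((hYF _).1 h')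
        simp [h, h']
    rw [Polynomial.coe_mul, h3, Polynomial.coe_X, Polynomial.coe_C]
    ring
  | succ n ih =>
    intro p hp
    have hex : ∀ a : A, ∃ u : Polynomial ℂ,
        (if h : IsState Y (p.1 ++ [a]) then hser w (fun z => (MW Y z *ᵥ κ) ⟨p.1 ++ [a], h⟩)
          else 0) = (u : PowerSeries ℂ) +
          (vv w YF (p.1 ++ [a]) : PowerSeries ℂ) *
            hser w (fun z => (MW Y z *ᵥ κ) (root Y)) := by
      intro a
      by_cases h : IsState Y (p.1 ++ [a])
      · have hlen := hM ⟨p.1 ++ [a], h⟩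
        have h5 : M - (p.1 ++ [a]).length ≤ n := by
          simp only [List.length_append, List.length_singleton] at hlen ⊢
          omega
        obtain ⟨u, hu⟩ := ih ⟨p.1 ++ [a], h⟩ h5
        exact ⟨u, by rw [dif_pos h, hu]⟩
      · refine ⟨0, ?_⟩
        rw [dif_neg h, vv_zero w YF hYF h]
        simp
    choose u hu using hex
    refine ⟨Polynomial.C (κ p) + Polynomial.X * ∑ a : A, Polynomial.C (w a) * u a, ?_⟩
    rw [G_rec]
    have h1 : ∀ a : A, PowerSeries.C (w a) *
        ((if h : IsState Y (p.1 ++ [a]) then hser w (fun z => (MW Y z *ᵥ κ) ⟨p.1 ++ [a], h⟩)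
          else 0) +
        (if p.1 ++ [a] ∈ Y then hser w (fun z => (MW Y z *ᵥ κ) (root Y)) else 0)) =
        ((Polynomial.C (w a) * u a : Polynomial ℂ) : PowerSeries ℂ) +
        ((Polynomial.C (w a) * (vv w YF (p.1 ++ [a]) +
          if p.1 ++ [a] ∈ YF then 1 else 0) : Polynomial ℂ) : PowerSeries ℂ) *
          hser w (fun z => (MW Y z *ᵥ κ) (root Y)) := by
      intro a
      rw [hu a]
      by_cases h : p.1 ++ [a] ∈ Y
      · have h' := (hYF _).2 h
        rw [if_pos h, if_pos h']
        simp only [Polynomial.coe_mul, Polynomial.coe_add, Polynomial.coe_C, Polynomial.coe_one]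
        ring
      · have h' : p.1 ++ [a] ∉ YF := fun h' => h ((hYF _).1 h')
        rw [if_neg h, if_neg h']
        simp only [Polynomial.coe_mul, Polynomial.coe_add, Polynomial.coe_C, Polynomial.coe_zero]
        ring
    rw [Finset.sum_congr rfl (fun a _ => h1 a), Finset.sum_add_distrib, ← Finset.sum_mul]
    have hcs : ∀ f : A → Polynomial ℂ, ∑ a : A, (f a : PowerSeries ℂ) =
        ((∑ a : A, f a : Polynomial ℂ) : PowerSeries ℂ) := by
      intro f
      exact (map_sum (Polynomial.coeToPowerSeries.ringHom (R := ℂ)) f Finset.univ).symm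
    rw [hcs, hcs]
    conv_rhs => rw [vv_rec]
    have h2 : ∀ a : A, Polynomial.C (w a) * Polynomial.X *
        (vv w YF (p.1 ++ [a]) + if p.1 ++ [a] ∈ YF then 1 else 0) =
        Polynomial.X * (Polynomial.C (w a) * (vv w YF (p.1 ++ [a]) +
          if p.1 ++ [a] ∈ YF then 1 else 0)) := by
      intro a; ring
    rw [Finset.sum_congr rfl (fun a _ => h2 a), ← Finset.mul_sum]
    simp only [Polynomial.coe_mul, Polynomial.coe_add, Polynomial.coe_C, Polynomial.coe_X]
    ring

/-- Every entry series becomes a polynomial after multiplication by `1 - f`. -/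
theorem G_clear (w : A → ℂ) (κ : St Y → ℂ) (YF : Finset (List A)) (hYF : ∀ y, y ∈ YF ↔ y ∈ Y)
    (h0 : [] ∉ YF) (p : St Y) :
    ∃ N : Polynomial ℂ, ((1 - genpoly w YF : Polynomial ℂ) : PowerSeries ℂ) *
      hser w (fun z => (MW Y z *ᵥ κ) p) = (N : PowerSeries ℂ) := by
  obtain ⟨M, hM⟩ : ∃ M, ∀ p : St Y, p.1.length ≤ M :=
    ⟨∑ p : St Y, p.1.length, fun p => Finset.single_le_sum (f := fun p : St Y => p.1.length)
      (fun _ _ => Nat.zero_le _) (Finset.mem_univ p)⟩
  obtain ⟨u0, hu0⟩ := G_poly w κ YF hYF M hM _ (root Y) le_rfl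
  obtain ⟨u, hu⟩ := G_poly w κ YF hYF M hM _ p le_rfl
  have hroot : (root Y).1 = [] := rfl
  rw [hroot, vv_nil w h0] at hu0
  set G0 := hser w (fun z => (MW Y z *ᵥ κ) (root Y)) with hG0
  have h1 : ((1 - genpoly w YF : Polynomial ℂ) : PowerSeries ℂ) * G0 = (u0 : PowerSeries ℂ) := by
    rw [Polynomial.coe_sub, Polynomial.coe_one]
    linear_combination hu0
  refine ⟨(1 - genpoly w YF) * u + vv w YF p.1 * u0, ?_⟩
  rw [hu, Polynomial.coe_add, Polynomial.coe_mul, Polynomial.coe_mul]
  linear_combination (vv w YF p.1 : PowerSeries ℂ) * h1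

omit [Fintype (St Y)] in
/-- The generating series of the middle words is `N / (1 - f)` with `f` the generating polynomial
of the code. -/
theorem growth {X : Set (List A)} (YF : Finset (List A)) (hYX : ∀ y ∈ YF, y ∈ star X)
    (hcode : IsCode (YF : Set (List A)))
    (hrich : factors (star (YF : Set (List A))) = factors (star X)) {p q : List A}
    (hpq : ∀ u ∈ star X, ∀ v ∈ star X, ∀ z, p ++ z ++ q ∈ factors (star X) →
      u ++ (p ++ z ++ q) ++ v ∈ factors (star X)) (w : A → ℂ) :
    ∃ N : Polynomial ℂ, ((1 - genpoly w YF : Polynomial ℂ) : PowerSeries ℂ) *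
      series w {z | p ++ z ++ q ∈ factors (star X)} = (N : PowerSeries ℂ) := by
  have hfs := finite_states (YF.finite_toSet)
  have hft : Fintype (St (YF : Set (List A))) := Fintype.ofFinite _
  obtain ⟨w1, hw1, l, κ, hrep⟩ := rep hcode (nil_mem_star _)
  simp only [List.append_nil] at hrep
  have hwX : w1 ∈ star X := star_subset_star hYX hw1
  have h0 : [] ∉ YF := fun h => nil_notMem hcode h
  have hf : (fun z => if z ∈ {z | p ++ z ++ q ∈ factors (star X)} then (1 : ℂ) else 0) =
      (fun z => ∑ i, (l ᵥ* MW (YF : Set (List A)) p) i *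
        (MW (YF : Set (List A)) z *ᵥ (MW (YF : Set (List A)) q *ᵥ κ)) i) := by
    funext z
    have h1 : ∑ i, (l ᵥ* MW (YF : Set (List A)) p) i *
        (MW (YF : Set (List A)) z *ᵥ (MW (YF : Set (List A)) q *ᵥ κ)) i =
        l ⬝ᵥ (MW (YF : Set (List A)) (p ++ z ++ q) *ᵥ κ) := by
      have h2 : ∑ i, (l ᵥ* MW (YF : Set (List A)) p) i *
        (MW (YF : Set (List A)) z *ᵥ (MW (YF : Set (List A)) q *ᵥ κ)) i =
          (l ᵥ* MW (YF : Set (List A)) p) ⬝ᵥ
            (MW (YF : Set (List A)) z *ᵥ (MW (YF : Set (List A)) q *ᵥ κ)) := rfl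
      rw [h2, ← Matrix.dotProduct_mulVec, Matrix.mulVec_mulVec, Matrix.mulVec_mulVec,
        ← MW_append, ← MW_append]
    rw [h1, ← hrep]
    congr 1
    rw [eq_iff_iff, hrich, Set.mem_ofPred_eq]
    constructor
    · intro hz
      exact hpq w1 hwX w1 hwX z hz
    · rintro ⟨a, b, hab⟩
      refine ⟨a ++ w1, w1 ++ b, ?_⟩
      simpa using hab
  rw [series_eq_hser, hf, hser_sum]
  have h3 : ∀ i, ∃ N : Polynomial ℂ, ((1 - genpoly w YF : Polynomial ℂ) : PowerSeries ℂ) *
      hser w (fun z => (l ᵥ* MW (YF : Set (List A)) p) i *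
        (MW (YF : Set (List A)) z *ᵥ (MW (YF : Set (List A)) q *ᵥ κ)) i) =
        (N : PowerSeries ℂ) := by
    intro i
    obtain ⟨N, hN⟩ := G_clear (Y := (YF : Set (List A))) w (MW (YF : Set (List A)) q *ᵥ κ) YF
      (fun y => by simp) h0 i
    refine ⟨Polynomial.C ((l ᵥ* MW (YF : Set (List A)) p) i) * N, ?_⟩
    rw [hser_smul, Polynomial.coe_mul, Polynomial.coe_C]
    linear_combination PowerSeries.C ((l ᵥ* MW (YF : Set (List A)) p) i) * hN
  choose N hN using h3
  refine ⟨∑ i, N i, ?_⟩
  rw [Finset.mul_sum, Finset.sum_congr rfl (fun i _ => hN i)]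
  exact (map_sum (Polynomial.coeToPowerSeries.ringHom (R := ℂ)) N Finset.univ).symm

end RCP
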