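import Pool.Agent.RCP.RepNat
import Pool.Agent.RCP.Growth

namespace RCP

open Matrix
open scoped Classical

/-- Windows of a periodic sequence. -/
theorem win_step {φ : ℕ → ℂ} {N K : ℕ} (hφ : ∀ k, K ≤ k → φ (k + N) = φ k) (d : ℕ) :
    ∑ k ∈ Finset.range N, φ (K + d + k) = ∑ k ∈ Finset.range N, φ (K + k) := by
  induction d with
  | zero => rfl
  | succ d ih =>
    rw [← ih]
    have h1 : ∑ k ∈ Finset.range N, φ (K + (d + 1) + k) + φ (K + d) =
        ∑ k ∈ Finset.range (N + 1), φ (K + d + k) := by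
      rw [Finset.sum_range_succ']
      congr 1
      refine Finset.sum_congr rfl (fun k _ => ?_)
      congr 1
      ring
    rw [Finset.sum_range_succ, hφ (K + d) (by omega)] at h1
    exact add_right_cancel h1

theorem win {φ : ℕ → ℂ} {N K : ℕ} (hφ : ∀ k, K ≤ k → φ (k + N) = φ k) {W W' : ℕ}
    (hW : K ≤ W) (hW' : K ≤ W') :
    ∑ k ∈ Finset.range N, φ (W + k) = ∑ k ∈ Finset.range N, φ (W' + k) := by
  obtain ⟨d, rfl⟩ := Nat.exists_eq_add_of_le hW
  obtain ⟨d', rfl⟩ := Nat.exists_eq_add_of_le hW'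
  rw [win_step hφ, win_step hφ]

/-- Restriction of a sequence to a residue class. -/
noncomputable def cls {n : ℕ} (h : ℕ → ℂ) (m : ZMod n) (k : ℕ) : ℂ :=
  if (k : ZMod n) = m then h k else 0

theorem cls_period {n N K : ℕ} (hn : n ∣ N) {h : ℕ → ℂ} (hh : ∀ k, K ≤ k → h (k + N) = h k)
    (m : ZMod n) : ∀ k, K ≤ k → cls h m (k + N) = cls h m k := by
  intro k hk
  unfold cls
  have h1 : ((k + N : ℕ) : ZMod n) = (k : ZMod n) := by
    rw [Nat.cast_add, (ZMod.natCast_eq_zero_iff N n).2 hn, add_zero]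
  rw [h1, hh k hk]

/-- The numbers of members of residue classes in a window agree. -/
theorem count_const {n N : ℕ} (hn : n ∣ N) (W : ℕ) (m : ZMod n) :
    ∑ k ∈ Finset.range N, cls (fun _ => 1) (m + 1) (W + k) =
      ∑ k ∈ Finset.range N, cls (fun _ => 1) m (W + k) := by
  have h1 : ∑ k ∈ Finset.range N, cls (fun _ => 1) (m + 1) (W + k) =
      ∑ k ∈ Finset.range N, cls (fun _ => 1) (m + 1) (W + 1 + k) :=
    win (K := 0) (cls_period hn (fun _ _ => rfl) _) (Nat.zero_le _) (Nat.zero_le _)
  rw [h1]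
  refine Finset.sum_congr rfl (fun k _ => ?_)
  unfold cls
  have h2 : ((W + 1 + k : ℕ) : ZMod n) = m + 1 ↔ ((W + k : ℕ) : ZMod n) = m := by
    have h3 : ((W + 1 + k : ℕ) : ZMod n) = ((W + k : ℕ) : ZMod n) + 1 := by
      push_cast; ring
    rw [h3]
    exact add_left_inj 1
  by_cases h : ((W + k : ℕ) : ZMod n) = m
  · rw [if_pos (h2.2 h), if_pos h]
  · rw [if_neg (fun h' => h (h2.1 h')), if_neg h]

theorem count_all {n N : ℕ} (hn : n ∣ N) (W : ℕ) (m : ZMod n) :
    ∑ k ∈ Finset.range N, cls (fun _ => 1) m (W + k) =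
      ∑ k ∈ Finset.range N, cls (fun _ => 1) (0 : ZMod n) (W + k) := by
  have hind : ∀ d : ℕ, ∑ k ∈ Finset.range N, cls (fun _ => 1) (d : ZMod n) (W + k) =
      ∑ k ∈ Finset.range N, cls (fun _ => 1) (0 : ZMod n) (W + k) := by
    intro d
    induction d with
    | zero => simp
    | succ d ih =>
      rw [← ih, ← count_const hn W (d : ZMod n)]
      push_cast
      rfl
  rcases Nat.eq_zero_or_pos n with h0 | hpos
  · subst h0
    have : N = 0 := Nat.eq_zero_of_zero_dvd hn
    subst this
    simp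
  · haveI : NeZero n := ⟨hpos.ne'⟩
    have := hind m.val
    rwa [ZMod.natCast_zmod_val] at this

theorem count_ne {n N : ℕ} (hn : n ∣ N) (hN : 0 < N) (W : ℕ) :
    ∑ k ∈ Finset.range N, cls (fun _ => 1) (0 : ZMod n) (W + k) ≠ 0 := by
  rw [← count_all hn W ((W : ℕ) : ZMod n)]
  have h1 : ∑ k ∈ Finset.range N, cls (fun _ => 1) ((W : ℕ) : ZMod n) (W + k) =
      (((Finset.range N).filter (fun k => ((W + k : ℕ) : ZMod n) = ((W : ℕ) : ZMod n))).card
        : ℂ) := by
    rw [Finset.card_eq_sum_ones, Nat.cast_sum, Finset.sum_filter]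
    refine Finset.sum_congr rfl (fun k _ => ?_)
    unfold cls
    split_ifs <;> simp
  rw [h1]
  have : 0 ∈ (Finset.range N).filter (fun k => ((W + k : ℕ) : ZMod n) = ((W : ℕ) : ZMod n)) :=
    Finset.mem_filter.2 ⟨Finset.mem_range.2 hN, by simp⟩
  exact_mod_cast (Finset.card_pos.2 ⟨_, this⟩).ne'

variable {A : Type*} {Y : Set (List A)} [Fintype (St Y)]

/-- First return formula along powers of a letter. -/
theorem first_return (b : A) (μ : St Y → ℂ) (k : ℕ) : ∀ s : St Y,
    (MW Y (List.replicate k b) *ᵥ μ) s =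
      (if h : IsState Y (s.1 ++ List.replicate k b) then μ ⟨_, h⟩ else 0) +
      ∑ k1 ∈ Finset.range k, (if s.1 ++ List.replicate (k1 + 1) b ∈ Y then
        (MW Y (List.replicate (k - (k1 + 1)) b) *ᵥ μ) (root Y) else 0) := by
  induction k with
  | zero =>
    intro s
    simp [MW_nil, s.2]
  | succ k ih =>
    intro s
    rw [List.replicate_succ, MW_cons_vec, Finset.sum_range_succ']
    have e1 : ∀ j : ℕ, s.1 ++ [b] ++ List.replicate j b = s.1 ++ List.replicate (j + 1) b := by
      intro j
      rw [List.replicate_succ]; simp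
    have e2 : (if s.1 ++ List.replicate (0 + 1) b ∈ Y then
        (MW Y (List.replicate (k + 1 - (0 + 1)) b) *ᵥ μ) (root Y) else 0) =
        (if s.1 ++ [b] ∈ Y then (MW Y (List.replicate k b) *ᵥ μ) (root Y) else 0) := by
      simp
    rw [e2, ← add_assoc]
    congr 1
    by_cases h : IsState Y (s.1 ++ [b])
    · rw [dif_pos h, ih ⟨s.1 ++ [b], h⟩]
      congr 1
      · have h2 : (⟨s.1 ++ [b], h⟩ : St Y).1 ++ List.replicate k b =
            s.1 ++ b :: List.replicate k b := by simp
        by_cases h3 : IsState Y (s.1 ++ b :: List.replicate k b)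
        · rw [dif_pos h3, dif_pos (h2 ▸ h3)]
          congr 1
          exact Subtype.ext h2
        · rw [dif_neg h3, dif_neg (fun h4 => h3 (h2 ▸ h4))]
      · refine Finset.sum_congr rfl (fun j _ => ?_)
        rw [e1]
        have e3 : k + 1 - (j + 1 + 1) = k - (j + 1) := by omega
        rw [e3]
    · have hno : ∀ j : ℕ, s.1 ++ List.replicate (j + 1 + 1) b ∉ Y := by
        intro j hj
        apply h
        right
        refine ⟨List.replicate (j + 1) b, by simp, ?_⟩
        rw [e1]
        exact hj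
      have hno2 : ¬ IsState Y (s.1 ++ b :: List.replicate k b) := by
        rintro (h3 | ⟨t, ht, h3⟩)
        · simp at h3
        · apply h
          right
          exact ⟨List.replicate k b ++ t, by simp [ht], by simpa using h3⟩
      rw [dif_neg h, dif_neg hno2, Finset.sum_eq_zero]
      · simp
      · intro j _
        rw [if_neg (hno j)]

/-- A bound for the lengths of the words of `Y` and of the states. -/
theorem return_large (b : A) (μ : St Y → ℂ) {K : ℕ} (hK : ∀ y ∈ Y, y.length ≤ K) {k : ℕ}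
    (hk : K ≤ k) (hk0 : 0 < k) (s : St Y) :
    (MW Y (List.replicate k b) *ᵥ μ) s =
      ∑ k1 ∈ Finset.range K, (if s.1 ++ List.replicate (k1 + 1) b ∈ Y then
        (MW Y (List.replicate (k - (k1 + 1)) b) *ᵥ μ) (root Y) else 0) := by
  rw [first_return]
  have hno : ¬ IsState Y (s.1 ++ List.replicate k b) := by
    rintro (h | ⟨t, ht, h⟩)
    · have := congrArg List.length h
      simp at this
      omega
    · have := hK _ h
      have ht' : 0 < t.length := List.length_pos_iff.2 ht
      simp at this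
      omega
  rw [dif_neg hno, zero_add]
  symm
  refine Finset.sum_subset (Finset.range_subset_range.2 hk) ?_
  intro j _ hj
  rw [if_neg]
  intro h
  have := hK _ h
  rw [Finset.mem_range] at hj
  simp at this
  omega

end RCP
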