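import Pool.Agent.RCP.Cyc

namespace RCP

open Matrix
open scoped Classical

variable {A : Type*}

theorem vec_supp {Y : Set (List A)} [Fintype (St Y)] (hcode : IsCode Y) {z : List A}
    {κ : St Y → ℂ} {p : St Y} (h : (MW Y z *ᵥ κ) p ≠ 0) :
    ∃ q : St Y, MW Y z p q ≠ 0 := by
  by_contra hcon
  push Not at hcon
  apply h
  rw [Matrix.mulVec, dotProduct]
  exact Finset.sum_eq_zero (fun q _ => by rw [hcon q, zero_mul])

theorem cyc_main {X Y : Set (List A)} (hYf : Y.Finite) (hYX : Y ⊆ star X) (hcode : IsCode Y)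
    (hrich : factors (star Y) = factors (star X)) {b : A} {n : ℕ} [NeZero n]
    (hn : ∀ k, List.replicate k b ∈ star X → n ∣ k) {u v : List A}
    (hF : ∀ s ∈ star X, ∀ t ∈ star X, ∀ k, s ++ (u ++ List.replicate k b ++ v) ++ t ∈
      factors (star X)) :
    ∃ f g : ZMod n → ℕ,
      (∀ j, f j ≠ 0 → ∃ (k : ℕ) (s : List A), (k : ZMod n) = j ∧
        s ++ u ++ List.replicate k b ∈ star X) ∧
      (∀ i, g i ≠ 0 → ∃ (k : ℕ) (t : List A), (k : ZMod n) = i ∧
        List.replicate k b ++ v ++ t ∈ star X) ∧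
      ∃ C, C ≠ 0 ∧ ∀ m, ∑ j, f j * g (m - j) = C := by
  have hfs := finite_states hYf
  have hft : Fintype (St Y) := Fintype.ofFinite _
  obtain ⟨w, hw, c, hc, l, κ, hl, hκ, hrep⟩ := rep_nat hcode
  have hwX : w ∈ star X := star_subset_star hYX hw
  have hnil := nil_notMem hcode
  set lam : St Y → ℂ := l ᵥ* MW Y u with hlam
  set μ : St Y → ℂ := MW Y v *ᵥ κ with hμ
  have hlamN : ∀ i, lam i ∈ NN := vecMul_NN hcode u hl
  have hμN : ∀ i, μ i ∈ NN := mulVec_NN hcode v hκ
  have hT : ∀ k, lam ⬝ᵥ (MW Y (List.replicate k b) *ᵥ μ) = (c : ℂ) := by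
    intro k
    have h1 : lam ⬝ᵥ (MW Y (List.replicate k b) *ᵥ μ) =
        l ⬝ᵥ (MW Y (u ++ List.replicate k b ++ v) *ᵥ κ) := by
      rw [hlam, hμ, ← Matrix.dotProduct_mulVec, Matrix.mulVec_mulVec, Matrix.mulVec_mulVec,
        ← MW_append, ← MW_append, List.append_assoc]
    rw [h1, ← hrep, if_pos]
    rw [hrich]
    exact hF w hwX w hwX k
  set R : ℕ → ℂ := fun k => (MW Y (List.replicate k b) *ᵥ μ) (root Y) with hR
  have hRN : ∀ k, R k ∈ NN := fun k => mulVec_NN hcode _ hμN _
  obtain ⟨K, hK, hK0⟩ : ∃ K, (∀ y ∈ Y, y.length ≤ K) ∧ 0 < K := by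
    obtain ⟨M, hM⟩ := (hYf.image List.length).bddAbove
    exact ⟨M + 1, fun y hy => (hM ⟨y, hy, rfl⟩).trans (Nat.le_succ M), Nat.succ_pos M⟩
  set L : ℕ → ℂ := fun k1 => ∑ s : St Y, lam s *
    (if s.1 ++ List.replicate (k1 + 1) b ∈ Y then 1 else 0) with hL
  have hLN : ∀ k, L k ∈ NN := by
    intro k
    refine NN.sum_mem (fun s _ => NN.mul_mem (hlamN s) ?_)
    split_ifs
    · exact NN.one_mem
    · exact NN.zero_mem
  have hA : ∀ k, K ≤ k → ∑ k1 ∈ Finset.range K, L k1 * R (k - (k1 + 1)) = (c : ℂ) := by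
    intro k hk
    rw [← hT k, dotProduct]
    have h1 : ∀ s : St Y, lam s * (MW Y (List.replicate k b) *ᵥ μ) s =
        ∑ k1 ∈ Finset.range K, lam s *
          (if s.1 ++ List.replicate (k1 + 1) b ∈ Y then 1 else 0) * R (k - (k1 + 1)) := by
      intro s
      rw [return_large b μ hK hk (by omega) s, Finset.mul_sum]
      refine Finset.sum_congr rfl (fun k1 _ => ?_)
      by_cases h : s.1 ++ List.replicate (k1 + 1) b ∈ Y
      · rw [if_pos h, if_pos h, mul_one]
      · rw [if_neg h, if_neg h, mul_zero, zero_mul]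
    rw [Finset.sum_congr rfl (fun s _ => h1 s), Finset.sum_comm]
    refine Finset.sum_congr rfl (fun k1 _ => ?_)
    rw [hL, Finset.sum_mul]
  have hroot : ∀ k, K ≤ k → R k = ∑ k1 ∈ Finset.range K,
      (if List.replicate (k1 + 1) b ∈ Y then R (k - (k1 + 1)) else 0) := by
    intro k hk
    have h1 := return_large b μ hK hk (by omega) (root Y)
    have h2 : (root Y).1 = [] := rfl
    simp only [h2, List.nil_append] at h1
    exact h1
  obtain ⟨N, hN0, hNY⟩ : ∃ N, 0 < N ∧ List.replicate N b ∈ Y := by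
    by_contra hcon
    push Not at hcon
    have hR0 : ∀ k, K ≤ k → R k = 0 := by
      intro k hk
      rw [hroot k hk]
      exact Finset.sum_eq_zero (fun k1 _ => by rw [if_neg (hcon _ (Nat.succ_pos k1))])
    have h1 := hA (2 * K) (by omega)
    have h2 : ∑ k1 ∈ Finset.range K, L k1 * R (2 * K - (k1 + 1)) = 0 := by
      refine Finset.sum_eq_zero (fun k1 hk1 => ?_)
      rw [Finset.mem_range] at hk1
      rw [hR0 _ (by omega), mul_zero]
    rw [h2] at h1
    exact hc (by exact_mod_cast h1.symm)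
  have hNn : n ∣ N := hn N (hYX hNY)
  have hNK : N ≤ K := by
    have := hK _ hNY
    simpa using this
  have huniq : ∀ i, List.replicate i b ∈ Y → i = N := by
    intro i hi
    have h1 := hcode [List.replicate i b, List.replicate N b]
      [List.replicate N b, List.replicate i b]
      (by intro x hx; simp only [List.mem_cons, List.not_mem_nil, or_false] at hx
          rcases hx with rfl | rfl <;> assumption)
      (by intro x hx; simp only [List.mem_cons, List.not_mem_nil, or_false] at hx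
          rcases hx with rfl | rfl <;> assumption)
      (by simp [← List.replicate_add, Nat.add_comm])
    have h2 := congrArg (fun l : List (List A) => l.head?.map List.length) h1
    simpa using h2
  have hRper : ∀ k, K ≤ k → R (k + N) = R k := by
    intro k hk
    rw [hroot (k + N) (by omega), Finset.sum_eq_single (N - 1)]
    · have e1 : N - 1 + 1 = N := by omega
      rw [e1, if_pos hNY]
      congr 1
      omega
    · intro i _ hi
      rw [if_neg]
      intro h
      have := huniq _ h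
      omega
    · intro h
      exfalso
      apply h
      rw [Finset.mem_range]
      omega
  set fC : ZMod n → ℂ := fun j => ∑ k1 ∈ Finset.range K,
    (if ((k1 + 1 : ℕ) : ZMod n) = j then L k1 else 0) with hfC
  set gC : ZMod n → ℂ := fun i => ∑ k ∈ Finset.range N, cls R i (K + k) with hgC
  have hfN : ∀ j, fC j ∈ NN := by
    intro j
    refine NN.sum_mem (fun k _ => ?_)
    split_ifs
    · exact hLN k
    · exact NN.zero_mem
  have hgN : ∀ j, gC j ∈ NN := by
    intro j
    refine NN.sum_mem (fun k _ => ?_)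
    unfold cls
    split_ifs
    · exact hRN _
    · exact NN.zero_mem
  have hconv : ∀ m, ∑ j, fC j * gC (m - j) =
      (c : ℂ) * ∑ k ∈ Finset.range N, cls (fun _ => 1) (0 : ZMod n) (2 * K + k) := by
    intro m
    have h1 : ∑ j, fC j * gC (m - j) =
        ∑ k1 ∈ Finset.range K, L k1 * gC (m - ((k1 + 1 : ℕ) : ZMod n)) := by
      simp only [hfC, Finset.sum_mul]
      rw [Finset.sum_comm]
      refine Finset.sum_congr rfl (fun k1 _ => ?_)
      rw [Finset.sum_eq_single ((k1 + 1 : ℕ) : ZMod n)]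
      · rw [if_pos rfl]
      · intro j _ hj
        rw [if_neg (fun h => hj h.symm), zero_mul]
      · intro h; exact absurd (Finset.mem_univ _) h
    rw [h1, ← count_all hNn (2 * K) m, Finset.mul_sum]
    have h2 : ∀ k1 ∈ Finset.range K, L k1 * gC (m - ((k1 + 1 : ℕ) : ZMod n)) =
        ∑ k ∈ Finset.range N, (if ((2 * K + k : ℕ) : ZMod n) = m then
          L k1 * R (2 * K + k - (k1 + 1)) else 0) := by
      intro k1 hk1
      rw [Finset.mem_range] at hk1
      have h3 : gC (m - ((k1 + 1 : ℕ) : ZMod n)) = ∑ k ∈ Finset.range N,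
          cls R (m - ((k1 + 1 : ℕ) : ZMod n)) (2 * K - (k1 + 1) + k) :=
        win (K := K) (cls_period hNn hRper _) le_rfl (by omega)
      rw [h3, Finset.mul_sum]
      refine Finset.sum_congr rfl (fun k _ => ?_)
      unfold cls
      have e1 : 2 * K - (k1 + 1) + k = 2 * K + k - (k1 + 1) := by omega
      have e2 : ((2 * K - (k1 + 1) + k : ℕ) : ZMod n) = m - ((k1 + 1 : ℕ) : ZMod n) ↔
          ((2 * K + k : ℕ) : ZMod n) = m := by
        have e3 : ((2 * K + k : ℕ) : ZMod n) =
            ((2 * K - (k1 + 1) + k : ℕ) : ZMod n) + ((k1 + 1 : ℕ) : ZMod n) := by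
          rw [← Nat.cast_add]
          congr 1
          omega
        rw [e3, eq_sub_iff_add_eq]
      by_cases h : ((2 * K + k : ℕ) : ZMod n) = m
      · rw [if_pos (e2.2 h), if_pos h, e1]
      · rw [if_neg (fun h' => h (e2.1 h')), if_neg h, mul_zero]
    rw [Finset.sum_congr rfl h2, Finset.sum_comm]
    refine Finset.sum_congr rfl (fun k _ => ?_)
    unfold cls
    by_cases h : ((2 * K + k : ℕ) : ZMod n) = m
    · simp only [if_pos h, mul_one]
      exact hA (2 * K + k) (by omega)
    · simp only [if_neg h, mul_zero, Finset.sum_const_zero]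
  have hf' : ∀ j, ∃ a : ℕ, (a : ℂ) = fC j := fun j => mem_NN.1 (hfN j)
  have hg' : ∀ j, ∃ a : ℕ, (a : ℂ) = gC j := fun j => mem_NN.1 (hgN j)
  choose f hf using hf'
  choose g hg using hg'
  refine ⟨f, g, ?_, ?_, ∑ j, f j * g (0 - j), ?_, ?_⟩
  · intro j hj
    have h1 : fC j ≠ 0 := by
      rw [← hf]
      exact_mod_cast hj
    obtain ⟨k1, _, hk1⟩ := Finset.exists_ne_zero_of_sum_ne_zero h1
    have hk1j : ((k1 + 1 : ℕ) : ZMod n) = j := by
      by_contra h
      rw [if_neg h] at hk1
      exact hk1 rfl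
    rw [if_pos hk1j] at hk1
    obtain ⟨s, _, hs⟩ := Finset.exists_ne_zero_of_sum_ne_zero hk1
    have hsY : s.1 ++ List.replicate (k1 + 1) b ∈ Y := by
      by_contra h
      rw [if_neg h, mul_zero] at hs
      exact hs rfl
    have hlams : lam s ≠ 0 := left_ne_zero_of_mul hs
    rw [hlam, Matrix.vecMul, dotProduct] at hlams
    obtain ⟨s0, _, hs0⟩ := Finset.exists_ne_zero_of_sum_ne_zero hlams
    obtain ⟨ll, hll, hfl, _⟩ := (entries hcode u s0 s).2 (right_ne_zero_of_mul hs0)
    refine ⟨k1 + 1, s0.1, hk1j, ?_⟩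
    rw [hfl, List.append_assoc]
    exact star_append (star_subset_star hYX ⟨ll, hll, rfl⟩)
      (star_subset_star hYX (mem_star_of_mem hsY))
  · intro i hi
    have h1 : gC i ≠ 0 := by
      rw [← hg]
      exact_mod_cast hi
    obtain ⟨k, _, hk⟩ := Finset.exists_ne_zero_of_sum_ne_zero h1
    unfold cls at hk
    have hki : ((K + k : ℕ) : ZMod n) = i := by
      by_contra h
      rw [if_neg h] at hk
      exact hk rfl
    rw [if_pos hki] at hk
    have hk2 : (MW Y (List.replicate (K + k) b ++ v) *ᵥ κ) (root Y) ≠ 0 := by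
      rw [MW_append, ← Matrix.mulVec_mulVec]
      exact hk
    obtain ⟨q, hq⟩ := vec_supp hcode hk2
    obtain ⟨ll, hll, hfl, _⟩ := (entries hcode _ _ _).2 hq
    have hroot0 : (root Y).1 = [] := rfl
    rw [hroot0, List.nil_append] at hfl
    obtain ⟨t, ht⟩ : ∃ t, q.1 ++ t ∈ star Y := by
      rcases q.2 with h | ⟨t, _, h⟩
      · exact ⟨[], by rw [h]; exact nil_mem_star Y⟩
      · exact ⟨t, mem_star_of_mem h⟩
    refine ⟨K + k, t, hki, star_subset_star hYX ?_⟩
    rw [hfl, List.append_assoc]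
    exact star_append ⟨ll, hll, rfl⟩ ht
  · intro h0
    have h1 := hconv 0
    have h2 : ∑ j, fC j * gC (0 - j) = ((∑ j, f j * g (0 - j) : ℕ) : ℂ) := by
      push_cast
      exact Finset.sum_congr rfl (fun j _ => by rw [hf, hg])
    rw [h2, h0] at h1
    have h3 := count_ne hNn hN0 (2 * K)
    have hc' : (c : ℂ) ≠ 0 := by exact_mod_cast hc
    exact (mul_ne_zero hc' h3) (by rw [← h1]; simp)
  · intro m
    have h1 := (hconv m).trans (hconv 0).symm
    have h2 : ∀ m, ∑ j, fC j * gC (m - j) = ((∑ j, f j * g (m - j) : ℕ) : ℂ) := by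
      intro m
      push_cast
      exact Finset.sum_congr rfl (fun j _ => by rw [hf, hg])
    rw [h2, h2] at h1
    exact_mod_cast h1

end RCP
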