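import Pool.Agent.RCP.CycMain

namespace RCP

open scoped Classical

theorem zsum {p : ℕ} [NeZero p] {M : Type*} [AddCommMonoid M] (F : ZMod p → M) :
    ∑ j : ZMod p, F j = ∑ i ∈ Finset.range p, F (i : ZMod p) := by
  refine Finset.sum_nbij' (fun j => j.val) (fun i => (i : ZMod p)) ?_ ?_ ?_ ?_ ?_
  · intro j _
    exact Finset.mem_range.2 (ZMod.val_lt j)
  · intro i _
    exact Finset.mem_univ _
  · intro j _
    exact ZMod.natCast_zmod_val j
  · intro i hi
    exact ZMod.val_natCast_of_lt (Finset.mem_range.1 hi)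
  · intro j _
    rw [ZMod.natCast_zmod_val]

theorem const_of_root {p : ℕ} [hp : Fact p.Prime] (f : ZMod p → ℕ) {ζ : ℂ}
    (hζ : IsPrimitiveRoot ζ p) (h : ∑ j : ZMod p, (f j : ℂ) * ζ ^ j.val = 0) :
    ∀ i j, f i = f j := by
  set P : Polynomial ℚ := ∑ i ∈ Finset.range p,
    Polynomial.C (f (i : ZMod p) : ℚ) * Polynomial.X ^ i with hP
  have hcoeff : ∀ i, i < p → P.coeff i = f (i : ZMod p) := by
    intro i hi
    rw [hP, Polynomial.finsetSum_coeff, Finset.sum_eq_single i]
    · simp
    · intro j _ hj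
      rw [Polynomial.coeff_C_mul, Polynomial.coeff_X_pow, if_neg (fun h => hj h.symm), mul_zero]
    · intro h'
      exact absurd (Finset.mem_range.2 hi) h'
  have hroot : Polynomial.aeval ζ P = 0 := by
    rw [hP, map_sum, ← h, zsum]
    refine Finset.sum_congr rfl (fun i hi => ?_)
    rw [map_mul, map_pow, Polynomial.aeval_C, Polynomial.aeval_X,
      ZMod.val_natCast_of_lt (Finset.mem_range.1 hi)]
    simp
  have hdvd : Polynomial.cyclotomic p ℚ ∣ P := by
    rw [Polynomial.cyclotomic_eq_minpoly_rat hζ hp.out.pos]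
    exact minpoly.dvd ℚ ζ hroot
  obtain ⟨q, hq⟩ := hdvd
  have hdeg : P.natDegree ≤ p - 1 := by
    rw [hP]
    refine Polynomial.natDegree_sum_le_of_forall_le _ _ (fun i hi => ?_)
    refine (Polynomial.natDegree_C_mul_X_pow_le _ _).trans ?_
    have := Finset.mem_range.1 hi
    omega
  have hall : ∃ c : ℚ, ∀ i, i < p → P.coeff i = c := by
    by_cases hP0 : P = 0
    · exact ⟨0, fun i _ => by rw [hP0]; simp⟩
    · have hq0 : q ≠ 0 := by
        rintro rfl
        rw [mul_zero] at hq
        exact hP0 hq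
      have hc0 : Polynomial.cyclotomic p ℚ ≠ 0 := Polynomial.cyclotomic_ne_zero p ℚ
      have hnd := Polynomial.natDegree_mul hc0 hq0
      rw [← hq, Polynomial.natDegree_cyclotomic, Nat.totient_prime hp.out] at hnd
      have hq1 : q.natDegree = 0 := by omega
      obtain ⟨c, rfl⟩ := Polynomial.natDegree_eq_zero.1 hq1
      refine ⟨c, fun i hi => ?_⟩
      rw [hq, Polynomial.coeff_mul_C, Polynomial.cyclotomic_prime, Polynomial.finsetSum_coeff,
        Finset.sum_eq_single i]
      · simp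
      · intro j _ hj
        rw [Polynomial.coeff_X_pow, if_neg (fun h => hj h.symm)]
      · intro h'
        exact absurd (Finset.mem_range.2 hi) h'
  obtain ⟨c, hc⟩ := hall
  have hfc : ∀ i : ZMod p, (f i : ℚ) = c := by
    intro i
    have h1 := hc i.val (ZMod.val_lt i)
    rw [hcoeff _ (ZMod.val_lt i), ZMod.natCast_zmod_val] at h1
    exact h1
  intro i j
  have := (hfc i).trans (hfc j).symm
  exact_mod_cast this

/-- For a prime modulus one of the two factors of a constant convolution has full support. -/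
theorem prime_conv {p : ℕ} [hp : Fact p.Prime] (f g : ZMod p → ℕ) {C : ℕ} (hC : C ≠ 0)
    (h : ∀ m, ∑ j, f j * g (m - j) = C) : (∀ j, f j ≠ 0) ∨ (∀ i, g i ≠ 0) := by
  obtain ⟨ζ, hζ⟩ : ∃ ζ : ℂ, IsPrimitiveRoot ζ p :=
    ⟨_, Complex.isPrimitiveRoot_exp p hp.out.ne_zero⟩
  have hζ1 : ζ ^ p = 1 := hζ.pow_eq_one
  set e := AddChar.zmodChar p hζ1 with he
  have hea : ∀ j : ZMod p, e j = ζ ^ j.val := fun j => AddChar.zmodChar_apply hζ1 j
  have hsum : ∑ m : ZMod p, e m = 0 := by
    rw [zsum]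
    have h1 : ∀ i ∈ Finset.range p, e (i : ZMod p) = ζ ^ i := by
      intro i hi
      rw [hea, ZMod.val_natCast_of_lt (Finset.mem_range.1 hi)]
    rw [Finset.sum_congr rfl h1]
    exact hζ.geom_sum_eq_zero hp.out.one_lt
  have hprod : (∑ j : ZMod p, (f j : ℂ) * e j) * (∑ i : ZMod p, (g i : ℂ) * e i) = 0 := by
    rw [Finset.sum_mul_sum]
    have h1 : ∀ j : ZMod p, ∑ i : ZMod p, (f j : ℂ) * e j * ((g i : ℂ) * e i) =
        ∑ m : ZMod p, (f j : ℂ) * (g (m - j) : ℂ) * e m := by
      intro j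
      refine Fintype.sum_equiv (Equiv.addRight j) _ _ (fun i => ?_)
      simp only [Equiv.coe_addRight, add_sub_cancel_right]
      rw [AddChar.map_add_eq_mul]
      ring
    rw [Finset.sum_congr rfl (fun j _ => h1 j), Finset.sum_comm]
    have h2 : ∀ m : ZMod p, ∑ j : ZMod p, (f j : ℂ) * (g (m - j) : ℂ) * e m = (C : ℂ) * e m := by
      intro m
      rw [← Finset.sum_mul, ← h m]
      push_cast
      rfl
    rw [Finset.sum_congr rfl (fun m _ => h2 m), ← Finset.mul_sum, hsum, mul_zero]
  have hne : ∀ k : ZMod p → ℕ, (∀ i j, k i = k j) → (∃ j, k j = 0) → ∀ j, k j = 0 := by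
    rintro k hk ⟨j0, hj0⟩ j
    rw [hk j j0, hj0]
  rcases mul_eq_zero.1 hprod with h0 | h0
  · left
    have hconst := const_of_root f hζ (by simpa only [hea] using h0)
    intro j hj
    have hall := hne f hconst ⟨j, hj⟩
    apply hC
    rw [← h 0]
    exact Finset.sum_eq_zero (fun j _ => by rw [hall j, zero_mul])
  · right
    have hconst := const_of_root g hζ (by simpa only [hea] using h0)
    intro j hj
    have hall := hne g hconst ⟨j, hj⟩
    apply hC
    rw [← h 0]
    exact Finset.sum_eq_zero (fun j _ => by rw [hall _, mul_zero])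

end RCP
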