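import Mathlib

/-!
Definitions for the problem of rich compositions. Words over the alphabet `A` are lists, and
concatenation of words is `++`. The alphabet may be any type; only finitely many letters occur in
a finite set of words.
-/

namespace RCP

variable {A : Type*}

/-- `C∗`: all products (concatenations) of finitely many words of `C`, the empty word included. -/
def star (C : Set (List A)) : Set (List A) :=
  {w | ∃ l : List (List A), (∀ x ∈ l, x ∈ C) ∧ l.flatten = w}

/-- `F(L)`: the set of factors of words of `L`. -/
def factors (L : Set (List A)) : Set (List A) :=
  {v | ∃ u w, u ++ v ++ w ∈ L}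

/-- `C` is a code: two products of words of `C` are equal only if they consist of the same words
of `C` in the same order. In particular the empty word is not in `C`. -/
def IsCode (C : Set (List A)) : Prop :=
  ∀ l l' : List (List A), (∀ x ∈ l, x ∈ C) → (∀ x ∈ l', x ∈ C) → l.flatten = l'.flatten → l = l'

/-- `X` admits a finite rich composition that is a code: a finite code `Y ⊆ X∗` with
`F(Y∗) = F(X∗)`. -/
def HasRichCode (X : Set (List A)) : Prop :=
  ∃ Y : Set (List A), Y.Finite ∧ Y ⊆ star X ∧ IsCode Y ∧ factors (star Y) = factors (star X)

/-- The power `d ^ m` of the word `d`. -/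
def wpow (d : List A) (m : ℕ) : List A := (List.replicate m d).flatten

/-- The word `d` is tame for `X`: the greatest common divisor `n` of the exponents `m` with
`d ^ m ∈ X` is itself such an exponent, or no positive exponent occurs. -/
def TameW (X : Set (List A)) (d : List A) : Prop :=
  ∃ n : ℕ, (∀ m, wpow d m ∈ X → n ∣ m) ∧ (∀ m, 0 < m → wpow d m ∈ X → wpow d n ∈ X)

/-- The word `d` of `D` is isolated in `X`: a product of words of `D` that lies in `X` and has `d`
among its factors from `D` is a power of `d`. -/
def IsolatedW (D X : Set (List A)) (d : List A) : Prop :=
  ∀ l : List (List A), (∀ y ∈ l, y ∈ D) → l.flatten ∈ X → d ∈ l → ∃ m, l = List.replicate m d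

/-- The product of a list of words of `D`. -/
def phi {D : Set (List A)} (z : List ↥D) : List A := (z.map Subtype.val).flatten

/-- The set of words over the alphabet `D` that spell a word of `X`. -/
def pre (D X : Set (List A)) : Set (List ↥D) := {z | phi z ∈ X}

end RCP
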