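import Pool.Agent.RCP.Neg

namespace RCP

open Matrix
open scoped Classical

variable {A : Type*}

theorem cf_sub_mul (r : ℂ) (g k : ℕ) (φ ψ : ℕ → ℂ) (c : ℂ) :
    cf r g k (fun j => c * φ j - ψ j) = c * cf r g k φ - cf r g k ψ := by
  unfold cf
  have h1 : ∀ s : Finset ℕ, ∑ j ∈ s, r ^ j * (c * φ j - ψ j) =
      c * ∑ j ∈ s, r ^ j * φ j - ∑ j ∈ s, r ^ j * ψ j := by
    intro s
    rw [Finset.mul_sum, ← Finset.sum_sub_distrib]
    exact Finset.sum_congr rfl (fun j _ => by ring)
  rw [h1, h1]
  ring

/-- The data attached to the letters of a finite set of wild letters. -/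
theorem wild_data {X : Set (List A)} {T : Finset A} (hT : ∀ x ∈ T, ¬ Tame X x) :
    ∃ (g k : A → ℕ) (r : A → ℂ), ∀ x ∈ T, 0 < g x ∧ 0 < k x ∧ (∀ m ∈ expo X x, g x ∣ m) ∧
      (∀ m, g x * k x ≤ m → g x ∣ m → m ∈ expo X x) ∧ r x ^ g x ≠ 1 ∧
      (1 - r x ^ g x) * (∑ j ∈ Finset.range (g x * k x), if j ∈ expo X x then r x ^ j else 0) +
        r x ^ (g x * k x) = 0 := by
  have : ∀ x : A, ∃ (g k : ℕ) (r : ℂ), x ∈ T → (0 < g ∧ 0 < k ∧ (∀ m ∈ expo X x, g ∣ m) ∧
      (∀ m, g * k ≤ m → g ∣ m → m ∈ expo X x) ∧ r ^ g ≠ 1 ∧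
      (1 - r ^ g) * (∑ j ∈ Finset.range (g * k), if j ∈ expo X x then r ^ j else 0) +
        r ^ (g * k) = 0) := by
    intro x
    by_cases hx : x ∈ T
    · obtain ⟨g, k, hg, hk, hgS, hdvd, hbig⟩ := wild_facts (hT x hx)
      obtain ⟨r, hr1, hr2⟩ := exists_root_aux (expo X x) hg hk hgS hbig
      exact ⟨g, k, r, fun _ => ⟨hg, hk, hdvd, hbig, hr1, hr2⟩⟩
    · exact ⟨0, 0, 0, fun h => absurd h hx⟩
  choose g k r h using this
  exact ⟨g, k, r, h⟩

/-- Three isolated wild letters exclude a finite rich composition that is a code. -/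
theorem neg_main {X Y : Set (List A)} (hYf : Y.Finite) (hYX : Y ⊆ star X)
    (hcode : IsCode Y) (hrich : factors (star Y) = factors (star X)) {a b c : A} (hab : a ≠ b)
    (hac : a ≠ c) (hbc : b ≠ c) (hia : Isolated X a) (hib : Isolated X b) (hic : Isolated X c)
    (ha : ¬ Tame X a) (hb : ¬ Tame X b) (hc : ¬ Tame X c) : False := by
  have hfs := finite_states hYf
  have hft : Fintype (St Y) := Fintype.ofFinite _
  set T : Finset A := {a, b, c} with hTdef
  have haT : a ∈ T := by simp [hTdef]
  have hbT : b ∈ T := by simp [hTdef]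
  have hcT : c ∈ T := by simp [hTdef]
  have hT : ∀ x ∈ T, ¬ Tame X x := by
    intro x hx
    rw [hTdef] at hx
    simp only [Finset.mem_insert, Finset.mem_singleton] at hx
    rcases hx with rfl | rfl | rfl
    · exact ha
    · exact hb
    · exact hc
  have hI : ∀ x ∈ T, Isolated X x := by
    intro x hx
    rw [hTdef] at hx
    simp only [Finset.mem_insert, Finset.mem_singleton] at hx
    rcases hx with rfl | rfl | rfl
    · exact hia
    · exact hib
    · exact hic
  have hother : ∀ y ∈ T, ∃ x ∈ T, x ≠ y := by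
    intro y hy
    by_cases h : y = a
    · exact ⟨b, hbT, fun h' => hab (h ▸ h'.symm)⟩
    · exact ⟨a, haT, fun h' => h h'.symm⟩
  obtain ⟨g, k, r, hdata⟩ := wild_data hT
  clear_value T
  -- positive exponents
  set e : A → ℕ := fun x => g x * k x with he
  have hepos : ∀ x ∈ T, 0 < e x := fun x hx => Nat.mul_pos (hdata x hx).1 (hdata x hx).2.1
  have hemem : ∀ x ∈ T, e x ∈ expo X x := fun x hx =>
    (hdata x hx).2.2.2.1 _ le_rfl (dvd_mul_right _ _)
  have hrepe : ∀ x ∈ T, ∃ i, List.replicate (e x) x = x :: List.replicate i x := by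
    intro x hx
    refine ⟨e x - 1, ?_⟩
    rw [← List.replicate_succ]
    congr 1
    have := hepos x hx
    omega
  have hrepe' : ∀ x ∈ T, ∃ i, List.replicate (e x) x = List.replicate i x ++ [x] := by
    intro x hx
    refine ⟨e x - 1, ?_⟩
    rw [← List.replicate_succ']
    congr 1
    have := hepos x hx
    omega
  -- the word w
  have hw0 : ∃ u v, u ++ (List.replicate (e a) a ++ List.replicate (e b) b) ++ v ∈ star Y := by
    have h1 : List.replicate (e a) a ++ List.replicate (e b) b ∈ factors (star X) :=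
      mem_factors_self (star_append (hemem a haT) (hemem b hbT))
    rw [← hrich] at h1
    exact h1
  obtain ⟨u0, v0, hw0⟩ := hw0
  obtain ⟨w1, hw1, l, κ, hrep⟩ := rep hcode hw0
  have hwY : w1 ++ (u0 ++ (List.replicate (e a) a ++ List.replicate (e b) b) ++ v0) ∈ star Y :=
    star_append hw1 hw0
  have hwb : ∃ w' w'', w1 ++ (u0 ++ (List.replicate (e a) a ++ List.replicate (e b) b) ++ v0) =
      w' ++ a :: b :: w'' := by
    obtain ⟨i, hi⟩ := hrepe' a haT
    obtain ⟨i', hi'⟩ := hrepe b hbT
    refine ⟨w1 ++ u0 ++ List.replicate i a, List.replicate i' b ++ v0, ?_⟩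
    rw [hi, hi']
    simp
  generalize w1 ++ (u0 ++ (List.replicate (e a) a ++ List.replicate (e b) b) ++ v0) = w
    at hrep hwY hwb
  have hYXs : star Y ⊆ star X := star_subset_star hYX
  have hwX : w ∈ star X := hYXs hwY
  obtain ⟨w', w'', hww⟩ := hwb
  have hsuf : b :: w'' ∈ star X := (split (Or.inl hia) hab (by rw [← hww]; exact hwX)).2
  have hcut : ∀ v t, v ++ w ++ t ∈ star X → v ++ w ∈ star X := by
    intro v t h
    rw [hww] at h
    have h1 : (v ++ w') ++ a :: b :: (w'' ++ t) ∈ star X := by simpa using h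
    have h2 := (split (Or.inl hia) hab h1).1
    have h3 := star_append h2 hsuf
    rw [hww]
    simpa using h3
  -- the functions
  set F : A → ℕ → List A → ℂ := fun y j z =>
    if List.replicate j y ++ z ++ w ∈ star X then 1 else 0 with hF
  have hFx : ∀ x, ∀ y ∈ T, ∀ z j, x ≠ y → 0 < j →
      F y j (x :: z) = (if j ∈ expo X y then 1 else 0) * F x 1 z := by
    intro x y hyT z j hxy hj
    have h1 : List.replicate j y ++ (x :: z) ++ w = List.replicate j y ++ x :: (z ++ w) := by simp
    have h2 : List.replicate 1 x ++ z ++ w = x :: (z ++ w) := by simp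
    simp only [hF]
    rw [h1, h2]
    have h3 := rep_cons_mem (hI y hyT) hxy hj (v := z ++ w)
    by_cases h4 : j ∈ expo X y
    · by_cases h5 : x :: (z ++ w) ∈ star X
      · rw [if_pos (h3.2 ⟨h4, h5⟩), if_pos h4, if_pos h5, one_mul]
      · rw [if_neg (fun h => h5 (h3.1 h).2), if_neg h5, mul_zero]
    · rw [if_neg (fun h => h4 (h3.1 h).1), if_neg h4, zero_mul]
  have hFy : ∀ y z j, F y j (y :: z) = F y (j + 1) z := by
    intro y z j
    have h1 : List.replicate j y ++ (y :: z) ++ w = List.replicate (j + 1) y ++ z ++ w := by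
      rw [List.replicate_succ']; simp
    simp only [hF]
    rw [h1]
  have hFper : ∀ y ∈ T, ∀ z, F y (e y + g y) z = F y (e y) z := by
    intro y hy z
    have hex : ∃ x ∈ z ++ w, x ≠ y := by
      by_cases h : a = y
      · exact ⟨b, by rw [hww]; simp, fun h' => hab (h.trans h'.symm)⟩
      · exact ⟨a, by rw [hww]; simp, h⟩
    obtain ⟨i, x, v', hv, hxy⟩ := exists_decomp hex
    simp only [hF]
    have h1 : ∀ j, List.replicate j y ++ z ++ w = List.replicate (j + i) y ++ x :: v' := by
      intro j
      rw [List.append_assoc, hv, ← List.append_assoc, List.replicate_append_replicate]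
    rw [h1, h1]
    have hpos := hepos y hy
    obtain ⟨hg, hk, hdvd, hbig, _, _⟩ := hdata y hy
    have h2 : e y + g y + i ∈ expo X y ↔ e y + i ∈ expo X y := by
      constructor
      · intro h
        have h3 := hdvd _ h
        refine hbig _ (by simp only [he]; omega) ?_
        have h4 : e y + g y + i = g y + (e y + i) := by ring
        rw [h4] at h3
        exact (Nat.dvd_add_right dvd_rfl).1 h3
      · intro h
        have h3 := hdvd _ h
        refine hbig _ (by simp only [he]; omega) ?_
        have h4 : e y + g y + i = g y + (e y + i) := by ring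
        rw [h4]
        exact (Nat.dvd_add_right dvd_rfl).2 h3
    have h5 := rep_cons_mem (hI y hy) hxy (j := e y + g y + i) (by omega) (v := v')
    have h6 := rep_cons_mem (hI y hy) hxy (j := e y + i) (by omega) (v := v')
    have h7 : List.replicate (e y + g y + i) y ++ x :: v' ∈ star X ↔
        List.replicate (e y + i) y ++ x :: v' ∈ star X := by
      rw [h5, h6, h2]
    by_cases h8 : List.replicate (e y + i) y ++ x :: v' ∈ star X
    · rw [if_pos h8, if_pos (h7.2 h8)]
    · rw [if_neg h8, if_neg (fun h => h8 (h7.1 h))]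
  -- membership in the image
  have hFmem : ∀ y ∈ T, ∀ j, 1 ≤ j → F y j ∈ LinearMap.range (Psi Y κ) := by
    intro y hy j hj
    obtain ⟨x, hx, hxy⟩ := hother y hy
    refine ⟨l ᵥ* MW Y (List.replicate (e x) x ++ List.replicate j y), ?_⟩
    funext z
    rw [Psi_apply, ← Matrix.dotProduct_mulVec, Matrix.mulVec_mulVec, ← MW_append, ← hrep]
    simp only [hF]
    congr 1
    rw [eq_iff_iff, hrich]
    constructor
    · rintro ⟨t, t', h⟩
      obtain ⟨i, hi⟩ := hrepe' x hx
      obtain ⟨j', rfl⟩ : ∃ j', j = j' + 1 := ⟨j - 1, by omega⟩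
      have h1 : (t ++ w ++ List.replicate i x) ++ x :: y :: (List.replicate j' y ++ z ++ w ++ t')
          ∈ star X := by
        rw [hi, List.replicate_succ] at h
        simpa using h
      have h2 := (split (Or.inl (hI x hx)) hxy h1).2
      have h3 : (List.replicate (j' + 1) y ++ z) ++ w ++ t' ∈ star X := by
        rw [List.replicate_succ]
        simpa using h2
      exact hcut _ _ h3
    · intro h
      have h1 := star_append (star_append hwX (hemem x hx)) h
      refine mem_factors_self ?_
      simpa using h1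
  set H : A → List A → ℂ := fun y z => cf (r y) (g y) (k y) (fun j => F y j z) with hH
  have hHmem : ∀ y ∈ T, H y ∈ LinearMap.range (Psi Y κ) := by
    intro y hy
    have h1 : H y = ∑ j ∈ Finset.Ico 1 (g y * k y), r y ^ j • F y j +
        (1 - r y ^ g y)⁻¹ • ∑ j ∈ Finset.Ico (g y * k y) (g y * k y + g y), r y ^ j • F y j := by
      funext z
      simp only [hH, cf, Pi.add_apply, Finset.sum_apply, Pi.smul_apply, smul_eq_mul]
    rw [h1]
    have hpos := hepos y hy
    simp only [he] at hpos
    refine Submodule.add_mem _ (Submodule.sum_mem _ (fun j hj => ?_))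
      (Submodule.smul_mem _ _ (Submodule.sum_mem _ (fun j hj => ?_)))
    · exact Submodule.smul_mem _ _ (hFmem y hy j (Finset.mem_Ico.1 hj).1)
    · exact Submodule.smul_mem _ _ (hFmem y hy j (by have := (Finset.mem_Ico.1 hj).1; omega))
  have hRH : ∀ y ∈ T, ∀ z, RR T r (H y) z = - ∑ x ∈ T, r x * F x 1 z := by
    intro y hy z
    obtain ⟨hg, hk, hdvd, hbig, hr1, hr2⟩ := hdata y hy
    rw [RR_apply, ← Finset.add_sum_erase T _ hy, ← Finset.add_sum_erase T (fun x => r x * F x 1 z) hy]
    have h1 : ∑ x ∈ T.erase y, r x * H y (x :: z) = - ∑ x ∈ T.erase y, r x * F x 1 z := by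
      rw [← Finset.sum_neg_distrib]
      refine Finset.sum_congr rfl (fun x hx => ?_)
      have hxy : x ≠ y := (Finset.mem_erase.1 hx).1
      have h2 : H y (x :: z) = cf (r y) (g y) (k y)
          (fun j => (if j ∈ expo X y then 1 else 0) * F x 1 z) := by
        simp only [hH]
        exact cf_congr hg hk (fun j hj => hFx x y hy z j hxy hj)
      rw [h2, cf_mul_right, cf_mem (expo X y) hg hk hdvd hbig hr1 hr2]
      ring
    have h3 : r y * H y (y :: z) - H y z = -(r y * F y 1 z) := by
      have h4 : H y (y :: z) = cf (r y) (g y) (k y) (fun j => F y (j + 1) z) := by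
        simp only [hH]
        exact cf_congr hg hk (fun j _ => hFy y z j)
      rw [h4]
      have h5 := cf_telescope hg hk hr1 (φ := fun j => F y j z) (hFper y hy z)
      rw [← h5, cf_sub_mul]
    rw [h1]
    linear_combination h3
  -- dependence
  have hkey : ∀ y ∈ T, ∀ y' ∈ T, RR T r (H y - H y') = 0 := by
    intro y hy y' hy'
    rw [map_sub]
    funext z
    rw [Pi.sub_apply, hRH y hy z, hRH y' hy' z, sub_self, Pi.zero_apply]
  obtain ⟨s, t, hst, hdep⟩ := dep_aux (Psi Y κ) (tau Y T r) (RR T r)
    (fun v => RR_Psi T r κ v) (Pi.single (root Y) 1) (range_aux T r)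
    (Submodule.sub_mem _ (hHmem a haT) (hHmem b hbT))
    (Submodule.sub_mem _ (hHmem b hbT) (hHmem c hcT)) (hkey a haT b hbT) (hkey b hbT c hcT)
  -- evaluation
  have heval : ∀ y ∈ T, ∃ z, H y z = (1 - r y ^ g y)⁻¹ - 1 ∧ ∀ y' ∈ T, y' ≠ y → H y' z = -1 := by
    intro y hy
    obtain ⟨x, hx, hxy⟩ := hother y hy
    obtain ⟨i, hi⟩ := hrepe x hx
    obtain ⟨i', hi'⟩ := hrepe y hy
    have htail : x :: (List.replicate i x ++ w) ∈ star X := by
      have := star_append (hemem x hx) hwX
      rw [hi] at this
      simpa using this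
    refine ⟨List.replicate (e y) y ++ List.replicate (e x) x, ?_, ?_⟩
    · obtain ⟨hg, hk, hdvd, hbig, hr1, hr2⟩ := hdata y hy
      rw [← cf_dvd hg hk hr1]
      simp only [hH]
      refine cf_congr hg hk (fun j hj => ?_)
      simp only [hF]
      have h1 : List.replicate j y ++ (List.replicate (e y) y ++ List.replicate (e x) x) ++ w =
          List.replicate (j + e y) y ++ x :: (List.replicate i x ++ w) := by
        rw [hi, ← List.replicate_append_replicate (n := j) (m := e y)]
        simp only [List.append_assoc, List.cons_append]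
      rw [h1]
      have h2 := rep_cons_mem (hI y hy) hxy (j := j + e y) (by omega) (v := List.replicate i x ++ w)
      have h3 : j + e y ∈ expo X y ↔ g y ∣ j := by
        constructor
        · intro h
          exact (Nat.dvd_add_left (dvd_mul_right _ _)).1 (hdvd _ h)
        · intro h
          exact hbig _ (by simp only [he]; omega) ((Nat.dvd_add_left (dvd_mul_right _ _)).2 h)
      congr 1
      rw [eq_iff_iff, h2, h3]
      exact ⟨fun h => h.1, fun h => ⟨h, htail⟩⟩
    · intro y' hy' hne
      obtain ⟨hg, hk, hdvd, hbig, hr1, hr2⟩ := hdata y' hy'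
      rw [← cf_mem (expo X y') hg hk hdvd hbig hr1 hr2]
      simp only [hH]
      refine cf_congr hg hk (fun j hj => ?_)
      simp only [hF]
      have h1 : List.replicate j y' ++ (List.replicate (e y) y ++ List.replicate (e x) x) ++ w =
          List.replicate j y' ++ y :: (List.replicate i' y ++ (List.replicate (e x) x ++ w)) := by
        rw [hi']
        simp
      rw [h1]
      have h2 := rep_cons_mem (hI y' hy') hne.symm (j := j) (by omega)
        (v := List.replicate i' y ++ (List.replicate (e x) x ++ w))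
      have h4 : y :: (List.replicate i' y ++ (List.replicate (e x) x ++ w)) ∈ star X := by
        have := star_append (star_append (hemem y hy) (hemem x hx)) hwX
        rw [hi'] at this
        simpa using this
      congr 1
      rw [eq_iff_iff, h2]
      exact ⟨fun h => h.1, fun h => ⟨h, h4⟩⟩
  have hdep' : ∀ z, s * (H a z - H b z) + t * (H b z - H c z) = 0 := by
    intro z
    have := congrFun hdep z
    simpa using this
  have hne1 : ∀ y ∈ T, (1 - r y ^ g y)⁻¹ ≠ 0 := by
    intro y hy
    refine inv_ne_zero (fun h => (hdata y hy).2.2.2.2.1 ?_)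
    linear_combination -h
  -- evaluate at a
  have hs : s = 0 := by
    obtain ⟨z, h1, h2⟩ := heval a haT
    have h3 := hdep' z
    rw [h1, h2 b hbT hab.symm, h2 c hcT hac.symm] at h3
    have h4 : s * (1 - r a ^ g a)⁻¹ = 0 := by linear_combination h3
    rcases mul_eq_zero.1 h4 with h | h
    · exact h
    · exact absurd h (hne1 a haT)
  have ht : t = 0 := by
    obtain ⟨z, h1, h2⟩ := heval c hcT
    have h3 := hdep' z
    rw [h1, h2 b hbT hbc, h2 a haT hac] at h3
    have h4 : t * (1 - r c ^ g c)⁻¹ = 0 := by linear_combination -h3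
    rcases mul_eq_zero.1 h4 with h | h
    · exact h
    · exact absurd h (hne1 c hcT)
  rcases hst with h | h
  · exact h hs
  · exact h ht

end RCP
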