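import Pool.Agent.RCP.PosMain
import Pool.Agent.RCP.NegMain

namespace RCP

open scoped Classical

variable {A : Type*}

theorem exists_three {s : Set A} (h : ¬ s.encard ≤ 2) :
    ∃ a b c, a ∈ s ∧ b ∈ s ∧ c ∈ s ∧ a ≠ b ∧ a ≠ c ∧ b ≠ c := by
  rw [not_le] at h
  have h3 : (3 : ℕ∞) ≤ s.encard := by
    have : (2 : ℕ∞) + 1 ≤ s.encard := Order.add_one_le_of_lt h
    have h23 : (2 : ℕ∞) + 1 = 3 := by norm_num
    rwa [h23] at this
  obtain ⟨t, hts, ht⟩ := Set.exists_subset_encard_eq h3
  obtain ⟨a, b, c, hab, hac, hbc, rfl⟩ := Set.encard_eq_three.1 ht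
  exact ⟨a, b, c, hts (by simp), hts (by simp), hts (by simp), hab, hac, hbc⟩

/-- The general necessary condition on isolated letters. -/
theorem neg_general {X : Set (List A)} (h : HasRichCode X) :
    {a | Isolated X a ∧ ¬ Tame X a}.encard ≤ 2 := by
  by_contra hcon
  obtain ⟨a, b, c, ha, hb, hc, hab, hac, hbc⟩ := exists_three hcon
  obtain ⟨Y, hYf, hYX, hcode, hrich⟩ := h
  exact neg_main hYf hYX hcode hrich hab hac hbc ha.1 hb.1 hc.1 ha.2 hb.2 hc.2

theorem occ_finite {X : Set (List A)} (hX : X.Finite) :
    {x : A | ∃ m, 0 < m ∧ m ∈ expo X x}.Finite := by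
  have h1 : (⋃ w ∈ X, {x : A | x ∈ w}).Finite := hX.biUnion (fun w _ => List.finite_toSet w)
  refine h1.subset ?_
  rintro x ⟨m, hm, l, hl, hfl⟩
  have hx : x ∈ l.flatten := by
    rw [hfl]
    exact List.mem_replicate.2 ⟨by omega, rfl⟩
  obtain ⟨w, hw, hxw⟩ := List.mem_flatten.1 hx
  exact Set.mem_biUnion (hl w hw) hxw

theorem pos_letters {X : Set (List A)} (hfin : X.Finite) (hX : Pow X)
    (h2 : {a | ¬ Tame X a}.encard ≤ 2) : HasRichCode X := by
  set B : Set A := {x : A | ∃ m, 0 < m ∧ m ∈ expo X x} with hB
  have hBfin : B.Finite := occ_finite hfin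
  set n : A → ℕ := fun x => sInf {m | 0 < m ∧ m ∈ expo X x} with hn
  have hnspec : ∀ x ∈ B, 0 < n x ∧ n x ∈ expo X x := fun x hx => Nat.sInf_mem hx
  have hleast : ∀ x ∈ B, ∀ m ∈ expo X x, 0 < m → n x ≤ m := fun x _ m hm h0 =>
    Nat.sInf_le ⟨h0, hm⟩
  have hocc : ∀ x m, m ∈ expo X x → 0 < m → x ∈ B := fun x m hm h0 => ⟨m, h0, hm⟩
  have htame : ∀ x ∈ B, Tame X x → ∀ m ∈ expo X x, n x ∣ m := by
    rintro x hx ⟨d, hd1, hd2⟩ m hm
    have hd : ∀ m ∈ expo X x, d ∣ m := expo_dvd hd1
    obtain ⟨hpos, hmem⟩ := hnspec x hx
    have hex : ∃ m, 0 < m ∧ List.replicate m x ∈ X := by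
      by_contra hcon
      push Not at hcon
      have h0 : ∀ m ∈ expo X x, 0 ∣ m := by
        refine expo_dvd ?_
        intro m hm
        rcases Nat.eq_zero_or_pos m with h | h
        · rw [h]
        · exact absurd hm (hcon m h)
      have := Nat.eq_zero_of_zero_dvd (h0 _ hmem)
      omega
    obtain ⟨m0, hm0, hm0X⟩ := hex
    have hdX := hd2 m0 hm0 hm0X
    have hdpos : 0 < d := Nat.pos_of_dvd_of_pos (hd1 m0 hm0X) hm0
    have h1 : n x ≤ d := hleast x hx d (mem_star_of_mem hdX) hdpos
    have h2 : d ≤ n x := Nat.le_of_dvd hpos (hd _ hmem)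
    have h3 : n x = d := le_antisymm h1 h2
    rw [h3]
    exact hd m hm
  have hwildB : {a | ¬ Tame X a} ⊆ B := by
    intro x hx
    by_contra hxB
    apply hx
    refine ⟨0, ?_, ?_⟩
    · intro m hm
      rcases Nat.eq_zero_or_pos m with h | h
      · rw [h]
      · exact absurd (hocc x m (mem_star_of_mem hm) h) hxB
    · intro m hm hmX
      exact absurd (hocc x m (mem_star_of_mem hmX) hm) hxB
  by_cases hcard : B.encard ≤ 1
  · rcases Set.encard_le_one_iff_eq.1 hcard with hB0 | ⟨x, hBx⟩
    · -- no letter occurs
      have hstar : star X = {[]} := by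
        apply Set.Subset.antisymm
        · intro t ht
          by_contra hne
          obtain ⟨x, m, t', hm, hmem, _⟩ := first_run hX ht hne
          have := hocc x m hmem hm
          rw [hB0] at this
          exact this
        · rintro t rfl
          exact nil_mem_star X
      have hstar' : star (∅ : Set (List A)) = {[]} := by
        apply Set.Subset.antisymm
        · rintro t ⟨l, hl, rfl⟩
          rcases l with _ | ⟨w, l⟩
          · rfl
          · exact absurd (hl w (by simp)) (Set.notMem_empty w)
        · rintro t rfl
          exact nil_mem_star _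
      refine ⟨∅, Set.finite_empty, Set.empty_subset _, ?_, by rw [hstar, hstar']⟩
      intro l l' hl hl' _
      rcases l with _ | ⟨w, l⟩
      · rcases l' with _ | ⟨w', l'⟩
        · rfl
        · exact absurd (hl' w' (by simp)) (Set.notMem_empty w')
      · exact absurd (hl w (by simp)) (Set.notMem_empty w)
    · -- one letter occurs
      have hxB : x ∈ B := by rw [hBx]; rfl
      obtain ⟨hpos, hmem⟩ := hnspec x hxB
      have hall : ∀ t ∈ star X, t = List.replicate t.length x := by
        refine star_cons_induction rfl ?_
        intro w hw v _ hv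
        obtain ⟨c, m, rfl⟩ := hX w hw
        have hcx : m = 0 ∨ c = x := by
          rcases Nat.eq_zero_or_pos m with h | h
          · exact Or.inl h
          · right
            have := hocc c m (mem_star_of_mem hw) h
            rw [hBx] at this
            exact this
        rcases hcx with h | h
        · subst h
          simpa using hv
        · subst h
          rw [List.length_append, List.length_replicate, ← List.replicate_append_replicate, ← hv]
      refine ⟨{List.replicate (n x) x}, Set.finite_singleton _, ?_, ?_, ?_⟩
      · rintro y rfl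
        exact hmem
      · refine isCode_of_dec ?_ ?_
        · intro h0
          have h1 := congrArg List.length (Set.mem_singleton_iff.1 h0)
          simp at h1
          omega
        · rintro y hy y' hy' _ _ _ _ _
          rw [Set.mem_singleton_iff] at hy hy'
          rw [hy, hy']
      · apply Set.Subset.antisymm
        · rintro v ⟨u, w, huw⟩
          refine ⟨u, w, star_subset_star ?_ huw⟩
          rintro y rfl
          exact hmem
        · rintro v ⟨u, w, huw⟩
          have h1 := hall _ huw
          rw [eq_comm, List.replicate_eq_append_iff] at h1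
          obtain ⟨h3, h4, _⟩ := h1
          have h5 : v = List.replicate v.length x := by
            have h6 : u ++ v = List.replicate (u ++ v).length x := h4
            rw [eq_comm, List.replicate_eq_append_iff] at h6
            exact h6.2.2
          have h7 : ∀ k, List.replicate (k * n x) x ∈ star {List.replicate (n x) x} := by
            intro k
            induction k with
            | zero => simpa using nil_mem_star _
            | succ k ih =>
              have h8 : (k + 1) * n x = n x + k * n x := by ring
              rw [h8, ← List.replicate_append_replicate]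
              exact star_append (mem_star_of_mem rfl) ih
          refine ⟨[], List.replicate (v.length * n x - v.length) x, ?_⟩
          rw [List.nil_append, h5]
          rw [List.length_replicate, List.replicate_append_replicate]
          have h9 : v.length + (v.length * n x - v.length) = v.length * n x := by
            have : v.length ≤ v.length * n x := Nat.le_mul_of_pos_right _ hpos
            omega
          rw [h9]
          exact h7 _
  · -- at least two letters occur
    have hcard2 : (2 : ℕ∞) ≤ B.encard := by
      rw [not_le] at hcard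
      have : (1 : ℕ∞) + 1 ≤ B.encard := Order.add_one_le_of_lt hcard
      have h23 : (1 : ℕ∞) + 1 = 2 := by norm_num
      rwa [h23] at this
    obtain ⟨r, hwr, hrB, hr⟩ := Set.exists_superset_subset_encard_eq hwildB h2 hcard2
    obtain ⟨a, b, hab, rfl⟩ := Set.encard_eq_two.1 hr
    have hdat : Dat X B n a b :=
      { pow := hX
        fin := hBfin
        ha := hrB (by simp)
        hb := hrB (by simp)
        hab := hab
        pos := fun x hx => (hnspec x hx).1
        mem := fun x hx => (hnspec x hx).2
        least := hleast
        occ := hocc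
        tame := by
          intro x hx hxa hxb
          refine htame x hx ?_
          by_contra hT
          rcases hwr hT with h | h
          · exact hxa h
          · exact hxb h }
    exact ⟨YY X B n a b, YY_finite hBfin (hdat.mem a hdat.ha) (hdat.mem b hdat.hb), YY_sub hdat,
      YY_code hdat, YY_rich hdat⟩

/-- The criterion for sets of powers of letters. -/
theorem letters_iff {X : Set (List A)} (hfin : X.Finite) (hX : Pow X) :
    HasRichCode X ↔ {a | ¬ Tame X a}.encard ≤ 2 := by
  constructor
  · intro h
    have := neg_general h
    have h2 : {a | Isolated X a ∧ ¬ Tame X a} = {a | ¬ Tame X a} := by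
      ext a
      exact ⟨fun h => h.2, fun h => ⟨hX.isolated a, h⟩⟩
    rwa [h2] at this
  · exact pos_letters hfin hX

end RCP
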