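import Pool.Agent.RCP.Basic

namespace RCP

open Finset Polynomial

theorem exists_root_aux (S : AddSubmonoid ℕ) [DecidablePred (· ∈ S)] {g k : ℕ} (hg : 0 < g) (hk : 0 < k) (hgS : g ∉ S)
    (hbig : ∀ m, g * k ≤ m → g ∣ m → m ∈ S) :
    ∃ r : ℂ, r ^ g ≠ 1 ∧
      (1 - r ^ g) * (∑ j ∈ range (g * k), if j ∈ S then r ^ j else 0) + r ^ (g * k) = 0 := by
  have hgN : g < g * k := by
    by_contra hcon
    exact hgS (hbig g (by omega) dvd_rfl)
  set P : ℂ[X] := ∑ j ∈ range (g * k), if j ∈ S then X ^ j else 0 with hP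
  set Q : ℂ[X] := (1 - X ^ g) * P + X ^ (g * k) with hQ
  have hPc : ∀ m, P.coeff m = if m < g * k ∧ m ∈ S then 1 else 0 := by
    intro m
    rw [hP, Polynomial.finsetSum_coeff]
    have : ∀ j ∈ range (g * k), (if j ∈ S then (X : ℂ[X]) ^ j else 0).coeff m =
        if j = m then (if m ∈ S then 1 else 0) else 0 := by
      intro j _
      by_cases hj : j = m
      · subst hj
        by_cases hS : j ∈ S <;> simp [hS]
      · by_cases hS : j ∈ S
        · simp [hS, hj, Polynomial.coeff_X_pow, Ne.symm hj]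
        · simp [hS, hj]
    rw [Finset.sum_congr rfl this, Finset.sum_ite_eq']
    by_cases h1 : m < g * k <;> by_cases h2 : m ∈ S <;> simp [h1, h2]
  have hQc : Q.coeff g = -1 := by
    have h1 : Q = P - X ^ g * P + X ^ (g * k) := by rw [hQ]; ring
    rw [h1, Polynomial.coeff_add, Polynomial.coeff_sub, hPc, Polynomial.coeff_X_pow_mul', hPc,
      Polynomial.coeff_X_pow]
    have h0 : (0 : ℕ) ∈ S := S.zero_mem
    have hne : g ≠ g * k := by omega
    simp [hgS, h0, hne]
    omega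
  have hdeg : Q.degree ≠ 0 := by
    intro h
    have := Polynomial.eq_C_of_degree_eq_zero h
    rw [this, Polynomial.coeff_C] at hQc
    rw [if_neg (by omega)] at hQc
    norm_num at hQc
  obtain ⟨r, hr⟩ := IsAlgClosed.exists_root Q hdeg
  have hr' : (1 - r ^ g) * (∑ j ∈ range (g * k), if j ∈ S then r ^ j else 0) + r ^ (g * k) = 0 := by
    have h1 := hr
    rw [Polynomial.IsRoot.def, hQ, hP] at h1
    simp only [Polynomial.eval_add, Polynomial.eval_mul, Polynomial.eval_sub, Polynomial.eval_one,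
      Polynomial.eval_pow, Polynomial.eval_X, Polynomial.eval_finsetSum] at h1
    refine Eq.trans ?_ h1
    congr 2
    refine Finset.sum_congr rfl (fun j _ => ?_)
    by_cases hS : j ∈ S <;> simp [hS]
  refine ⟨r, ?_, hr'⟩
  intro h1
  rw [h1, pow_mul, h1] at hr'
  simp at hr'

/-- The weighted sum attached to a wild letter. -/
noncomputable def cf (r : ℂ) (g k : ℕ) (φ : ℕ → ℂ) : ℂ :=
  ∑ j ∈ Ico 1 (g * k), r ^ j * φ j + (1 - r ^ g)⁻¹ * ∑ j ∈ Ico (g * k) (g * k + g), r ^ j * φ j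

theorem cf_congr {r : ℂ} {g k : ℕ} (hg : 0 < g) (hk : 0 < k) {φ ψ : ℕ → ℂ}
    (h : ∀ j, 1 ≤ j → φ j = ψ j) : cf r g k φ = cf r g k ψ := by
  have hgk : 0 < g * k := Nat.mul_pos hg hk
  unfold cf
  rw [Finset.sum_congr rfl (fun j hj => by rw [h j (Finset.mem_Ico.1 hj).1]),
    Finset.sum_congr (s₁ := Ico (g * k) (g * k + g)) rfl
      (fun j hj => by rw [h j (by have := (Finset.mem_Ico.1 hj).1; omega)])]

theorem cf_add (r : ℂ) (g k : ℕ) (φ ψ : ℕ → ℂ) :
    cf r g k (fun j => φ j + ψ j) = cf r g k φ + cf r g k ψ := by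
  unfold cf
  simp only [mul_add, Finset.sum_add_distrib]
  ring

theorem cf_mul_right (r : ℂ) (g k : ℕ) (φ : ℕ → ℂ) (c : ℂ) :
    cf r g k (fun j => φ j * c) = cf r g k φ * c := by
  unfold cf
  simp only [← mul_assoc, ← Finset.sum_mul]
  ring

theorem telescope (G : ℕ → ℂ) {m n : ℕ} (h : m ≤ n) :
    ∑ j ∈ Ico m n, (G (j + 1) - G j) = G n - G m := by
  induction n, h using Nat.le_induction with
  | base => simp
  | succ n hmn ih =>
    rw [Finset.sum_Ico_succ_top hmn, ih]; ring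

theorem cf_telescope {r : ℂ} {g k : ℕ} (hg : 0 < g) (hk : 0 < k) (hr : r ^ g ≠ 1) {φ : ℕ → ℂ}
    (hφ : φ (g * k + g) = φ (g * k)) :
    cf r g k (fun j => r * φ (j + 1) - φ j) = - (r * φ 1) := by
  have hgk : 0 < g * k := Nat.mul_pos hg hk
  unfold cf
  have key : ∀ m n, m ≤ n → ∑ j ∈ Ico m n, r ^ j * (r * φ (j + 1) - φ j) =
      r ^ n * φ n - r ^ m * φ m := by
    intro m n hmn
    rw [← telescope (fun j => r ^ j * φ j) hmn]
    refine Finset.sum_congr rfl (fun j _ => ?_)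
    ring
  rw [key 1 (g * k) hgk, key (g * k) (g * k + g) (by omega), hφ]
  have h1 : (1 - r ^ g) ≠ 0 := fun h => hr (by linear_combination -h)
  field_simp
  ring

theorem sum_single_dvd {r : ℂ} {g k : ℕ} (hg : 0 < g) (p : ℕ → Prop) [DecidablePred p]
    (hp : ∀ j, p j → g ∣ j) (hpN : p (g * k)) :
    ∑ j ∈ Ico (g * k) (g * k + g), r ^ j * (if p j then 1 else 0) = r ^ (g * k) := by
  rw [Finset.sum_eq_single (g * k)]
  · simp [hpN]
  · intro j hj hne
    rw [Finset.mem_Ico] at hj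
    have : ¬ p j := by
      intro hpj
      obtain ⟨c, rfl⟩ := hp j hpj
      apply hne
      have h1 : k ≤ c := Nat.le_of_mul_le_mul_left hj.1 hg
      have h2 : c < k + 1 := by
        have : g * c < g * (k + 1) := by rw [Nat.mul_add, Nat.mul_one]; exact hj.2
        exact Nat.lt_of_mul_lt_mul_left this
      have : c = k := by omega
      rw [this]
    simp [this]
  · intro h
    exact absurd (Finset.mem_Ico.2 ⟨le_rfl, by omega⟩) h

theorem cf_mem (S : AddSubmonoid ℕ) [DecidablePred (· ∈ S)] {r : ℂ} {g k : ℕ} (hg : 0 < g)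
    (hk : 0 < k) (hdvd : ∀ m ∈ S, g ∣ m) (hbig : ∀ m, g * k ≤ m → g ∣ m → m ∈ S)
    (hr : r ^ g ≠ 1)
    (hroot : (1 - r ^ g) * (∑ j ∈ range (g * k), if j ∈ S then r ^ j else 0) + r ^ (g * k) = 0) :
    cf r g k (fun j => if j ∈ S then 1 else 0) = -1 := by
  have hgk : 0 < g * k := Nat.mul_pos hg hk
  unfold cf
  rw [sum_single_dvd hg (fun j => j ∈ S) hdvd (hbig _ le_rfl (dvd_mul_right _ _))]
  rw [Finset.sum_range_eq_add_Ico _ hgk] at hroot
  have h0 : (0 : ℕ) ∈ S := S.zero_mem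
  rw [if_pos h0, pow_zero] at hroot
  have h2 : ∑ j ∈ Ico 1 (g * k), r ^ j * (if j ∈ S then (1 : ℂ) else 0) =
      ∑ j ∈ Ico 1 (g * k), (if j ∈ S then r ^ j else 0) := by
    refine Finset.sum_congr rfl (fun j _ => ?_)
    simp
  rw [h2]
  have h1 : (1 - r ^ g) ≠ 0 := fun h => hr (by linear_combination -h)
  field_simp
  linear_combination hroot

theorem geom_dvd (r : ℂ) {g : ℕ} (hg : 0 < g) (k : ℕ) :
    (1 - r ^ g) * (∑ j ∈ range (g * k), if g ∣ j then r ^ j else 0) = 1 - r ^ (g * k) := by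
  induction k with
  | zero => simp
  | succ k ih =>
    rw [Nat.mul_add, Nat.mul_one, Finset.sum_range_add, mul_add, ih]
    have : ∑ x ∈ range g, (if g ∣ g * k + x then r ^ (g * k + x) else 0) = r ^ (g * k) := by
      rw [Finset.sum_eq_single 0]
      · simp
      · intro x hx hx0
        rw [Finset.mem_range] at hx
        rw [if_neg]
        intro hd
        have := (Nat.dvd_add_right (dvd_mul_right g k)).1 hd
        exact hx0 (Nat.eq_zero_of_dvd_of_lt this hx)
      · intro h; exact absurd (Finset.mem_range.2 hg) h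
    rw [this, pow_add]
    ring

theorem cf_dvd {r : ℂ} {g k : ℕ} (hg : 0 < g) (hk : 0 < k) (hr : r ^ g ≠ 1) :
    cf r g k (fun j => if g ∣ j then 1 else 0) = (1 - r ^ g)⁻¹ - 1 := by
  have hgk : 0 < g * k := Nat.mul_pos hg hk
  unfold cf
  rw [sum_single_dvd hg (fun j => g ∣ j) (fun j h => h) (dvd_mul_right _ _)]
  have hgeo := geom_dvd r hg k
  rw [Finset.sum_range_eq_add_Ico _ hgk, if_pos (dvd_zero g), pow_zero] at hgeo
  have h2 : ∑ j ∈ Ico 1 (g * k), r ^ j * (if g ∣ j then (1 : ℂ) else 0) =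
      ∑ j ∈ Ico 1 (g * k), (if g ∣ j then r ^ j else 0) := by
    refine Finset.sum_congr rfl (fun j _ => ?_)
    simp
  rw [h2]
  have h1 : (1 - r ^ g) ≠ 0 := fun h => hr (by linear_combination -h)
  field_simp
  linear_combination hgeo

end RCP
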