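import Pool.Agent.RCP.Rep
import Pool.Agent.RCP.Root

namespace RCP

open Matrix
open scoped Classical

variable {A : Type*} {Y : Set (List A)} [Fintype (St Y)]

omit [Fintype (St Y)] in
theorem MM_row (x : A) (p : St Y) :
    MM Y x p = (if h : IsState Y (p.1 ++ [x]) then Pi.single ⟨p.1 ++ [x], h⟩ 1 else 0) +
      (if p.1 ++ [x] ∈ Y then Pi.single (root Y) 1 else 0) := by
  funext q
  rw [Pi.add_apply]
  unfold MM
  congr 1
  · by_cases h : IsState Y (p.1 ++ [x])
    · rw [dif_pos h, Pi.single_apply]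
      congr 1
      rw [eq_iff_iff]
      constructor
      · intro h'; exact Subtype.ext h'.symm
      · intro h'; rw [h']
    · rw [dif_neg h, Pi.zero_apply, if_neg]
      intro h'; exact h (h' ▸ q.2)
  · by_cases h : p.1 ++ [x] ∈ Y
    · rw [if_pos h, Pi.single_apply]
      congr 1
      rw [eq_iff_iff]
      constructor
      · rintro ⟨_, h'⟩; exact Subtype.ext h'
      · intro h'; rw [h']; exact ⟨h, rfl⟩
    · rw [if_neg h, Pi.zero_apply, if_neg]
      rintro ⟨h', _⟩; exact h h'

/-- The combined matrix. -/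
noncomputable def TM (Y : Set (List A)) (T : Finset A) (r : A → ℂ) : Matrix (St Y) (St Y) ℂ :=
  ∑ x ∈ T, r x • MM Y x

/-- The operator on row vectors. -/
noncomputable def tau (Y : Set (List A)) [Fintype (St Y)] (T : Finset A) (r : A → ℂ) :
    (St Y → ℂ) →ₗ[ℂ] (St Y → ℂ) :=
  Matrix.vecMulLinear (TM Y T r) - LinearMap.id

theorem tau_apply (T : Finset A) (r : A → ℂ) (v : St Y → ℂ) :
    tau Y T r v = v ᵥ* TM Y T r - v := by
  simp [tau]

theorem range_aux (T : Finset A) (r : A → ℂ) :
    LinearMap.range (tau Y T r) ⊔ Submodule.span ℂ {(Pi.single (root Y) 1 : St Y → ℂ)} = ⊤ := by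
  set U := LinearMap.range (tau Y T r) ⊔ Submodule.span ℂ {(Pi.single (root Y) 1 : St Y → ℂ)}
    with hU
  have hroot : (Pi.single (root Y) 1 : St Y → ℂ) ∈ U :=
    Submodule.mem_sup_right (Submodule.mem_span_singleton_self _)
  obtain ⟨L, hL⟩ := (Set.finite_range (fun p : St Y => p.1.length)).bddAbove
  have hL' : ∀ p : St Y, p.1.length ≤ L := fun p => hL ⟨p, rfl⟩
  have key : ∀ n, ∀ p : St Y, L ≤ p.1.length + n → (Pi.single p 1 : St Y → ℂ) ∈ U := by
    intro n
    induction n with
    | zero =>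
      intro p hp
      have h1 : (Pi.single p 1 : St Y → ℂ) =
          -(tau Y T r (Pi.single p 1)) + (Pi.single p 1) ᵥ* TM Y T r := by
        rw [tau_apply]; abel
      rw [h1]
      refine U.add_mem (U.neg_mem (Submodule.mem_sup_left ⟨_, rfl⟩)) ?_
      rw [Matrix.single_one_vecMul, TM]
      have : (∑ x ∈ T, r x • MM Y x).row p = ∑ x ∈ T, r x • MM Y x p := by
        funext q
        simp [Matrix.row, Matrix.sum_apply, Finset.sum_apply]
      rw [this]
      refine U.sum_mem (fun x _ => U.smul_mem _ ?_)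
      rw [MM_row]
      refine U.add_mem ?_ ?_
      · by_cases h : IsState Y (p.1 ++ [x])
        · have := hL' ⟨p.1 ++ [x], h⟩
          simp at this
          omega
        · rw [dif_neg h]; exact U.zero_mem
      · by_cases h : p.1 ++ [x] ∈ Y
        · rw [if_pos h]; exact hroot
        · rw [if_neg h]; exact U.zero_mem
    | succ n ih =>
      intro p hp
      have h1 : (Pi.single p 1 : St Y → ℂ) =
          -(tau Y T r (Pi.single p 1)) + (Pi.single p 1) ᵥ* TM Y T r := by
        rw [tau_apply]; abel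
      rw [h1]
      refine U.add_mem (U.neg_mem (Submodule.mem_sup_left ⟨_, rfl⟩)) ?_
      rw [Matrix.single_one_vecMul, TM]
      have : (∑ x ∈ T, r x • MM Y x).row p = ∑ x ∈ T, r x • MM Y x p := by
        funext q
        simp [Matrix.row, Matrix.sum_apply, Finset.sum_apply]
      rw [this]
      refine U.sum_mem (fun x _ => U.smul_mem _ ?_)
      rw [MM_row]
      refine U.add_mem ?_ ?_
      · by_cases h : IsState Y (p.1 ++ [x])
        · rw [dif_pos h]
          refine ih ⟨p.1 ++ [x], h⟩ ?_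
          simp
          omega
        · rw [dif_neg h]; exact U.zero_mem
      · by_cases h : p.1 ++ [x] ∈ Y
        · rw [if_pos h]; exact hroot
        · rw [if_neg h]; exact U.zero_mem
  rw [eq_top_iff, ← (Pi.basisFun ℂ (St Y)).span_eq, Submodule.span_le]
  rintro _ ⟨p, rfl⟩
  rw [Pi.basisFun_apply]
  exact key L p (by omega)

/-- The map from row vectors to functions of words. -/
noncomputable def Psi (Y : Set (List A)) [Fintype (St Y)] (κ : St Y → ℂ) :
    (St Y → ℂ) →ₗ[ℂ] (List A → ℂ) where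
  toFun ρ := fun z => ρ ⬝ᵥ (MW Y z *ᵥ κ)
  map_add' ρ σ := by funext z; simp [add_dotProduct]
  map_smul' c ρ := by funext z; simp [smul_dotProduct]

theorem Psi_apply (κ ρ : St Y → ℂ) (z : List A) : Psi Y κ ρ z = ρ ⬝ᵥ (MW Y z *ᵥ κ) := rfl

/-- The shift operator on functions of words. -/
noncomputable def RR (T : Finset A) (r : A → ℂ) : (List A → ℂ) →ₗ[ℂ] (List A → ℂ) where
  toFun f := fun z => ∑ x ∈ T, r x * f (x :: z) - f z
  map_add' f g := by
    funext z
    simp only [Pi.add_apply, mul_add, Finset.sum_add_distrib]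
    ring
  map_smul' c f := by
    funext z
    simp only [Pi.smul_apply, smul_eq_mul, RingHom.id_apply, mul_sub, Finset.mul_sum]
    congr 1
    exact Finset.sum_congr rfl (fun x _ => by ring)

theorem RR_apply (T : Finset A) (r : A → ℂ) (f : List A → ℂ) (z : List A) :
    RR T r f z = ∑ x ∈ T, r x * f (x :: z) - f z := rfl

theorem RR_Psi (T : Finset A) (r : A → ℂ) (κ ρ : St Y → ℂ) :
    RR T r (Psi Y κ ρ) = Psi Y κ (tau Y T r ρ) := by
  funext z
  rw [RR_apply, Psi_apply, Psi_apply, tau_apply, sub_dotProduct]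
  congr 1
  rw [TM, Matrix.vecMul_sum, sum_dotProduct]
  refine Finset.sum_congr rfl (fun x _ => ?_)
  rw [Psi_apply, MW_cons, Matrix.vecMul_smul, smul_dotProduct, smul_eq_mul,
    ← Matrix.mulVec_mulVec, Matrix.dotProduct_mulVec]

end RCP
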