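import Pool.Agent.RCP.Neg

namespace RCP

open Matrix
open scoped Classical

variable {A : Type*}

/-- Weighted sum of `h` over all words of length `n` with letters in `T`. -/
noncomputable def wsum (T : Finset A) (w : A → ℝ) : ℕ → (List A → ℂ) → ℂ
  | 0, h => h []
  | n + 1, h => ∑ a ∈ T, (w a : ℂ) * wsum T w n (fun z => h (a :: z))

theorem wsum_rep {Y : Set (List A)} [Fintype (St Y)] (T : Finset A) (w : A → ℝ)
    (κ : St Y → ℂ) (n : ℕ) :
    ∀ ρ : St Y → ℂ, wsum T w n (fun z => ρ ⬝ᵥ (MW Y z *ᵥ κ)) =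
      ρ ⬝ᵥ ((TM Y T (fun a => (w a : ℂ))) ^ n *ᵥ κ) := by
  induction n with
  | zero => intro ρ; simp [wsum, MW_nil]
  | succ n ih =>
    intro ρ
    have h1 : ∀ a : A, (fun z => ρ ⬝ᵥ (MW Y (a :: z) *ᵥ κ)) =
        (fun z => (ρ ᵥ* MM Y a) ⬝ᵥ (MW Y z *ᵥ κ)) := by
      intro a
      funext z
      rw [MW_cons, ← Matrix.mulVec_mulVec, Matrix.dotProduct_mulVec]
    simp only [wsum]
    simp only [h1, ih]
    rw [pow_succ', ← Matrix.mulVec_mulVec, Matrix.dotProduct_mulVec ρ]
    have h2 : ρ ᵥ* TM Y T (fun a => (w a : ℂ)) = ∑ a ∈ T, (w a : ℂ) • (ρ ᵥ* MM Y a) := by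
      rw [TM, Matrix.vecMul_sum]
      refine Finset.sum_congr rfl (fun a _ => ?_)
      rw [Matrix.vecMul_smul]
    rw [h2, sum_dotProduct]
    refine Finset.sum_congr rfl (fun a _ => ?_)
    rw [smul_dotProduct, smul_eq_mul]

theorem pole_aux {n : Type*} [Fintype n] [DecidableEq n] (M : Matrix n n ℂ) (ρ κ : n → ℂ)
    (Q N : Polynomial ℂ)
    (hQ : (Q : PowerSeries ℂ) * PowerSeries.mk (fun k => ρ ⬝ᵥ (M ^ k *ᵥ κ)) = (N : PowerSeries ℂ))
    (s : ℂ) (hs : Q.eval s = 0) (hN : N.eval s ≠ 0) : (1 - s • M).det = 0 := by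
  set φ : Polynomial ℂ →+* PowerSeries ℂ := Polynomial.coeToPowerSeries.ringHom with hφ
  set Pm : Matrix n n (Polynomial ℂ) := 1 - (Polynomial.X : Polynomial ℂ) • M.map Polynomial.C
    with hPm
  set g : n → PowerSeries ℂ := fun i => PowerSeries.mk (fun k => (M ^ k *ᵥ κ) i) with hg
  have hPm' : Pm.map φ = 1 - (PowerSeries.X : PowerSeries ℂ) • M.map (PowerSeries.C) := by
    ext i j
    simp only [hPm, Matrix.map_apply, Matrix.sub_apply, Matrix.smul_apply, smul_eq_mul, map_sub,
      map_mul]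
    congr 1
    · by_cases hij : i = j
      · subst hij; simp
      · simp [hij]
    · simp [hφ]
  have h1 : (Pm.map φ) *ᵥ g = fun i => PowerSeries.C (κ i) := by
    funext i
    rw [hPm', Matrix.sub_mulVec, Matrix.one_mulVec, Matrix.smul_mulVec, Pi.sub_apply,
      Pi.smul_apply, smul_eq_mul]
    ext k
    rcases k with _ | k
    · simp [hg]
    · rw [map_sub, PowerSeries.coeff_succ_X_mul]
      simp only [Matrix.mulVec, dotProduct, Matrix.map_apply, map_sum, PowerSeries.coeff_C_mul, hg,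
        PowerSeries.coeff_mk]
      rw [PowerSeries.coeff_C, if_neg (by omega)]
      rw [pow_succ']
      simp only [Matrix.mul_apply, Finset.sum_mul]
      rw [sub_eq_zero, Finset.sum_comm]
      refine Finset.sum_congr rfl (fun j _ => ?_)
      rw [Finset.mul_sum]
      exact Finset.sum_congr rfl (fun l _ => by ring)
  have h3 : ∀ i, (Pm.map φ).det * g i =
      ((Pm.map φ).adjugate *ᵥ (fun i => PowerSeries.C (κ i))) i := by
    intro i
    rw [← h1, Matrix.mulVec_mulVec, Matrix.adjugate_mul, Matrix.smul_mulVec, Matrix.one_mulVec,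
      Pi.smul_apply, smul_eq_mul]
  have hdet : (Pm.map φ).det = φ Pm.det := (RingHom.map_det φ Pm).symm
  have hadj : (Pm.map φ).adjugate = Pm.adjugate.map φ := (RingHom.map_adjugate φ Pm).symm
  have hG : PowerSeries.mk (fun k => ρ ⬝ᵥ (M ^ k *ᵥ κ)) = ∑ i, PowerSeries.C (ρ i) * g i := by
    ext k
    simp [hg, dotProduct, PowerSeries.coeff_C_mul]
  set K : Polynomial ℂ := ∑ i, Polynomial.C (ρ i) *
    (Pm.adjugate *ᵥ (fun i => Polynomial.C (κ i))) i with hK
  have hφK : φ K = (Pm.map φ).det * ∑ i, PowerSeries.C (ρ i) * g i := by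
    rw [Finset.mul_sum, hK, map_sum]
    refine Finset.sum_congr rfl (fun i _ => ?_)
    have h4 : (Pm.map φ).det * (PowerSeries.C (ρ i) * g i) =
        PowerSeries.C (ρ i) * ((Pm.map φ).det * g i) := by ring
    rw [h4, h3, map_mul, hadj]
    congr 1
    · simp [hφ]
    · simp only [Matrix.mulVec, dotProduct, map_sum, map_mul, Matrix.map_apply]
      refine Finset.sum_congr rfl (fun j _ => ?_)
      congr 1
      simp [hφ]
  have hmain : Pm.det * N = Q * K := by
    apply Polynomial.coe_injective ℂ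
    have h5 : φ Pm.det * φ N = φ Q * φ K := by
      rw [hφK, hdet, ← hG]
      have h6 : φ Q = (Q : PowerSeries ℂ) := rfl
      have h7 : φ N = (N : PowerSeries ℂ) := rfl
      rw [h6, h7, ← hQ]
      ring
    rw [← map_mul, ← map_mul] at h5
    exact h5
  have heval : (1 - s • M).det = Pm.det.eval s := by
    have h7 : Pm.det.eval s = (Pm.map (Polynomial.evalRingHom s)).det :=
      RingHom.map_det (Polynomial.evalRingHom s) Pm
    rw [h7]
    congr 1
    ext i j
    simp only [hPm, Matrix.map_apply, Matrix.sub_apply, Matrix.smul_apply, smul_eq_mul, map_sub,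
      map_mul]
    congr 1
    · by_cases hij : i = j
      · subst hij; simp
      · simp [hij]
    · simp
  have h8 : Pm.det.eval s * N.eval s = 0 := by
    rw [← Polynomial.eval_mul, hmain, Polynomial.eval_mul, hs, zero_mul]
  rcases mul_eq_zero.1 h8 with h9 | h9
  · rw [heval, h9]
  · exact absurd h9 hN

end RCP
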