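import Pool.Agent.RCP.Pole

namespace RCP

open Matrix
open scoped Classical

variable {A : Type*}

/-- Weight of a word, `0` if some letter lies outside `T`. -/
noncomputable def om (T : Finset A) (w : A → ℝ) (s : ℝ) (q : List A) : ℝ :=
  (q.map (fun a => if a ∈ T then s * w a else 0)).prod

theorem om_nonneg (T : Finset A) {w : A → ℝ} (hw : ∀ a, 0 ≤ w a) {s : ℝ} (hs : 0 ≤ s)
    (q : List A) : 0 ≤ om T w s q := by
  unfold om
  induction q with
  | nil => simp
  | cons a q ih =>
    rw [List.map_cons, List.prod_cons]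
    refine mul_nonneg ?_ ih
    split_ifs
    · exact mul_nonneg hs (hw a)
    · exact le_rfl

theorem om_mono (T : Finset A) {w : A → ℝ} (hw : ∀ a, 0 ≤ w a) {s t : ℝ} (hs : 0 ≤ s)
    (hst : s ≤ t) (q : List A) : om T w s q ≤ om T w t q := by
  unfold om
  induction q with
  | nil => simp
  | cons a q ih =>
    rw [List.map_cons, List.prod_cons, List.map_cons, List.prod_cons]
    refine mul_le_mul ?_ ih (om_nonneg T hw hs q) ?_
    · split_ifs
      · exact mul_le_mul_of_nonneg_right hst (hw a)
      · exact le_rfl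
    · split_ifs
      · exact mul_nonneg (hs.trans hst) (hw a)
      · exact le_rfl

theorem om_append_single (T : Finset A) (w : A → ℝ) (s : ℝ) (q : List A) (a : A) :
    om T w s (q ++ [a]) = om T w s q * (if a ∈ T then s * w a else 0) := by
  simp [om]

variable {Y : Set (List A)} [Fintype (St Y)]

/-- The generating function of `Y` at `s`. -/
noncomputable def ysum (Y : Set (List A)) [Fintype (St Y)] (T : Finset A) (w : A → ℝ)
    (s : ℝ) : ℝ :=
  ∑ p : St Y, ∑ a ∈ T, if p.1 ++ [a] ∈ Y then s * w a * om T w s p.1 else 0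

theorem ysum_le (T : Finset A) {w : A → ℝ} (hw : ∀ a, 0 ≤ w a) {s t : ℝ} (hs : 0 < s)
    (hst : s ≤ t) : ysum Y T w s ≤ s / t * ysum Y T w t := by
  have ht : 0 < t := lt_of_lt_of_le hs hst
  unfold ysum
  rw [Finset.mul_sum]
  refine Finset.sum_le_sum (fun p _ => ?_)
  rw [Finset.mul_sum]
  refine Finset.sum_le_sum (fun a _ => ?_)
  split_ifs
  · have h1 : s / t * (t * w a * om T w t p.1) = s * w a * om T w t p.1 := by
      field_simp
    rw [h1]
    exact mul_le_mul_of_nonneg_left (om_mono T hw hs.le hst _) (mul_nonneg hs.le (hw a))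
  · simp

omit [Fintype (St Y)] in
theorem state_parent {l : List A} {a : A} (h : IsState Y (l ++ [a])) : IsState Y l := by
  rcases h with h | ⟨s, _, hs⟩
  · simp at h
  · exact Or.inr ⟨a :: s, by simp, by simpa using hs⟩

theorem eigen_aux (T : Finset A) (w : A → ℝ) (s : ℝ)
    (h : (1 - (s : ℂ) • TM Y T (fun a => (w a : ℂ))).det = 0) : ysum Y T w s = 1 := by
  obtain ⟨v, hv0, hv⟩ := Matrix.exists_vecMul_eq_zero_iff.2 h
  have hv1 : ∀ q : St Y, v q = ∑ p : St Y, ∑ a ∈ T, (s : ℂ) * (w a : ℂ) * (v p * MM Y a p q) := by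
    intro q
    have h1 := congrFun hv q
    rw [Matrix.vecMul_sub, Matrix.vecMul_one, Matrix.vecMul_smul, Pi.sub_apply, Pi.smul_apply,
      Pi.zero_apply, sub_eq_zero] at h1
    rw [h1, smul_eq_mul, Matrix.vecMul, dotProduct, Finset.mul_sum]
    refine Finset.sum_congr rfl (fun p _ => ?_)
    rw [TM, Matrix.sum_apply, Finset.mul_sum, Finset.mul_sum]
    refine Finset.sum_congr rfl (fun a _ => ?_)
    rw [Matrix.smul_apply, smul_eq_mul]
    ring
  have hval : ∀ (l : List A) (hl : IsState Y l), v ⟨l, hl⟩ = v (root Y) * (om T w s l : ℂ) := by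
    intro l
    induction l using List.reverseRecOn with
    | nil =>
      intro hl
      have : (⟨[], hl⟩ : St Y) = root Y := rfl
      rw [this]
      simp [om]
    | append_singleton l a ih =>
      intro hl
      have hl' := state_parent hl
      rw [hv1, Finset.sum_eq_single (⟨l, hl'⟩ : St Y)]
      · have h1 : ∀ b ∈ T, (s : ℂ) * (w b : ℂ) * (v ⟨l, hl'⟩ * MM Y b ⟨l, hl'⟩ ⟨l ++ [a], hl⟩) =
            if b = a then (s : ℂ) * (w b : ℂ) * v ⟨l, hl'⟩ else 0 := by
          intro b _
          have h2 : MM Y b ⟨l, hl'⟩ ⟨l ++ [a], hl⟩ = if b = a then 1 else 0 := by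
            unfold MM
            by_cases hab : b = a
            · subst hab; simp
            · simp [hab]
          rw [h2]
          by_cases hab : b = a <;> simp [hab]
        rw [Finset.sum_congr rfl h1, Finset.sum_ite_eq', om_append_single, ih hl']
        by_cases haT : a ∈ T
        · simp only [haT, if_true]
          push_cast
          ring
        · simp [haT]
      · intro p _ hp
        refine Finset.sum_eq_zero (fun b _ => ?_)
        have h2 : MM Y b p ⟨l ++ [a], hl⟩ = 0 := by
          unfold MM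
          have h3 : ¬ (p.1 ++ [b] = l ++ [a]) := by
            intro h'
            have := (List.append_inj' h' rfl).1
            exact hp (Subtype.ext this)
          simp [h3]
        rw [h2]; simp
      · intro h'; exact absurd (Finset.mem_univ _) h'
  have hroot0 : v (root Y) ≠ 0 := by
    intro h0
    apply hv0
    funext q
    have := hval q.1 q.2
    rw [h0, zero_mul] at this
    exact this
  have hroot : v (root Y) = v (root Y) * (ysum Y T w s : ℂ) := by
    conv_lhs => rw [hv1]
    unfold ysum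
    push_cast
    rw [Finset.mul_sum]
    refine Finset.sum_congr rfl (fun p _ => ?_)
    rw [Finset.mul_sum]
    refine Finset.sum_congr rfl (fun a _ => ?_)
    have h2 : MM Y a p (root Y) = if p.1 ++ [a] ∈ Y then 1 else 0 := by
      unfold MM root
      simp
    rw [h2]
    have h3 := hval p.1 p.2
    have h4 : (⟨p.1, p.2⟩ : St Y) = p := rfl
    rw [h4] at h3
    rw [h3]
    split_ifs
    · push_cast; ring
    · simp
  have h5 : (ysum Y T w s : ℂ) = 1 := by
    have : v (root Y) * ((ysum Y T w s : ℂ) - 1) = 0 := by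
      rw [mul_sub, mul_one, ← hroot, sub_self]
    rcases mul_eq_zero.1 this with h | h
    · exact absurd h hroot0
    · exact sub_eq_zero.1 h
  exact_mod_cast h5

/-- Two positive poles exclude a finite rich composition that is a code. -/
theorem no_rich_of_two_poles {X : Set (List A)} (T : Finset A) {w : A → ℝ} (hw : ∀ a, 0 ≤ w a)
    {p q : List A} (hp : p ∈ star X)
    (hq : q ∈ star X) (hreset : ∀ z, p ++ z ++ q ∈ factors (star X) → z ∈ star X)
    (c N : Polynomial ℝ)
    (hc : (c.map (algebraMap ℝ ℂ) : PowerSeries ℂ) *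
      PowerSeries.mk (fun n => wsum T w n (fun z => if z ∈ star X then 1 else 0)) =
      (N.map (algebraMap ℝ ℂ) : PowerSeries ℂ))
    {s t : ℝ} (hs : 0 < s) (hst : s < t) (hcs : c.eval s = 0) (hct : c.eval t = 0)
    (hNs : N.eval s ≠ 0) (hNt : N.eval t ≠ 0) :
    ¬ HasRichCode X := by
  rintro ⟨Y, hYf, hYX, hcode, hrich⟩
  have hfs := finite_states hYf
  have hft : Fintype (St Y) := Fintype.ofFinite _
  obtain ⟨w1, hw1, l, κ, hrep⟩ := rep hcode (nil_mem_star Y)
  simp only [List.append_nil] at hrep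
  have hwX : w1 ∈ star X := star_subset_star hYX hw1
  have hf : (fun z => if z ∈ star X then (1 : ℂ) else 0) =
      (fun z => (l ᵥ* MW Y p) ⬝ᵥ (MW Y z *ᵥ (MW Y q *ᵥ κ))) := by
    funext z
    have h1 : (l ᵥ* MW Y p) ⬝ᵥ (MW Y z *ᵥ (MW Y q *ᵥ κ)) =
        l ⬝ᵥ (MW Y (p ++ z ++ q) *ᵥ κ) := by
      rw [← Matrix.dotProduct_mulVec, Matrix.mulVec_mulVec, Matrix.mulVec_mulVec, ← MW_append,
        ← MW_append]
    rw [h1, ← hrep]
    congr 1
    rw [eq_iff_iff, hrich]
    constructor
    · intro hz
      exact mem_factors_self (star_append (star_append hwX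
        (star_append (star_append hp hz) hq)) hwX)
    · rintro ⟨a, b, hab⟩
      refine hreset z ⟨a ++ w1, w1 ++ b, ?_⟩
      simpa using hab
  simp only [hf] at hc
  have hc' : (c.map (algebraMap ℝ ℂ) : PowerSeries ℂ) * PowerSeries.mk (fun n =>
      (l ᵥ* MW Y p) ⬝ᵥ ((TM Y T (fun a => (w a : ℂ))) ^ n *ᵥ (MW Y q *ᵥ κ))) =
      (N.map (algebraMap ℝ ℂ) : PowerSeries ℂ) := by
    rw [← hc]
    congr 1
    ext n
    rw [PowerSeries.coeff_mk, PowerSeries.coeff_mk, wsum_rep]
  have hmap : ∀ (r : Polynomial ℝ) (x : ℝ),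
      (Polynomial.map (algebraMap ℝ ℂ) r).eval ((algebraMap ℝ ℂ) x) =
        (algebraMap ℝ ℂ) (r.eval x) := fun r x => Polynomial.eval_map_algebraMap _ _ |>.trans
          (Polynomial.aeval_algebraMap_apply_eq_algebraMap_eval _ _)
  have hev : ∀ x : ℝ, c.eval x = 0 → N.eval x ≠ 0 → ysum Y T w x = 1 := by
    intro x hx hNx
    apply eigen_aux
    apply pole_aux _ _ _ _ _ hc'
    · have := hmap c x
      rw [hx, map_zero] at this
      exact this
    · have := hmap N x
      intro h0
      apply hNx
      have h2 : (algebraMap ℝ ℂ) (N.eval x) = 0 := by rw [← this]; exact h0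
      exact (map_eq_zero _).1 h2
  have h1 := hev s hcs hNs
  have h2 := hev t hct hNt
  have h3 := ysum_le (Y := Y) T hw hs hst.le
  rw [h1, h2, mul_one] at h3
  have h4 : s / t < 1 := (div_lt_one (hs.trans hst)).2 hst
  linarith

end RCP
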