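import Pool.Agent.RCP.Basic

namespace RCP

open scoped Classical

variable {A : Type*}

/-- `X` consists of powers of letters. -/
def Pow (X : Set (List A)) : Prop := ∀ x ∈ X, ∃ a m, x = List.replicate m a

theorem Pow.isolated {X : Set (List A)} (h : Pow X) (a : A) : Isolated X a := by
  intro x hx ha
  obtain ⟨c, m, rfl⟩ := h x hx
  rw [List.eq_of_mem_replicate ha]
  exact ⟨m, rfl⟩

theorem expo_dvd {X : Set (List A)} {x : A} {d : ℕ} (h : ∀ m, List.replicate m x ∈ X → d ∣ m) :
    ∀ m ∈ expo X x, d ∣ m := by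
  rintro m ⟨l, hl, hfl⟩
  induction l generalizing m with
  | nil =>
    have := congrArg List.length hfl
    simp at this
    rw [← this]
    exact dvd_zero _
  | cons w l ih =>
    rw [List.flatten_cons, List.append_eq_replicate_iff] at hfl
    obtain ⟨h1, h2, h3⟩ := hfl
    rw [← h1]
    refine dvd_add (h _ ?_) (ih _ (fun y hy => hl y (by simp [hy])) h3)
    rw [← h2]
    exact hl w (by simp)

theorem isCode_of_dec {Y : Set (List A)} (h0 : [] ∉ Y)
    (hdec : ∀ y ∈ Y, ∀ y' ∈ Y, ∀ s ∈ star Y, ∀ s' ∈ star Y, y ++ s = y' ++ s' → y = y') :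
    IsCode Y := by
  intro l
  induction l with
  | nil =>
    intro l' _ hl' hfl
    rcases l' with _ | ⟨y, l'⟩
    · rfl
    · exfalso
      have hy := hl' y (by simp)
      have : y = [] := by
        rw [List.flatten_nil, List.flatten_cons] at hfl
        exact (List.append_eq_nil_iff.1 hfl.symm).1
      exact h0 (this ▸ hy)
  | cons y l ih =>
    intro l' hl hl' hfl
    rcases l' with _ | ⟨y', l'⟩
    · exfalso
      have hy := hl y (by simp)
      have : y = [] := by
        rw [List.flatten_nil, List.flatten_cons] at hfl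
        exact (List.append_eq_nil_iff.1 hfl).1
      exact h0 (this ▸ hy)
    · have h1 : ∀ z ∈ l, z ∈ Y := fun z hz => hl z (by simp [hz])
      have h2 : ∀ z ∈ l', z ∈ Y := fun z hz => hl' z (by simp [hz])
      rw [List.flatten_cons, List.flatten_cons] at hfl
      have := hdec y (hl y (by simp)) y' (hl' y' (by simp)) l.flatten ⟨l, h1, rfl⟩
        l'.flatten ⟨l', h2, rfl⟩ hfl
      subst this
      rw [ih l' h1 h2 (List.append_cancel_left hfl)]

/-- Length of the leading run of `b`. -/
noncomputable def lead (b : A) : List A → ℕ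
  | [] => 0
  | x :: u => if x = b then lead b u + 1 else 0

theorem lead_rep (b : A) (m : ℕ) (u : List A) :
    lead b (List.replicate m b ++ u) = m + lead b u := by
  induction m with
  | zero => simp
  | succ m ih =>
    rw [List.replicate_succ, List.cons_append, lead, if_pos rfl, ih]
    omega

theorem lead_rep_ne {x b : A} (h : x ≠ b) {m : ℕ} (hm : 0 < m) (u : List A) :
    lead b (List.replicate m x ++ u) = 0 := by
  obtain ⟨i, rfl⟩ : ∃ i, m = i + 1 := ⟨m - 1, by omega⟩
  rw [List.replicate_succ, List.cons_append, lead, if_neg h]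

theorem exists_lead (b : A) (u : List A) :
    ∃ v, u = List.replicate (lead b u) b ++ v ∧ (v = [] ∨ ∃ x v', v = x :: v' ∧ x ≠ b) := by
  induction u with
  | nil => exact ⟨[], by simp [lead], Or.inl rfl⟩
  | cons x u ih =>
    by_cases h : x = b
    · subst h
      obtain ⟨v, hv, hv'⟩ := ih
      refine ⟨v, ?_, hv'⟩
      rw [lead, if_pos rfl, List.replicate_succ, List.cons_append, ← hv]
    · refine ⟨x :: u, ?_, Or.inr ⟨x, u, rfl, h⟩⟩
      rw [lead, if_neg h]
      simp

theorem lead_mem_expo {X : Set (List A)} (hX : Pow X) (a : A) {s : List A} (hs : s ∈ star X) :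
    lead a s ∈ expo X a := by
  obtain ⟨v, hv, hv'⟩ := exists_lead a s
  rcases Nat.eq_zero_or_pos (lead a s) with h0 | h0
  · rw [h0]; exact (expo X a).zero_mem
  · rcases hv' with rfl | ⟨x, v', rfl, hx⟩
    · rw [List.append_nil] at hv
      rw [mem_expo, ← hv]
      exact hs
    · rw [hv] at hs
      exact ((rep_cons_mem (hX.isolated a) hx h0).1 hs).1

/-- Decomposition of a nonempty product. -/
theorem first_run {X : Set (List A)} (hX : Pow X) {t : List A} (ht : t ∈ star X) (hne : t ≠ []) :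
    ∃ x m t', 0 < m ∧ m ∈ expo X x ∧ t' ∈ star X ∧ t = List.replicate m x ++ t' ∧
      t'.head? ≠ some x ∧ t'.length < t.length ∧ t.head? = some x := by
  rcases t with _ | ⟨x, t0⟩
  · exact absurd rfl hne
  · have hlead : 0 < lead x (x :: t0) := by rw [lead, if_pos rfl]; omega
    have hmem := lead_mem_expo hX x ht
    obtain ⟨v, hv, hv'⟩ := exists_lead x (x :: t0)
    refine ⟨x, lead x (x :: t0), v, hlead, hmem, ?_, hv, ?_, ?_, rfl⟩
    · rcases hv' with rfl | ⟨y, v', rfl, hy⟩
      · exact nil_mem_star X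
      · rw [hv] at ht
        exact ((rep_cons_mem (hX.isolated x) hy hlead).1 ht).2
    · rcases hv' with rfl | ⟨y, v', rfl, hy⟩
      · simp
      · simpa using hy
    · have := congrArg List.length hv
      rw [List.length_append, List.length_replicate] at this
      omega

/-- The nonzero least elements of the residue classes modulo `n x`. -/
def Ap (X : Set (List A)) (n : A → ℕ) (x : A) : Set ℕ :=
  {w | w ∈ expo X x ∧ n x < w ∧ w - n x ∉ expo X x}

theorem ap_dec {X : Set (List A)} {n : A → ℕ} {x : A} (h0 : 0 < n x) 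
    (hmin : ∀ m ∈ expo X x, 0 < m → n x ≤ m) :
    ∀ m ∈ expo X x, ∃ q, m = q * n x ∨ ∃ w ∈ Ap X n x, m = q * n x + w := by
  intro m
  induction m using Nat.strong_induction_on with
  | _ m ih =>
    intro hm
    rcases Nat.eq_zero_or_pos m with rfl | hpos
    · exact ⟨0, Or.inl (by simp)⟩
    · have hle := hmin m hm hpos
      by_cases hsub : m - n x ∈ expo X x
      · obtain ⟨q, hq⟩ := ih (m - n x) (by omega) hsub
        refine ⟨q + 1, ?_⟩
        rcases hq with hq | ⟨w, hw, hq⟩
        · left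
          rw [Nat.add_mul, Nat.one_mul]
          omega
        · right
          refine ⟨w, hw, ?_⟩
          rw [Nat.add_mul, Nat.one_mul]
          omega
      · have hlt : n x < m := by
          rcases Nat.lt_or_ge (n x) m with h | h
          · exact h
          · have : m = n x := le_antisymm h hle
            rw [this, Nat.sub_self] at hsub
            exact absurd (expo X x).zero_mem hsub
        exact ⟨0, Or.inr ⟨m, ⟨hm, hlt, hsub⟩, by simp⟩⟩

theorem ap_finite {X : Set (List A)} {n : A → ℕ} {x : A} (hn : n x ∈ expo X x) :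
    (Ap X n x).Finite := by
  obtain ⟨N, hN⟩ := Nat.exists_mem_closure_of_ge (expo X x : Set ℕ)
  rw [AddSubmonoid.closure_eq] at hN
  refine (Set.finite_Iio (N + n x)).subset ?_
  rintro w ⟨hw, hlt, hsub⟩
  by_contra hcon
  rw [Set.mem_Iio, not_lt] at hcon
  refine hsub (hN _ (by omega) ?_)
  exact (Nat.dvd_sub (Nat.setGcd_dvd_of_mem hw) (Nat.setGcd_dvd_of_mem hn))

theorem red_eq {Q : Set ℕ} {n : ℕ} (hQ : ∀ q ∈ Q, ∀ q' ∈ Q, ∀ k, 1 ≤ k → q' ≠ q + k * n)
    {q q' i j : ℕ} (hq : q ∈ Q) (hq' : q' ∈ Q) (h : q + i * n = q' + j * n) : q = q' := by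
  rcases lt_trichotomy i j with hij | hij | hij
  · exfalso
    obtain ⟨d, rfl⟩ := Nat.exists_eq_add_of_lt hij
    refine hQ q' hq' q hq (d + 1) (by omega) ?_
    have : (i + d + 1) * n = i * n + (d + 1) * n := by ring
    omega
  · subst hij
    omega
  · exfalso
    obtain ⟨d, rfl⟩ := Nat.exists_eq_add_of_lt hij
    refine hQ q hq q' hq' (d + 1) (by omega) ?_
    have : (j + d + 1) * n = j * n + (d + 1) * n := by ring
    omega

/-- The composition. -/
def YY (X : Set (List A)) (B : Set A) (n : A → ℕ) (a b : A) : Set (List A) :=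
  {y | y = List.replicate (n b) b ∨
    (∃ x ∈ B, x ≠ b ∧ ∃ q ∈ insert 0 (Ap X n b), y = List.replicate (n x) x ++ List.replicate q b) ∨
    (∃ w ∈ Ap X n a, ∃ x ∈ B, x ≠ a ∧ x ≠ b ∧ ∃ q ∈ insert 0 (Ap X n b),
      y = List.replicate w a ++ (List.replicate (n x) x ++ List.replicate q b)) ∨
    (∃ w ∈ Ap X n a, ∃ q ∈ insert (n b) (Ap X n b),
      y = List.replicate w a ++ List.replicate q b)}

theorem YY_finite {X : Set (List A)} {B : Set A} {n : A → ℕ} {a b : A} (hB : B.Finite)
    (ha : n a ∈ expo X a) (hb : n b ∈ expo X b) : (YY X B n a b).Finite := by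
  have hV : (Ap X n b).Finite := ap_finite hb
  have hW : (Ap X n a).Finite := ap_finite ha
  have h1 : ((fun p : A × ℕ => List.replicate (n p.1) p.1 ++ List.replicate p.2 b) ''
      (B ×ˢ (insert 0 (Ap X n b)))).Finite := (hB.prod (hV.insert 0)).image _
  have h2 : ((fun p : ℕ × (A × ℕ) => List.replicate p.1 a ++ (List.replicate (n p.2.1) p.2.1 ++
      List.replicate p.2.2 b)) '' ((Ap X n a) ×ˢ (B ×ˢ (insert 0 (Ap X n b))))).Finite :=
    (hW.prod (hB.prod (hV.insert 0))).image _
  have h3 : ((fun p : ℕ × ℕ => List.replicate p.1 a ++ List.replicate p.2 b) ''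
      ((Ap X n a) ×ˢ (insert (n b) (Ap X n b)))).Finite := (hW.prod (hV.insert _)).image _
  refine (((Set.finite_singleton (List.replicate (n b) b)).union h1).union (h2.union h3)).subset ?_
  rintro y (rfl | ⟨x, hx, _, q, hq, rfl⟩ | ⟨w, hw, x, hx, _, _, q, hq, rfl⟩ | ⟨w, hw, q, hq, rfl⟩)
  · exact Or.inl (Or.inl rfl)
  · exact Or.inl (Or.inr ⟨(x, q), ⟨hx, hq⟩, rfl⟩)
  · exact Or.inr (Or.inl ⟨(w, x, q), ⟨hw, hx, hq⟩, rfl⟩)
  · exact Or.inr (Or.inr ⟨(w, q), ⟨hw, hq⟩, rfl⟩)

end RCP
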