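import Pool.Agent.RCP.Pos

namespace RCP

open scoped Classical

variable {A : Type*}

/-- Standing assumptions on the least exponents. -/
structure Dat (X : Set (List A)) (B : Set A) (n : A → ℕ) (a b : A) : Prop where
  pow : Pow X
  fin : B.Finite
  ha : a ∈ B
  hb : b ∈ B
  hab : a ≠ b
  pos : ∀ x ∈ B, 0 < n x
  mem : ∀ x ∈ B, n x ∈ expo X x
  least : ∀ x ∈ B, ∀ m ∈ expo X x, 0 < m → n x ≤ m
  occ : ∀ x m, m ∈ expo X x → 0 < m → x ∈ B
  tame : ∀ x ∈ B, x ≠ a → x ≠ b → ∀ m ∈ expo X x, n x ∣ m

variable {X : Set (List A)} {B : Set A} {n : A → ℕ} {a b : A}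

theorem YY_sub (h : Dat X B n a b) : YY X B n a b ⊆ star X := by
  have hq0 : ∀ q ∈ insert 0 (Ap X n b), q ∈ expo X b := by
    rintro q (rfl | hq)
    · exact (expo X b).zero_mem
    · exact hq.1
  have hq1 : ∀ q ∈ insert (n b) (Ap X n b), q ∈ expo X b := by
    rintro q (rfl | hq)
    · exact h.mem b h.hb
    · exact hq.1
  rintro y (rfl | ⟨x, hx, _, q, hq, rfl⟩ | ⟨w, hw, x, hx, _, _, q, hq, rfl⟩ | ⟨w, hw, q, hq, rfl⟩)
  · exact h.mem b h.hb
  · exact star_append (h.mem x hx) (hq0 q hq)
  · exact star_append hw.1 (star_append (h.mem x hx) (hq0 q hq))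
  · exact star_append hw.1 (hq1 q hq)

theorem lead_b_dvd (h : Dat X B n a b) : ∀ s ∈ star (YY X B n a b), n b ∣ lead b s := by
  refine star_cons_induction ?_ ?_
  · rw [lead]; exact dvd_zero _
  · rintro y (rfl | ⟨x, hx, hxb, q, hq, rfl⟩ | ⟨w, hw, x, hx, _, _, q, hq, rfl⟩ |
      ⟨w, hw, q, hq, rfl⟩) v _ hv
    · rw [lead_rep]
      exact dvd_add dvd_rfl hv
    · rw [List.append_assoc, lead_rep_ne hxb (h.pos x hx)]
      exact dvd_zero _
    · have : 0 < w := lt_of_le_of_lt (Nat.zero_le _) hw.2.1
      rw [List.append_assoc, lead_rep_ne h.hab this]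
      exact dvd_zero _
    · have : 0 < w := lt_of_le_of_lt (Nat.zero_le _) hw.2.1
      rw [List.append_assoc, lead_rep_ne h.hab this]
      exact dvd_zero _

theorem sep0 (h : Dat X B n a b) : ∀ q ∈ insert 0 (Ap X n b), ∀ q' ∈ insert 0 (Ap X n b), ∀ k,
    1 ≤ k → q' ≠ q + k * n b := by
  intro q hq q' hq' k hk heq
  have hnb := h.pos b h.hb
  have hqe : q ∈ expo X b := by
    rcases hq with rfl | hq
    · exact (expo X b).zero_mem
    · exact hq.1
  obtain ⟨k', rfl⟩ : ∃ k', k = k' + 1 := ⟨k - 1, by omega⟩
  rw [Nat.add_mul, Nat.one_mul] at heq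
  rcases hq' with rfl | hq'
  · omega
  · apply hq'.2.2
    have : q' - n b = q + k' * n b := by omega
    rw [this]
    refine (expo X b).add_mem hqe ?_
    have := (expo X b).nsmul_mem (h.mem b h.hb) k'
    simpa using this

theorem sep1 (h : Dat X B n a b) : ∀ q ∈ insert (n b) (Ap X n b),
    ∀ q' ∈ insert (n b) (Ap X n b), ∀ k, 1 ≤ k → q' ≠ q + k * n b := by
  intro q hq q' hq' k hk heq
  have hnb := h.pos b h.hb
  have hqe : q ∈ expo X b := by
    rcases hq with rfl | hq
    · exact h.mem b h.hb
    · exact hq.1
  have hq0 : 0 < q := by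
    rcases hq with rfl | hq
    · exact hnb
    · exact lt_of_le_of_lt (Nat.zero_le _) hq.2.1
  obtain ⟨k', rfl⟩ : ∃ k', k = k' + 1 := ⟨k - 1, by omega⟩
  rw [Nat.add_mul, Nat.one_mul] at heq
  rcases hq' with rfl | hq'
  · omega
  · apply hq'.2.2
    have : q' - n b = q + k' * n b := by omega
    rw [this]
    refine (expo X b).add_mem hqe ?_
    have := (expo X b).nsmul_mem (h.mem b h.hb) k'
    simpa using this

theorem cmp_b (h : Dat X B n a b) {Q : Set ℕ}
    (hQ : ∀ q ∈ Q, ∀ q' ∈ Q, ∀ k, 1 ≤ k → q' ≠ q + k * n b) {q q' : ℕ} (hq : q ∈ Q) (hq' : q' ∈ Q)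
    {s s' : List A} (hs : s ∈ star (YY X B n a b)) (hs' : s' ∈ star (YY X B n a b))
    (heq : List.replicate q b ++ s = List.replicate q' b ++ s') : q = q' := by
  obtain ⟨i, hi⟩ := lead_b_dvd h s hs
  obtain ⟨j, hj⟩ := lead_b_dvd h s' hs'
  have h1 := congrArg (lead b) heq
  rw [lead_rep, lead_rep, hi, hj, Nat.mul_comm (n b) i, Nat.mul_comm (n b) j] at h1
  exact red_eq hQ hq hq' h1

theorem head_rep {x : A} {m : ℕ} (hm : 0 < m) (u : List A) :
    (List.replicate m x ++ u).head? = some x := by
  obtain ⟨i, rfl⟩ : ∃ i, m = i + 1 := ⟨m - 1, by omega⟩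
  rw [List.replicate_succ, List.cons_append, List.head?_cons]

theorem lead_of_head {x y : A} (h : x ≠ y) {u : List A} (hu : u.head? = some x) :
    lead y u = 0 := by
  rcases u with _ | ⟨z, u⟩
  · rfl
  · rw [List.head?_cons] at hu
    rw [lead, if_neg]
    intro h'
    simp at hu
    exact h (hu.symm.trans h')

theorem cmp_x (h : Dat X B n a b) {x x' : A} (hx : x ∈ B) (hx' : x' ∈ B)
    {q q' : ℕ} (hq : q ∈ insert 0 (Ap X n b)) (hq' : q' ∈ insert 0 (Ap X n b))
    {s s' : List A} (hs : s ∈ star (YY X B n a b)) (hs' : s' ∈ star (YY X B n a b))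
    (heq : (List.replicate (n x) x ++ List.replicate q b) ++ s =
      (List.replicate (n x') x' ++ List.replicate q' b) ++ s') : x = x' ∧ q = q' := by
  rw [List.append_assoc, List.append_assoc] at heq
  have h1 := congrArg List.head? heq
  rw [head_rep (h.pos x hx), head_rep (h.pos x' hx')] at h1
  have h2 : x = x' := by simpa using h1
  subst h2
  exact ⟨rfl, cmp_b h (sep0 h) hq hq' hs hs' (List.append_cancel_left heq)⟩

/-- Lead of the second kind of words. -/
theorem cmp_II_a (h : Dat X B n a b) {x : A} (hx : x ∈ B)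
    {q : ℕ} (hq : q ∈ insert 0 (Ap X n b))
    {s : List A} (hs : s ∈ star (YY X B n a b)) {w : ℕ} (hw : w ∈ Ap X n a) {u : List A}
    {c : A} (hc : c ≠ a) (hu : u.head? = some c)
    (heq : (List.replicate (n x) x ++ List.replicate q b) ++ s = List.replicate w a ++ u) :
    False := by
  have hw0 : 0 < w := lt_of_le_of_lt (Nat.zero_le _) hw.2.1
  rw [List.append_assoc] at heq
  have h1 := congrArg List.head? heq
  rw [head_rep (h.pos x hx), head_rep hw0] at h1
  have h2 : x = a := by simpa using h1
  subst h2
  have h3 := congrArg (lead x) heq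
  rw [lead_rep, lead_rep, lead_of_head hc hu, Nat.add_zero] at h3
  rcases hq with rfl | hq
  · rw [List.replicate_zero, List.nil_append] at h3
    apply hw.2.2
    have h4 : w - n x = lead x s := by omega
    rw [h4]
    exact lead_mem_expo h.pow x (star_subset_star (YY_sub h) hs)
  · have hq0 : 0 < q := lt_of_le_of_lt (Nat.zero_le _) hq.2.1
    rw [lead_rep_ne h.hab.symm hq0, Nat.add_zero] at h3
    have := hw.2.1
    omega

theorem cmp_w {a : A} {w w' : ℕ} {u u' : List A}
    {c c' : A} (hc : c ≠ a) (hu : u.head? = some c) (hc' : c' ≠ a) (hu' : u'.head? = some c')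
    (heq : List.replicate w a ++ u = List.replicate w' a ++ u') : w = w' ∧ u = u' := by
  have h3 := congrArg (lead a) heq
  rw [lead_rep, lead_rep, lead_of_head hc hu, lead_of_head hc' hu', Nat.add_zero,
    Nat.add_zero] at h3
  subst h3
  exact ⟨rfl, List.append_cancel_left heq⟩

theorem YY_code (h : Dat X B n a b) : IsCode (YY X B n a b) := by
  have hnb := h.pos b h.hb
  have hq1 : ∀ q ∈ insert (n b) (Ap X n b), 0 < q := by
    rintro q (rfl | hq)
    · exact hnb
    · exact lt_of_le_of_lt (Nat.zero_le _) hq.2.1
  have hWpos : ∀ w ∈ Ap X n a, 0 < w := fun w hw => lt_of_le_of_lt (Nat.zero_le _) hw.2.1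
  refine isCode_of_dec ?_ ?_
  · rintro (h0 | ⟨x, hx, _, q, hq, h0⟩ | ⟨w, hw, x, hx, _, _, q, hq, h0⟩ | ⟨w, hw, q, hq, h0⟩)
    · have := congrArg List.length h0
      simp at this; omega
    · have h1 := congrArg List.length h0
      have h2 := h.pos x hx
      simp at h1; omega
    · have h1 := congrArg List.length h0
      have h2 := hWpos w hw
      simp at h1; omega
    · have h1 := congrArg List.length h0
      have h2 := hWpos w hw
      simp at h1; omega
  · -- a one-sided comparison relation, used twice
    intro y hy y' hy' s hs s' hs' heq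
    rcases hy with rfl | ⟨x, hx, hxb, q, hq, rfl⟩ | ⟨w, hw, x, hx, hxa, hxb, q, hq, rfl⟩ |
      ⟨w, hw, q, hq, rfl⟩
    · -- first kind
      have hhead := congrArg List.head? heq
      rw [head_rep hnb] at hhead
      rcases hy' with rfl | ⟨x', hx', hxb', q', hq', rfl⟩ |
        ⟨w', hw', x', hx', hxa', hxb', q', hq', rfl⟩ | ⟨w', hw', q', hq', rfl⟩
      · rfl
      · rw [List.append_assoc, head_rep (h.pos x' hx')] at hhead
        exact absurd (by simpa using hhead.symm) hxb'
      · rw [List.append_assoc, head_rep (hWpos w' hw')] at hhead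
        exact absurd (by simpa using hhead.symm) h.hab
      · rw [List.append_assoc, head_rep (hWpos w' hw')] at hhead
        exact absurd (by simpa using hhead.symm) h.hab
    · -- second kind
      rcases hy' with rfl | ⟨x', hx', hxb', q', hq', rfl⟩ |
        ⟨w', hw', x', hx', hxa', hxb', q', hq', rfl⟩ | ⟨w', hw', q', hq', rfl⟩
      · have hhead := congrArg List.head? heq
        rw [head_rep hnb, List.append_assoc, head_rep (h.pos x hx)] at hhead
        exact absurd (by simpa using hhead) hxb
      · obtain ⟨h1, h2⟩ := cmp_x h hx hx' hq hq' hs hs' heq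
        rw [h1, h2]
      · exfalso
        rw [List.append_assoc (List.replicate w' a)] at heq
        exact cmp_II_a h hx hq hs hw' hxa'
          (by rw [List.append_assoc]; exact head_rep (h.pos x' hx') _) heq
      · exfalso
        rw [List.append_assoc (List.replicate w' a)] at heq
        exact cmp_II_a h hx hq hs hw' h.hab.symm (head_rep (hq1 q' hq') _) heq
    · -- third kind
      rcases hy' with rfl | ⟨x', hx', hxb', q', hq', rfl⟩ |
        ⟨w', hw', x', hx', hxa', hxb', q', hq', rfl⟩ | ⟨w', hw', q', hq', rfl⟩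
      · have hhead := congrArg List.head? heq
        rw [head_rep hnb, List.append_assoc, head_rep (hWpos w hw)] at hhead
        exact absurd (by simpa using hhead) h.hab
      · exfalso
        rw [List.append_assoc (List.replicate w a)] at heq
        exact cmp_II_a h hx' hq' hs' hw hxa
          (by rw [List.append_assoc]; exact head_rep (h.pos x hx) _) heq.symm
      · rw [List.append_assoc (List.replicate w a), List.append_assoc (List.replicate w' a)] at heq
        obtain ⟨h1, h2⟩ := cmp_w hxa
          (by rw [List.append_assoc]; exact head_rep (h.pos x hx) _) hxa'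
          (by rw [List.append_assoc]; exact head_rep (h.pos x' hx') _) heq
        obtain ⟨h3, h4⟩ := cmp_x h hx hx' hq hq' hs hs' h2
        rw [h1, h3, h4]
      · exfalso
        rw [List.append_assoc (List.replicate w a), List.append_assoc (List.replicate w' a)] at heq
        obtain ⟨h1, h2⟩ := cmp_w hxa
          (by rw [List.append_assoc]; exact head_rep (h.pos x hx) _) h.hab.symm
          (head_rep (hq1 q' hq') _) heq
        have hhead := congrArg List.head? h2
        rw [head_rep (hq1 q' hq'), List.append_assoc, head_rep (h.pos x hx)] at hhead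
        exact hxb (by simpa using hhead)
    · -- fourth kind
      rcases hy' with rfl | ⟨x', hx', hxb', q', hq', rfl⟩ |
        ⟨w', hw', x', hx', hxa', hxb', q', hq', rfl⟩ | ⟨w', hw', q', hq', rfl⟩
      · have hhead := congrArg List.head? heq
        rw [head_rep hnb, List.append_assoc, head_rep (hWpos w hw)] at hhead
        exact absurd (by simpa using hhead) h.hab
      · exfalso
        rw [List.append_assoc (List.replicate w a)] at heq
        exact cmp_II_a h hx' hq' hs' hw h.hab.symm (head_rep (hq1 q hq) _) heq.symm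
      · exfalso
        rw [List.append_assoc (List.replicate w a), List.append_assoc (List.replicate w' a)] at heq
        obtain ⟨h1, h2⟩ := cmp_w h.hab.symm (head_rep (hq1 q hq) _) hxa'
          (by rw [List.append_assoc]; exact head_rep (h.pos x' hx') _) heq
        have hhead := congrArg List.head? h2
        rw [head_rep (hq1 q hq), List.append_assoc, head_rep (h.pos x' hx')] at hhead
        exact hxb' (by simpa using hhead.symm)
      · rw [List.append_assoc (List.replicate w a), List.append_assoc (List.replicate w' a)] at heq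
        obtain ⟨h1, h2⟩ := cmp_w h.hab.symm (head_rep (hq1 q hq) _) h.hab.symm
          (head_rep (hq1 q' hq') _) heq
        have h3 := cmp_b h (sep1 h) hq hq' hs hs' h2
        rw [h1, h3]

/-- Words that can be completed on the right to products. -/
def EE (Y : Set (List A)) : Set (List A) := {e | ∃ s, e ++ s ∈ star Y}

theorem EE_nil (Y : Set (List A)) : [] ∈ EE Y := ⟨[], by simpa using nil_mem_star Y⟩

theorem EE_append {Y : Set (List A)} {y e : List A} (hy : y ∈ Y) (he : e ∈ EE Y) :
    y ++ e ∈ EE Y := by
  obtain ⟨s, hs⟩ := he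
  exact ⟨s, by rw [List.append_assoc]; exact star_append (mem_star_of_mem hy) hs⟩

/-- Completable words, possibly after an initial power of `b`. -/
def DD (X : Set (List A)) (B : Set A) (n : A → ℕ) (a b : A) : Set (List A) :=
  {d | d ∈ EE (YY X B n a b) ∨ ∃ v ∈ Ap X n b, ∃ e ∈ EE (YY X B n a b), d = List.replicate v b ++ e}

theorem P1 (h : Dat X B n a b) {x : A} (hx : x ∈ B) (hxb : x ≠ b) {d : List A}
    (hd : d ∈ DD X B n a b) : List.replicate (n x) x ++ d ∈ EE (YY X B n a b) := by
  rcases hd with hd | ⟨v, hv, e, he, rfl⟩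
  · refine EE_append (Or.inr (Or.inl ⟨x, hx, hxb, 0, Or.inl rfl, ?_⟩)) hd
    simp
  · rw [← List.append_assoc]
    exact EE_append (Or.inr (Or.inl ⟨x, hx, hxb, v, Or.inr hv, rfl⟩)) he

theorem P1' (h : Dat X B n a b) {x : A} (hx : x ∈ B) (hxb : x ≠ b) {d : List A}
    (hd : d ∈ DD X B n a b) (q : ℕ) :
    List.replicate ((q + 1) * n x) x ++ d ∈ EE (YY X B n a b) := by
  induction q with
  | zero => simpa using P1 h hx hxb hd
  | succ q ih =>
    have h1 : (q + 1 + 1) * n x = n x + (q + 1) * n x := by ring
    rw [h1, ← List.replicate_append_replicate, List.append_assoc]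
    exact P1 h hx hxb (Or.inl ih)

theorem Pb {e : List A}
    (he : e ∈ EE (YY X B n a b)) (q : ℕ) :
    List.replicate (q * n b) b ++ e ∈ EE (YY X B n a b) := by
  induction q with
  | zero => simpa using he
  | succ q ih =>
    have h1 : (q + 1) * n b = n b + q * n b := by ring
    rw [h1, ← List.replicate_append_replicate, List.append_assoc]
    exact EE_append (Or.inl rfl) ih

theorem Pa (h : Dat X B n a b) {e : List A}
    (he : e ∈ EE (YY X B n a b)) (q : ℕ) :
    List.replicate (q * n a) a ++ e ∈ EE (YY X B n a b) := by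
  rcases q with _ | q
  · simpa using he
  · exact P1' h h.ha h.hab (Or.inl he) q

theorem claims (h : Dat X B n a b) : ∀ N, ∀ t : List A, t.length < N → t ∈ star X →
    t ∈ DD X B n a b ∧ (t.head? ≠ some b → t ∈ EE (YY X B n a b)) ∧
    (t.head? ≠ some a → ∀ w ∈ Ap X n a, List.replicate w a ++ t ∈ EE (YY X B n a b)) := by
  intro N
  induction N with
  | zero => intro t ht; omega
  | succ N ih =>
    intro t htN ht
    by_cases hne : t = []
    · subst hne
      refine ⟨Or.inl (EE_nil _), fun _ => EE_nil _, fun _ w hw => ?_⟩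
      refine ⟨List.replicate (n b) b, ?_⟩
      rw [List.append_nil]
      exact mem_star_of_mem (Or.inr (Or.inr (Or.inr ⟨w, hw, n b, Or.inl rfl, rfl⟩)))
    · obtain ⟨x, m, t', hm, hmem, ht', rfl, hhd, hlen, hhead⟩ := first_run h.pow ht hne
      obtain ⟨ih1, ih2, ih3⟩ := ih t' (by omega) ht'
      have hxB := h.occ x m hmem hm
      by_cases hxb : x = b
      · subst hxb
        have he' := ih2 hhd
        obtain ⟨q, hq⟩ := ap_dec (h.pos x hxB) (h.least x hxB) m hmem
        rcases hq with hq | ⟨v, hv, hq⟩
        · have hE : List.replicate m x ++ t' ∈ EE (YY X B n a x) := by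
            rw [hq]; exact Pb he' q
          refine ⟨Or.inl hE, fun _ => hE, fun _ w hw => ?_⟩
          obtain ⟨q', rfl⟩ : ∃ q', q = q' + 1 := by
            refine ⟨q - 1, ?_⟩
            rcases q with _ | q
            · simp at hq; omega
            · omega
          have h1 : (q' + 1) * n x = n x + q' * n x := by ring
          rw [hq, h1, ← List.replicate_append_replicate, List.append_assoc, ← List.append_assoc]
          exact EE_append (Or.inr (Or.inr (Or.inr ⟨w, hw, n x, Or.inl rfl, rfl⟩))) (Pb he' q')
        · have h1 : List.replicate m x ++ t' =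
              List.replicate v x ++ (List.replicate (q * n x) x ++ t') := by
            rw [hq, Nat.add_comm, ← List.replicate_append_replicate, List.append_assoc]
          refine ⟨Or.inr ⟨v, hv, _, Pb he' q, h1⟩, fun h' => absurd hhead h', fun _ w hw => ?_⟩
          rw [h1, ← List.append_assoc]
          exact EE_append (Or.inr (Or.inr (Or.inr ⟨w, hw, v, Or.inr hv, rfl⟩))) (Pb he' q)
      · by_cases hxa : x = a
        · subst hxa
          have hE : List.replicate m x ++ t' ∈ EE (YY X B n x b) := by
            obtain ⟨q, hq⟩ := ap_dec (h.pos x hxB) (h.least x hxB) m hmem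
            rcases hq with hq | ⟨w, hw, hq⟩
            · obtain ⟨q', rfl⟩ : ∃ q', q = q' + 1 := by
                refine ⟨q - 1, ?_⟩
                rcases q with _ | q
                · simp at hq; omega
                · omega
              rw [hq]
              exact P1' h hxB hxb ih1 q'
            · rw [hq, ← List.replicate_append_replicate, List.append_assoc]
              exact Pa h (ih3 hhd w hw) q
          exact ⟨Or.inl hE, fun _ => hE, fun h' => absurd hhead h'⟩
        · obtain ⟨q, hq⟩ := h.tame x hxB hxa hxb m hmem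
          obtain ⟨q', rfl⟩ : ∃ q', q = q' + 1 := by
            refine ⟨q - 1, ?_⟩
            rcases q with _ | q
            · simp at hq; omega
            · omega
          have hq2 : m = (q' + 1) * n x := by rw [hq, Nat.mul_comm]
          have hE : List.replicate m x ++ t' ∈ EE (YY X B n a b) := by
            rw [hq2]; exact P1' h hxB hxb ih1 q'
          refine ⟨Or.inl hE, fun _ => hE, fun _ w hw => ?_⟩
          rcases q' with _ | q'
          · have hq3 : m = n x := by rw [hq2]; simp
            rw [hq3]
            rcases ih1 with hd | ⟨v, hv, e, he, rfl⟩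
            · rw [← List.append_assoc]
              refine EE_append (Or.inr (Or.inr (Or.inl
                ⟨w, hw, x, hxB, hxa, hxb, 0, Or.inl rfl, ?_⟩))) hd
              simp
            · have h1 : List.replicate w a ++ (List.replicate (n x) x ++
                  (List.replicate v b ++ e)) = (List.replicate w a ++ (List.replicate (n x) x ++
                  List.replicate v b)) ++ e := by simp
              rw [h1]
              exact EE_append (Or.inr (Or.inr (Or.inl
                ⟨w, hw, x, hxB, hxa, hxb, v, Or.inr hv, rfl⟩))) he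
          · have h1 : (q' + 1 + 1) * n x = n x + (q' + 1) * n x := by ring
            rw [hq2, h1, ← List.replicate_append_replicate, List.append_assoc,
              ← List.append_assoc]
            refine EE_append (Or.inr (Or.inr (Or.inl
              ⟨w, hw, x, hxB, hxa, hxb, 0, Or.inl rfl, ?_⟩))) (P1' h hxB hxb ih1 q')
            simp

theorem YY_rich (h : Dat X B n a b) :
    factors (star (YY X B n a b)) = factors (star X) := by
  apply Set.Subset.antisymm
  · rintro v ⟨u, w, huw⟩
    exact ⟨u, w, star_subset_star (YY_sub h) huw⟩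
  · rintro v ⟨u, w, huw⟩
    have h1 := (claims h _ _ (Nat.lt_succ_self _) huw).1
    rcases h1 with ⟨s, hs⟩ | ⟨v', hv', e, ⟨s, hs⟩, heq⟩
    · exact ⟨u, w ++ s, by simpa using hs⟩
    · refine ⟨List.replicate (n a) a ++ u, w ++ s, ?_⟩
      have h2 : List.replicate (n a) a ++ u ++ v ++ (w ++ s) =
          (List.replicate (n a) a ++ List.replicate v' b) ++ (e ++ s) := by
        have : List.replicate (n a) a ++ u ++ v ++ (w ++ s) =
          List.replicate (n a) a ++ (u ++ v ++ w) ++ s := by simp
        rw [this, heq]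
        simp
      rw [h2]
      exact star_append (mem_star_of_mem
        (Or.inr (Or.inl ⟨a, h.ha, h.hab, v', Or.inr hv', rfl⟩))) hs

end RCP
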