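import Pool.Agent.RCP.Prefix

namespace RCP

open scoped Classical

variable {A : Type*} {X : Set (List A)}

theorem state_take {l : List A} {a : A} (h : IsSt X (l ++ [a])) : IsSt X l := by
  rcases h with h | ⟨s, _, hs⟩
  · simp at h
  · exact Or.inr ⟨a :: s, by simp, by simpa using hs⟩

/-- The subset of states reached by `z`. -/
def SX (X : Set (List A)) (z : List A) : Set (List A) :=
  {q | IsSt X q ∧ ∃ x ∈ star X, z = x ++ q}

theorem star_last {w : List A} {a : A} (h : w ++ [a] ∈ star X) :
    ∃ u ∈ star X, ∃ p, p ++ [a] ∈ X ∧ w = u ++ p := by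
  obtain ⟨l, hl, hfl⟩ := h
  induction l using List.reverseRecOn with
  | nil => simp at hfl
  | append_singleton l x ih =>
    have hx := hl x (by simp)
    have hl' : ∀ y ∈ l, y ∈ X := fun y hy => hl y (by simp [hy])
    rw [List.flatten_append, List.flatten_cons, List.flatten_nil, List.append_nil] at hfl
    rcases List.eq_nil_or_concat' x with rfl | ⟨p, b, rfl⟩
    · exact ih hl' (by simpa using hfl)
    · rw [← List.append_assoc] at hfl
      obtain ⟨h1, h2⟩ := List.append_inj' hfl rfl
      simp only [List.cons.injEq, and_true] at h2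
      subst h2
      exact ⟨l.flatten, ⟨l, hl', rfl⟩, p, hx, h1.symm⟩

theorem SX_snoc (z : List A) (a : A) : SX X (z ++ [a]) =
    {q | (q = [] ∧ ∃ p ∈ SX X z, p ++ [a] ∈ X) ∨ ∃ p ∈ SX X z, q = p ++ [a] ∧ IsSt X q} := by
  ext q
  constructor
  · rintro ⟨hq, x, hx, hz⟩
    rcases List.eq_nil_or_concat' q with rfl | ⟨q', b, rfl⟩
    · left
      rw [List.append_nil] at hz
      rw [← hz] at hx
      obtain ⟨u, hu, p, hp, hw⟩ := star_last hx
      exact ⟨rfl, p, ⟨Or.inr ⟨[a], by simp, hp⟩, u, hu, hw⟩, hp⟩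
    · right
      rw [← List.append_assoc] at hz
      obtain ⟨h1, h2⟩ := List.append_inj' hz rfl
      simp only [List.cons.injEq, and_true] at h2
      subst h2
      exact ⟨q', ⟨state_take hq, x, hx, h1⟩, rfl, hq⟩
  · rintro (⟨rfl, p, ⟨_, x, hx, hz⟩, hpa⟩ | ⟨p, ⟨_, x, hx, hz⟩, rfl, hst⟩)
    · refine ⟨Or.inl rfl, x ++ (p ++ [a]), star_append hx (mem_star_of_mem hpa), ?_⟩
      rw [hz]; simp
    · refine ⟨hst, x, hx, ?_⟩
      rw [hz]; simp

theorem SX_append {z z' : List A} (h : SX X z = SX X z') (s : List A) :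
    SX X (z ++ s) = SX X (z' ++ s) := by
  induction s using List.reverseRecOn with
  | nil => simpa using h
  | append_singleton s a ih =>
    rw [← List.append_assoc, ← List.append_assoc, SX_snoc, SX_snoc, ih]

theorem mem_prefs_iff (z : List A) : z ∈ prefs (star X) ↔ (SX X z).Nonempty := by
  constructor
  · rintro ⟨v, l, hl, hfl⟩
    induction l generalizing z with
    | nil =>
      simp only [List.flatten_nil] at hfl
      have h1 := List.append_eq_nil_iff.1 hfl.symm
      rw [h1.1]
      exact ⟨[], Or.inl rfl, [], nil_mem_star X, rfl⟩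
    | cons x l ih =>
      have hx := hl x (by simp)
      have hl' : ∀ y ∈ l, y ∈ X := fun y hy => hl y (by simp [hy])
      rw [List.flatten_cons] at hfl
      rcases List.append_eq_append_iff.1 hfl with ⟨t, ht1, ht2⟩ | ⟨t, ht1, ht2⟩
      · obtain ⟨q, hq, y, hy, hyq⟩ := ih t hl' ht2
        refine ⟨q, hq, x ++ y, star_append (mem_star_of_mem hx) hy, ?_⟩
        rw [ht1, hyq]; simp
      · by_cases ht : t = []
        · subst ht
          rw [List.append_nil] at ht1
          exact ⟨[], Or.inl rfl, z, ht1 ▸ mem_star_of_mem hx, by simp⟩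
        · exact ⟨z, Or.inr ⟨t, ht, ht1 ▸ hx⟩, [], nil_mem_star X, by simp⟩
  · rintro ⟨q, hq, x, hx, hz⟩
    rcases hq with rfl | ⟨s, _, hs⟩
    · exact ⟨[], by rw [hz]; simpa using hx⟩
    · exact ⟨s, by rw [hz, List.append_assoc]; exact star_append hx (mem_star_of_mem hs)⟩

theorem mem_star_iff (z : List A) : z ∈ star X ↔ [] ∈ SX X z := by
  constructor
  · exact fun h => ⟨Or.inl rfl, z, h, by simp⟩
  · rintro ⟨_, x, hx, hz⟩
    rw [hz, List.append_nil]; exact hx

theorem Stab_congr {c c' : List A} (h : SX X c = SX X c') (hc' : c' ≠ []) (hs : Stab X c) :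
    Stab X c' := by
  refine ⟨?_, hc', fun s hs' => ?_⟩
  · rw [mem_star_iff, ← h, ← mem_star_iff]; exact hs.1
  · apply hs.2.2 s
    rw [mem_prefs_iff, SX_append h, ← mem_prefs_iff]
    exact hs'

theorem loop {u t : List A} (hu : u ≠ []) (h : SX X (u ++ t) = SX X u) (k : ℕ) :
    ∀ c, c <+: u ++ (List.replicate k t).flatten → c ≠ [] →
      ∃ c', c' <+: u ++ t ∧ c' ≠ [] ∧ SX X c' = SX X c := by
  induction k with
  | zero =>
    intro c hc hc0
    simp only [List.replicate_zero, List.flatten_nil, List.append_nil] at hc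
    exact ⟨c, hc.trans (List.prefix_append _ _), hc0, rfl⟩
  | succ k ih =>
    intro c hc hc0
    rw [List.replicate_succ, List.flatten_cons, ← List.append_assoc] at hc
    obtain ⟨r, hr⟩ := hc
    rcases List.append_eq_append_iff.1 hr with ⟨d, hd1, hd2⟩ | ⟨d, hd1, hd2⟩
    · exact ⟨c, ⟨d, hd1.symm⟩, hc0, rfl⟩
    · obtain ⟨c', hc', hc'0, hS⟩ := ih (u ++ d) ⟨r, by rw [List.append_assoc, hd2]⟩ (by simp [hu])
      refine ⟨c', hc', hc'0, ?_⟩
      rw [hS, hd1]
      exact (SX_append h d).symm

theorem SX_pow {u t : List A} (h : SX X (u ++ t) = SX X u) (k : ℕ) :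
    SX X (u ++ (List.replicate k t).flatten) = SX X u := by
  induction k with
  | zero => simp
  | succ k ih =>
    rw [List.replicate_succ, List.flatten_cons, ← List.append_assoc, SX_append h, ih]

/-- Subsets of states as finite sets. -/
noncomputable def SF (X : Set (List A)) (Q : Finset (List A)) (z : List A) : Finset (List A) :=
  Q.filter (fun q => q ∈ SX X z)

theorem SF_inj {Q : Finset (List A)} (hQ : ∀ q, IsSt X q → q ∈ Q) {z z' : List A}
    (h : SF X Q z = SF X Q z') : SX X z = SX X z' := by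
  ext q
  constructor
  · intro hq
    have : q ∈ SF X Q z := Finset.mem_filter.2 ⟨hQ q hq.1, hq⟩
    rw [h] at this
    exact (Finset.mem_filter.1 this).2
  · intro hq
    have : q ∈ SF X Q z' := Finset.mem_filter.2 ⟨hQ q hq.1, hq⟩
    rw [← h] at this
    exact (Finset.mem_filter.1 this).2

/-- The explicit bound for the length of the words to be tested. -/
theorem bound_N {Q : Finset (List A)} (hQ : ∀ q, IsSt X q → q ∈ Q) {m : ℕ} (hm : Q.card ≤ m)
    {N : ℕ} (hN : ∀ z ∈ prefs (star X), N ≤ z.length → ∃ c, c <+: z ∧ Stab X c) :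
    ∀ z ∈ prefs (star X), 2 ^ m ≤ z.length → ∃ c, c <+: z ∧ Stab X c := by
  intro z hz hzl
  by_contra hno
  have hcard : (Q.powerset).card < (Finset.range (2 ^ m + 1)).card := by
    rw [Finset.card_powerset, Finset.card_range]
    exact Nat.lt_succ_of_le (Nat.pow_le_pow_right (by norm_num) hm)
  obtain ⟨i, hi, j, hj, hij, hSij⟩ := Finset.exists_ne_map_eq_of_card_lt_of_maps_to hcard
    (f := fun i => SF X Q (z.take i))
    (fun i _ => Finset.mem_powerset.2 (Finset.filter_subset _ _))
  have main : ∀ i j : ℕ, i < j → j < 2 ^ m + 1 → SF X Q (z.take i) = SF X Q (z.take j) →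
      False := by
    intro i j hij hj hSij
    have hS := SF_inj hQ hSij
    set u := z.take i with hu
    set t := (z.drop i).take (j - i) with ht
    have hjl : j ≤ z.length := by omega
    have hut : z.take j = u ++ t := by
      rw [hu, ht]
      have : j = i + (j - i) := by omega
      conv_lhs => rw [this, List.take_add]
    have htne : t ≠ [] := by
      intro h0
      have := congrArg List.length h0
      rw [ht, List.length_take, List.length_drop, List.length_nil] at this
      omega
    rw [hut] at hS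
    have hutz : u ++ t <+: z := hut ▸ List.take_prefix j z
    by_cases hu0 : u = []
    · apply hno
      rw [hu0, List.nil_append] at hS hutz
      refine ⟨t, hutz, ?_, htne, ?_⟩
      · rw [mem_star_iff, ← hS, ← mem_star_iff]; exact nil_mem_star X
      · intro s hs
        rw [mem_prefs_iff, ← SX_append hS, List.nil_append, ← mem_prefs_iff] at hs
        exact hs
    · have huX : u ∈ prefs (star X) := by
        obtain ⟨r, hr⟩ := List.take_prefix i z
        exact prefs_take (v := r) (by rw [hu, hr]; exact hz)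
      set W := u ++ (List.replicate N t).flatten with hW
      have hWX : W ∈ prefs (star X) := by
        rw [mem_prefs_iff, hW, SX_pow hS.symm, ← mem_prefs_iff]
        exact huX
      have hWl : N ≤ W.length := by
        rw [hW, List.length_append, List.length_flatten, List.map_replicate, List.sum_replicate,
          smul_eq_mul]
        have : 0 < t.length := List.length_pos_iff.2 htne
        nlinarith
      obtain ⟨c, hc, hcs⟩ := hN W hWX hWl
      obtain ⟨c', hc', hc'0, hSc⟩ := loop hu0 hS.symm N c hc hcs.2.1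
      exact hno ⟨c', hc'.trans hutz, Stab_congr hSc.symm hc'0 hcs⟩
  rcases Nat.lt_or_gt_of_ne hij with h | h
  · exact main i j h (Finset.mem_range.1 hj) hSij
  · exact main j i h (Finset.mem_range.1 hi) hSij.symm

/-- The explicit bound for the stability test. -/
theorem bound_B {Q : Finset (List A)} (hQ : ∀ q, IsSt X q → q ∈ Q) {m : ℕ} (hm : Q.card ≤ m)
    {c : List A} (hB : ∀ s : List A, s.length ≤ 4 ^ m → c ++ s ∈ prefs (star X) →
      s ∈ prefs (star X)) : ∀ s, c ++ s ∈ prefs (star X) → s ∈ prefs (star X) := by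
  by_contra hcon
  push Not at hcon
  obtain ⟨s0, hs0, hs0'⟩ := hcon
  have hex : ∃ n, ∃ s : List A, s.length = n ∧ c ++ s ∈ prefs (star X) ∧ s ∉ prefs (star X) :=
    ⟨_, s0, rfl, hs0, hs0'⟩
  obtain ⟨s, hsl, hs, hs'⟩ := Nat.find_spec hex
  have hlong : 4 ^ m < s.length := by
    by_contra hlt
    exact hs' (hB s (by omega) hs)
  have hcard : (Q.powerset ×ˢ Q.powerset).card < (Finset.range (4 ^ m + 1)).card := by
    rw [Finset.card_product, Finset.card_powerset, Finset.card_range]
    have h1 : 2 ^ Q.card ≤ 2 ^ m := Nat.pow_le_pow_right (by norm_num) hm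
    have h2 : (4 : ℕ) ^ m = 2 ^ m * 2 ^ m := by
      rw [← mul_pow]
      norm_num
    rw [h2]
    exact Nat.lt_succ_of_le (Nat.mul_le_mul h1 h1)
  obtain ⟨i, hi, j, hj, hij, hSij⟩ := Finset.exists_ne_map_eq_of_card_lt_of_maps_to hcard
    (f := fun i => (SF X Q (c ++ s.take i), SF X Q (s.take i)))
    (fun i _ => Finset.mem_product.2 ⟨Finset.mem_powerset.2 (Finset.filter_subset _ _),
      Finset.mem_powerset.2 (Finset.filter_subset _ _)⟩)
  have main : ∀ i j : ℕ, i < j → j < 4 ^ m + 1 →
      (SF X Q (c ++ s.take i), SF X Q (s.take i)) = (SF X Q (c ++ s.take j), SF X Q (s.take j)) →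
      False := by
    intro i j hij hj hSij
    rw [Prod.mk.injEq] at hSij
    have h1 := SX_append (SF_inj hQ hSij.1) (s.drop j)
    have h2 := SX_append (SF_inj hQ hSij.2) (s.drop j)
    rw [List.append_assoc, List.append_assoc, List.take_append_drop] at h1
    rw [List.take_append_drop] at h2
    have hmin := Nat.find_min' hex ⟨s.take i ++ s.drop j, rfl, by
      rw [mem_prefs_iff, h1, ← mem_prefs_iff]; exact hs, by
      rw [mem_prefs_iff, h2, ← mem_prefs_iff]; exact hs'⟩
    rw [← hsl, List.length_append, List.length_take, List.length_drop] at hmin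
    omega
  rcases Nat.lt_or_gt_of_ne hij with h | h
  · exact main i j h (Finset.mem_range.1 hj) hSij
  · exact main j i h (Finset.mem_range.1 hi) hSij.symm

theorem states_card (X : Finset (List A)) : ∃ Q : Finset (List A),
    (∀ q, IsSt (X : Set (List A)) q → q ∈ Q) ∧ Q.card ≤ 1 + ∑ x ∈ X, x.length := by
  refine ⟨insert [] (X.biUnion (fun x => (Finset.range x.length).image (fun i => x.take i))),
    ?_, ?_⟩
  · rintro q (rfl | ⟨s, hs, hqs⟩)
    · exact Finset.mem_insert_self _ _
    · refine Finset.mem_insert_of_mem (Finset.mem_biUnion.2 ⟨q ++ s, by simpa using hqs, ?_⟩)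
      refine Finset.mem_image.2 ⟨q.length, ?_, by simp⟩
      rw [Finset.mem_range, List.length_append]
      have : 0 < s.length := List.length_pos_iff.2 hs
      omega
  · refine (Finset.card_insert_le _ _).trans ?_
    rw [add_comm]
    refine Nat.add_le_add_left ?_ 1
    refine Finset.card_biUnion_le.trans (Finset.sum_le_sum (fun x _ => ?_))
    exact Finset.card_image_le.trans (by rw [Finset.card_range])

/-- A finite test for the existence of a finite rich prefix code. -/
theorem prefix_dec (X : Finset (List A)) (m : ℕ) (hm : m = 1 + ∑ x ∈ X, x.length) :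
    (∃ Y : Set (List A), Y.Finite ∧ Y ⊆ star (X : Set (List A)) ∧ IsPrefixCode Y ∧
      factors (star Y) = factors (star (X : Set (List A)))) ↔
    ∀ z ∈ prefs (star (X : Set (List A))), z.length = 2 ^ m →
      ∃ c ∈ star (X : Set (List A)), c ≠ [] ∧ c <+: z ∧ ∀ s : List A, s.length ≤ 4 ^ m →
        c ++ s ∈ prefs (star (X : Set (List A))) → s ∈ prefs (star (X : Set (List A))) := by
  obtain ⟨Q, hQ, hQm⟩ := states_card X
  rw [← hm] at hQm
  rw [prefix_iff X.finite_toSet]
  constructor
  · rintro ⟨N, hN⟩ z hz hzl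
    obtain ⟨c, hc, hcs⟩ := bound_N hQ hQm hN z hz (by omega)
    exact ⟨c, hcs.1, hcs.2.1, hc, fun s _ hs => hcs.2.2 s hs⟩
  · intro h
    refine ⟨2 ^ m, fun z hz hzl => ?_⟩
    obtain ⟨r, hr⟩ := List.take_prefix (2 ^ m) z
    have hz' : z.take (2 ^ m) ∈ prefs (star (X : Set (List A))) :=
      prefs_take (v := r) (by rw [hr]; exact hz)
    obtain ⟨c, hc, hc0, hcz, hcB⟩ := h _ hz' (by rw [List.length_take]; omega)
    exact ⟨c, hcz.trans ⟨r, hr⟩, hc, hc0, bound_B hQ hQm hcB⟩

end RCP
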