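import Pool.Agent.RCP.Auto

namespace RCP

open Matrix
open scoped Classical

theorem ker_aux {n : Type*} [Fintype n] (B C : Matrix n n ℂ)
    (h : C.rank ≤ (B * C).rank) (v : n → ℂ) (hv : (B * C) *ᵥ v = 0) : C *ᵥ v = 0 := by
  have hle : LinearMap.ker C.mulVecLin ≤ LinearMap.ker (B * C).mulVecLin := by
    intro v hv
    rw [LinearMap.mem_ker, Matrix.mulVecLin_apply] at *
    rw [← Matrix.mulVec_mulVec, hv, Matrix.mulVec_zero]
  have h1 := LinearMap.finrank_range_add_finrank_ker C.mulVecLin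
  have h2 := LinearMap.finrank_range_add_finrank_ker (B * C).mulVecLin
  have h3 : LinearMap.ker C.mulVecLin = LinearMap.ker (B * C).mulVecLin :=
    Submodule.eq_of_le_of_finrank_le hle (by unfold Matrix.rank at h; omega)
  have : v ∈ LinearMap.ker (B * C).mulVecLin := by
    rw [LinearMap.mem_ker, Matrix.mulVecLin_apply]; exact hv
  rw [← h3, LinearMap.mem_ker, Matrix.mulVecLin_apply] at this
  exact this

theorem finite01 (n : Type*) [Finite n] :
    {g : Matrix n n ℂ | ∀ i j, g i j = 0 ∨ g i j = 1}.Finite := by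
  have hfin : Finite (n → n → Bool) := inferInstance
  refine (Set.finite_range
    (fun f : n → n → Bool => (Matrix.of fun i j => if f i j then (1 : ℂ) else 0))).subset ?_
  intro g hg
  refine ⟨fun i j => decide (g i j = 1), ?_⟩
  ext i j
  rcases hg i j with h | h <;> simp [h]

variable {A : Type*} {Y : Set (List A)} [Fintype (St Y)]

theorem exists_min_rank (hcode : IsCode Y) :
    ∃ z0, MW Y z0 ≠ 0 ∧ ∀ z, MW Y z ≠ 0 → (MW Y z0).rank ≤ (MW Y z).rank := by
  have hex : ∃ n, ∃ z, MW Y z ≠ 0 ∧ (MW Y z).rank = n := by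
    refine ⟨_, [], ?_, rfl⟩
    rw [MW_ne_zero_iff hcode]
    exact mem_factors_self (nil_mem_star Y)
  obtain ⟨z0, hz0, hr⟩ := Nat.find_spec hex
  refine ⟨z0, hz0, fun z hz => ?_⟩
  rw [hr]
  exact Nat.find_min' hex ⟨z, hz, rfl⟩

/-- The finite left cancellative semigroup of matrices of words `w z w`. -/
theorem core (hcode : IsCode Y) {w0 : List A} (hw0 : w0 ∈ star Y) :
    ∃ w1 ∈ star Y, ∃ Gf : Finset (Matrix (St Y) (St Y) ℂ),
      (∀ g, g ∈ Gf ↔ (∃ z, g = MW Y ((w1 ++ w0) ++ z ++ (w1 ++ w0))) ∧ g ≠ 0) ∧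
      (∀ g ∈ Gf, ∀ a ∈ Gf, g * a ∈ Gf) ∧
      (∀ g ∈ Gf, ∀ a ∈ Gf, ∀ b ∈ Gf, g * a = g * b → a = b) := by
  obtain ⟨z0, hz0, hmin⟩ := exists_min_rank hcode
  obtain ⟨u, v, huv⟩ := (MW_ne_zero_iff hcode z0).1 hz0
  refine ⟨u ++ z0 ++ v, huv, ?_⟩
  set w := u ++ z0 ++ v ++ w0 with hw
  have hwS : w ∈ star Y := star_append huv hw0
  have hwne : MW Y w (root Y) (root Y) ≠ 0 := star_root hcode _ hwS
  have hrank : ∀ z, MW Y z ≠ 0 → (MW Y w).rank ≤ (MW Y z).rank := by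
    intro z hz
    refine le_trans ?_ (hmin z hz)
    rw [hw, MW_append, MW_append, MW_append]
    refine le_trans (Matrix.rank_mul_le_left _ _) ?_
    refine le_trans (Matrix.rank_mul_le_left _ _) ?_
    exact Matrix.rank_mul_le_right _ _
  clear_value w
  have hsq : ∀ v, MW Y w *ᵥ (MW Y w *ᵥ v) = 0 → MW Y w *ᵥ v = 0 := by
    intro v hv
    refine ker_aux (MW Y w) (MW Y w) ?_ v (by rw [← Matrix.mulVec_mulVec]; exact hv)
    rw [← MW_append]
    refine hrank _ ?_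
    intro h0
    have := star_root hcode _ (star_append hwS hwS)
    rw [h0] at this
    simp at this
  -- the finite set of matrices
  set G : Set (Matrix (St Y) (St Y) ℂ) := {g | (∃ z, g = MW Y (w ++ z ++ w)) ∧ g ≠ 0} with hG
  have hGfin : G.Finite := by
    refine (finite01 (St Y)).subset ?_
    rintro g ⟨⟨z, rfl⟩, _⟩ i j
    exact (entries hcode _ i j).1
  have hinj : ∀ g ∈ G, ∀ v, g *ᵥ (MW Y w *ᵥ v) = 0 → MW Y w *ᵥ v = 0 := by
    rintro g ⟨⟨z, rfl⟩, hg⟩ v hv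
    apply hsq
    have hr := hrank _ hg
    rw [MW_append] at hr hv
    exact ker_aux (MW Y (w ++ z)) (MW Y w) hr _ hv
  have hcancel : ∀ g ∈ G, ∀ a ∈ G, ∀ b ∈ G, g * a = g * b → a = b := by
    rintro g hg a ⟨⟨z, rfl⟩, _⟩ b ⟨⟨z', rfl⟩, _⟩ hab
    refine Matrix.ext_of_mulVec_single (fun i => ?_)
    have h1 : g *ᵥ (MW Y (w ++ z ++ w) *ᵥ Pi.single i 1 - MW Y (w ++ z' ++ w) *ᵥ Pi.single i 1) = 0 := by
      rw [Matrix.mulVec_sub, Matrix.mulVec_mulVec, Matrix.mulVec_mulVec, hab, sub_self]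
    have h2 : MW Y (w ++ z ++ w) *ᵥ Pi.single i 1 - MW Y (w ++ z' ++ w) *ᵥ Pi.single i 1 =
        MW Y w *ᵥ (MW Y (z ++ w) *ᵥ Pi.single i 1 - MW Y (z' ++ w) *ᵥ Pi.single i 1) := by
      rw [Matrix.mulVec_sub, Matrix.mulVec_mulVec, Matrix.mulVec_mulVec, ← MW_append, ← MW_append,
        List.append_assoc, List.append_assoc]
    rw [h2] at h1
    have h3 := hinj g hg _ h1
    rw [← h2] at h3
    exact sub_eq_zero.1 h3
  have hmul : ∀ g ∈ G, ∀ a ∈ G, g * a ∈ G := by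
    rintro g ⟨⟨z, rfl⟩, hg⟩ a ⟨⟨z', rfl⟩, ha⟩
    refine ⟨⟨z ++ w ++ w ++ z', by rw [← MW_append]; simp⟩, ?_⟩
    intro h0
    apply ha
    refine Matrix.ext_of_mulVec_single (fun i => ?_)
    have h1 : MW Y (w ++ z ++ w) *ᵥ (MW Y (w ++ z' ++ w) *ᵥ Pi.single i 1) = 0 := by
      rw [Matrix.mulVec_mulVec, h0, Matrix.zero_mulVec]
    have h2 : MW Y (w ++ z' ++ w) *ᵥ Pi.single i 1 =
        MW Y w *ᵥ (MW Y (z' ++ w) *ᵥ Pi.single i 1) := by
      rw [Matrix.mulVec_mulVec, ← MW_append, List.append_assoc]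
    rw [h2] at h1 ⊢
    rw [hinj _ ⟨⟨z, rfl⟩, hg⟩ _ h1, Matrix.zero_mulVec]
  have hmem : ∀ g, g ∈ hGfin.toFinset ↔ g ∈ G := fun g => by simp
  refine ⟨hGfin.toFinset, fun g => hmem g, ?_, ?_⟩
  · intro g hg a ha
    rw [hmem] at hg ha ⊢
    exact hmul g hg a ha
  · intro g hg a ha b hb hab
    rw [hmem] at hg ha hb
    exact hcancel g hg a ha b hb hab

/-- The indicator of `w z w` being a factor is a rational function of `z`, of the form given by
the matrices of the words. -/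
theorem rep (hcode : IsCode Y) {w0 : List A} (hw0 : w0 ∈ star Y) :
    ∃ w1 ∈ star Y, ∃ l κ : St Y → ℂ, ∀ z,
      (if (w1 ++ w0) ++ z ++ (w1 ++ w0) ∈ factors (star Y) then (1 : ℂ) else 0) =
        l ⬝ᵥ (MW Y z *ᵥ κ) := by
  obtain ⟨w1, hw1, Gf, hmem, hmul, hcancel⟩ := core hcode hw0
  refine ⟨w1, hw1, ?_⟩
  have hwS : w1 ++ w0 ∈ star Y := star_append hw1 hw0
  generalize w1 ++ w0 = w at hmem hwS
  set π : Matrix (St Y) (St Y) ℂ := ∑ g ∈ Gf, g with hπ
  have hgπ : ∀ g ∈ Gf, g * π = π := by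
    intro g hg
    have himg : Gf.image (fun a => g * a) = Gf := by
      refine Finset.eq_of_subset_of_card_le ?_ ?_
      · intro x hx
        rw [Finset.mem_image] at hx
        obtain ⟨a, ha, rfl⟩ := hx
        exact hmul g hg a ha
      · rw [Finset.card_image_of_injOn]
        intro a ha b hb hab
        exact hcancel g hg a ha b hb hab
    rw [hπ, Finset.mul_sum]
    conv_rhs => rw [← himg]
    rw [Finset.sum_image]
    intro a ha b hb hab
    exact hcancel g hg a ha b hb hab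
  have hπrr : π (root Y) (root Y) ≠ 0 := by
    have h1 : π (root Y) (root Y) =
        ((Gf.filter (fun g => g (root Y) (root Y) = 1)).card : ℂ) := by
      rw [hπ, Matrix.sum_apply, Finset.card_eq_sum_ones, Nat.cast_sum, Finset.sum_filter]
      refine Finset.sum_congr rfl (fun g hg => ?_)
      rw [hmem] at hg
      obtain ⟨⟨z, rfl⟩, _⟩ := hg
      rcases (entries hcode (w ++ z ++ w) (root Y) (root Y)).1 with h | h <;> rw [h] <;> simp
    rw [h1]
    have hww : MW Y (w ++ w ++ w) (root Y) (root Y) ≠ 0 :=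
      star_root hcode _ (star_append (star_append hwS hwS) hwS)
    have hin : MW Y (w ++ w ++ w) ∈ Gf.filter (fun g => g (root Y) (root Y) = 1) := by
      rw [Finset.mem_filter, hmem]
      refine ⟨⟨⟨w, rfl⟩, ?_⟩, ?_⟩
      · intro h0; rw [h0] at hww; simp at hww
      · rcases (entries hcode (w ++ w ++ w) (root Y) (root Y)).1 with h | h
        · exact absurd h hww
        · exact h
    exact_mod_cast (Finset.card_pos.2 ⟨_, hin⟩).ne'
  -- the representation
  refine ⟨(π (root Y) (root Y))⁻¹ • (MW Y w (root Y)), MW Y w *ᵥ (fun i => π i (root Y)), ?_⟩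
  intro z
  have hval : (MW Y w (root Y)) ⬝ᵥ (MW Y z *ᵥ (MW Y w *ᵥ (fun i => π i (root Y)))) =
      (MW Y (w ++ z ++ w) * π) (root Y) (root Y) := by
    rw [MW_append, MW_append, Matrix.mulVec_mulVec, Matrix.mul_assoc, Matrix.mul_assoc,
      Matrix.mul_apply']
    congr 1
    funext i
    rw [Matrix.mulVec, ← Matrix.mul_assoc, Matrix.mul_apply']
  rw [smul_dotProduct, hval, smul_eq_mul]
  by_cases hz : MW Y (w ++ z ++ w) = 0
  · rw [if_neg, hz, Matrix.zero_mul]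
    · simp
    · rw [← MW_ne_zero_iff hcode]
      simpa using hz
  · rw [if_pos ((MW_ne_zero_iff hcode _).1 hz), hgπ _ ((hmem _).2 ⟨⟨z, rfl⟩, hz⟩)]
    exact (inv_mul_cancel₀ hπrr).symm

theorem mem_star_of_root (hcode : IsCode Y) {v : List A} (h : MW Y v (root Y) (root Y) ≠ 0) :
    v ∈ star Y := by
  obtain ⟨l, hl, hfl, _⟩ := (entries hcode v (root Y) (root Y)).2 h
  refine ⟨l, hl, ?_⟩
  simpa [root] using hfl.symm

/-- Recurrence: there is a product `w` of words of `Y` such that whenever `w z w` is a factor of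
a product of words of `Y`, some word `(w z w) ^ (k + 1) w w w` is a product of words of `Y`. -/
theorem recur (hcode : IsCode Y) : ∃ w ∈ star Y, ∀ z, w ++ z ++ w ∈ factors (star Y) →
    ∃ k, (List.replicate (k + 1) (w ++ z ++ w)).flatten ++ (w ++ w ++ w) ∈ star Y := by
  obtain ⟨w1, hw1, Gf, hmem, hmul, hcancel⟩ := core hcode (nil_mem_star Y)
  refine ⟨w1, hw1, ?_⟩
  simp only [List.append_nil] at hmem
  intro z hz
  set x := MW Y (w1 ++ z ++ w1) with hx
  have hxG : x ∈ Gf := (hmem x).2 ⟨⟨z, rfl⟩, (MW_ne_zero_iff hcode _).2 hz⟩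
  have hpow : ∀ k, x ^ (k + 1) ∈ Gf := by
    intro k
    induction k with
    | zero => simpa using hxG
    | succ k ih =>
      rw [pow_succ']
      exact hmul x hxG _ ih
  -- two powers coincide
  obtain ⟨i, j, hij, hpij⟩ : ∃ i j, i < j ∧ x ^ (i + 1) = x ^ (j + 1) := by
    have hninj : ¬ Function.Injective (fun k : ℕ => (⟨x ^ (k + 1), hpow k⟩ : Gf)) :=
      not_injective_infinite_finite _
    rw [Function.Injective] at hninj
    push Not at hninj
    obtain ⟨i, j, h1, h2⟩ := hninj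
    have h3 : x ^ (i + 1) = x ^ (j + 1) := congrArg Subtype.val h1
    rcases Nat.lt_or_gt_of_ne h2 with h | h
    · exact ⟨i, j, h, h3⟩
    · exact ⟨j, i, h, h3.symm⟩
  obtain ⟨d, rfl⟩ := Nat.exists_eq_add_of_lt hij
  -- then `x ^ (d + 1)` is a left identity
  have hid : ∀ g ∈ Gf, x ^ (d + 1) * g = g := by
    intro g hg
    refine hcancel (x ^ (i + 1)) (hpow i) _ (hmul _ (hpow d) _ hg) _ hg ?_
    rw [← Matrix.mul_assoc, ← pow_add]
    have h4 : i + 1 + (d + 1) = i + d + 1 + 1 := by ring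
    rw [h4, ← hpij]
  have hrep : ∀ k, MW Y (List.replicate k (w1 ++ z ++ w1)).flatten = x ^ k := by
    intro k
    induction k with
    | zero => simp [MW_nil]
    | succ k ih =>
      rw [List.replicate_succ, List.flatten_cons, MW_append, ih, pow_succ', hx]
  have hww : MW Y (w1 ++ w1 ++ w1) (root Y) (root Y) ≠ 0 :=
    star_root hcode _ (star_append (star_append hw1 hw1) hw1)
  have hwwG : MW Y (w1 ++ w1 ++ w1) ∈ Gf :=
    (hmem _).2 ⟨⟨w1, rfl⟩, fun h0 => by rw [h0] at hww; simp at hww⟩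
  refine ⟨d, mem_star_of_root hcode ?_⟩
  rw [MW_append, hrep, hid _ hwwG]
  exact hww

/-- Two kernel vectors in the image are dependent when the defect is at most one. -/
theorem dep_aux {V F : Type*} [AddCommGroup V] [Module ℂ V] [FiniteDimensional ℂ V]
    [AddCommGroup F] [Module ℂ F] (Ψ : V →ₗ[ℂ] F) (τ : V →ₗ[ℂ] V) (R : F →ₗ[ℂ] F)
    (hR : ∀ v, R (Ψ v) = Ψ (τ v)) (e : V) (he : LinearMap.range τ ⊔ Submodule.span ℂ {e} = ⊤)
    {D1 D2 : F} (h1 : D1 ∈ LinearMap.range Ψ) (h2 : D2 ∈ LinearMap.range Ψ)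
    (hR1 : R D1 = 0) (hR2 : R D2 = 0) :
    ∃ s t : ℂ, (s ≠ 0 ∨ t ≠ 0) ∧ s • D1 + t • D2 = 0 := by
  set W := LinearMap.range Ψ with hW
  have hmap : ∀ x ∈ W, R x ∈ W := by
    rintro x ⟨v, rfl⟩
    rw [hR]
    exact ⟨_, rfl⟩
  set RW : W →ₗ[ℂ] W := R.restrict hmap with hRW
  have hsup : LinearMap.range RW ⊔ Submodule.span ℂ {(⟨Ψ e, ⟨e, rfl⟩⟩ : W)} = ⊤ := by
    rw [eq_top_iff]
    rintro ⟨x, v, rfl⟩ _
    have hv : v ∈ LinearMap.range τ ⊔ Submodule.span ℂ {e} := by rw [he]; trivial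
    obtain ⟨a, ⟨b, rfl⟩, c, hc, rfl⟩ := Submodule.mem_sup.1 hv
    obtain ⟨k, rfl⟩ := Submodule.mem_span_singleton.1 hc
    refine Submodule.mem_sup.2 ⟨⟨Ψ (τ b), ⟨_, rfl⟩⟩, ⟨⟨Ψ b, ⟨b, rfl⟩⟩, ?_⟩,
      ⟨Ψ (k • e), ⟨_, rfl⟩⟩, ?_, ?_⟩
    · apply Subtype.ext
      rw [hRW, LinearMap.coe_restrict_apply]
      exact hR b
    · rw [Submodule.mem_span_singleton]
      refine ⟨k, Subtype.ext ?_⟩
      simp
    · apply Subtype.ext
      simp
  have hfr := LinearMap.finrank_range_add_finrank_ker RW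
  have h3 : Module.finrank ℂ W ≤ Module.finrank ℂ (LinearMap.range RW) + 1 := by
    have := Submodule.finrank_add_le_finrank_add_finrank (LinearMap.range RW)
      (Submodule.span ℂ {(⟨Ψ e, ⟨e, rfl⟩⟩ : W)})
    rw [hsup, finrank_top] at this
    refine this.trans ?_
    have := finrank_span_le_card (R := ℂ) ({(⟨Ψ e, ⟨e, rfl⟩⟩ : W)} : Set W)
    simp at this
    omega
  have h4 : Module.finrank ℂ (LinearMap.ker RW) ≤ 1 := by omega
  obtain ⟨v, hv⟩ := finrank_le_one_iff.1 h4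
  have hk1 : (⟨D1, h1⟩ : W) ∈ LinearMap.ker RW := by
    rw [LinearMap.mem_ker]
    apply Subtype.ext
    rw [hRW, LinearMap.coe_restrict_apply]
    exact hR1
  have hk2 : (⟨D2, h2⟩ : W) ∈ LinearMap.ker RW := by
    rw [LinearMap.mem_ker]
    apply Subtype.ext
    rw [hRW, LinearMap.coe_restrict_apply]
    exact hR2
  obtain ⟨c1, hc1⟩ := hv ⟨_, hk1⟩
  obtain ⟨c2, hc2⟩ := hv ⟨_, hk2⟩
  have hd1 : c1 • ((v : W) : F) = D1 := by
    have := congrArg (fun x : LinearMap.ker RW => ((x : W) : F)) hc1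
    simpa using this
  have hd2 : c2 • ((v : W) : F) = D2 := by
    have := congrArg (fun x : LinearMap.ker RW => ((x : W) : F)) hc2
    simpa using this
  by_cases hc : c1 = 0
  · refine ⟨1, 0, Or.inl one_ne_zero, ?_⟩
    rw [← hd1, hc]; simp
  · refine ⟨c2, -c1, Or.inr (neg_ne_zero.2 hc), ?_⟩
    rw [← hd1, ← hd2, smul_smul, smul_smul, ← add_smul]
    have : c2 * c1 + -c1 * c2 = 0 := by ring
    rw [this, zero_smul]

end RCP
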