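import Pool.Agent.RCP.Rep

namespace RCP

open Matrix
open scoped Classical

/-- The natural numbers inside the complex numbers. -/
def NN : Subsemiring ℂ := (Nat.castRingHom ℂ).rangeS

theorem mem_NN {x : ℂ} : x ∈ NN ↔ ∃ n : ℕ, (n : ℂ) = x := by
  unfold NN
  rw [RingHom.mem_rangeS]
  rfl

theorem NN_of_01 {x : ℂ} (h : x = 0 ∨ x = 1) : x ∈ NN := by
  rcases h with rfl | rfl
  · exact NN.zero_mem
  · exact NN.one_mem

variable {A : Type*} {Y : Set (List A)} [Fintype (St Y)]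

theorem MW_NN (hcode : IsCode Y) (z : List A) (p q : St Y) : MW Y z p q ∈ NN :=
  NN_of_01 (entries hcode z p q).1

theorem mulVec_NN (hcode : IsCode Y) (z : List A) {κ : St Y → ℂ} (h : ∀ i, κ i ∈ NN) (i : St Y) :
    (MW Y z *ᵥ κ) i ∈ NN :=
  NN.sum_mem (fun j _ => NN.mul_mem (MW_NN hcode z i j) (h j))

theorem vecMul_NN (hcode : IsCode Y) (z : List A) {l : St Y → ℂ} (h : ∀ i, l i ∈ NN) (i : St Y) :
    (l ᵥ* MW Y z) i ∈ NN :=
  NN.sum_mem (fun j _ => NN.mul_mem (h j) (MW_NN hcode z j i))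

/-- The representation with natural coefficients. -/
theorem rep_nat (hcode : IsCode Y) :
    ∃ w ∈ star Y, ∃ c : ℕ, c ≠ 0 ∧ ∃ l κ : St Y → ℂ, (∀ i, l i ∈ NN) ∧ (∀ i, κ i ∈ NN) ∧ ∀ z,
      (if w ++ z ++ w ∈ factors (star Y) then (c : ℂ) else 0) = l ⬝ᵥ (MW Y z *ᵥ κ) := by
  obtain ⟨w, hwS, Gf, hmem, hmul, hcancel⟩ := core hcode (nil_mem_star Y)
  simp only [List.append_nil] at hmem
  refine ⟨w, hwS, ?_⟩
  set π : Matrix (St Y) (St Y) ℂ := ∑ g ∈ Gf, g with hπ
  have hgπ : ∀ g ∈ Gf, g * π = π := by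
    intro g hg
    have himg : Gf.image (fun a => g * a) = Gf := by
      refine Finset.eq_of_subset_of_card_le ?_ ?_
      · intro x hx
        rw [Finset.mem_image] at hx
        obtain ⟨a, ha, rfl⟩ := hx
        exact hmul g hg a ha
      · rw [Finset.card_image_of_injOn]
        intro a ha b hb hab
        exact hcancel g hg a ha b hb hab
    rw [hπ, Finset.mul_sum]
    conv_rhs => rw [← himg]
    rw [Finset.sum_image]
    intro a ha b hb hab
    exact hcancel g hg a ha b hb hab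
  have h1 : π (root Y) (root Y) =
      ((Gf.filter (fun g => g (root Y) (root Y) = 1)).card : ℂ) := by
    rw [hπ, Matrix.sum_apply, Finset.card_eq_sum_ones, Nat.cast_sum, Finset.sum_filter]
    refine Finset.sum_congr rfl (fun g hg => ?_)
    rw [hmem] at hg
    obtain ⟨⟨z, rfl⟩, _⟩ := hg
    rcases (entries hcode (w ++ z ++ w) (root Y) (root Y)).1 with h | h <;> rw [h] <;> simp
  have hcard : (Gf.filter (fun g => g (root Y) (root Y) = 1)).card ≠ 0 := by
    have hww : MW Y (w ++ w ++ w) (root Y) (root Y) ≠ 0 :=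
      star_root hcode _ (star_append (star_append hwS hwS) hwS)
    have hin : MW Y (w ++ w ++ w) ∈ Gf.filter (fun g => g (root Y) (root Y) = 1) := by
      rw [Finset.mem_filter, hmem]
      refine ⟨⟨⟨w, rfl⟩, ?_⟩, ?_⟩
      · intro h0; rw [h0] at hww; simp at hww
      · rcases (entries hcode (w ++ w ++ w) (root Y) (root Y)).1 with h | h
        · exact absurd h hww
        · exact h
    exact (Finset.card_pos.2 ⟨_, hin⟩).ne'
  have hπN : ∀ i, π i (root Y) ∈ NN := by
    intro i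
    rw [hπ, Matrix.sum_apply]
    refine NN.sum_mem (fun g hg => ?_)
    rw [hmem] at hg
    obtain ⟨⟨z, rfl⟩, _⟩ := hg
    exact MW_NN hcode _ _ _
  refine ⟨_, hcard, MW Y w (root Y), MW Y w *ᵥ (fun i => π i (root Y)),
    fun i => MW_NN hcode _ _ _, fun i => mulVec_NN hcode w hπN i, ?_⟩
  intro z
  have hval : (MW Y w (root Y)) ⬝ᵥ (MW Y z *ᵥ (MW Y w *ᵥ (fun i => π i (root Y)))) =
      (MW Y (w ++ z ++ w) * π) (root Y) (root Y) := by
    rw [MW_append, MW_append, Matrix.mulVec_mulVec, Matrix.mul_assoc, Matrix.mul_assoc,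
      Matrix.mul_apply']
    congr 1
    funext i
    rw [Matrix.mulVec, ← Matrix.mul_assoc, Matrix.mul_apply']
  rw [hval, ← h1]
  by_cases hz : MW Y (w ++ z ++ w) = 0
  · rw [if_neg, hz, Matrix.zero_mul]
    · simp
    · rw [← MW_ne_zero_iff hcode]
      simpa using hz
  · rw [if_pos ((MW_ne_zero_iff hcode _).1 hz), hgπ _ ((hmem _).2 ⟨⟨z, rfl⟩, hz⟩)]

end RCP
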