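import Pool.Agent.RCP.Pole2
import Pool.Agent.RCP.Pos

namespace RCP

open scoped Classical

variable {A : Type*}

/-- Splitting where no word of `X` can straddle. -/
theorem split_no {X : Set (List A)} {x y : A} (hX : ∀ u v, u ++ x :: y :: v ∉ X)
    {u v : List A} (h : u ++ x :: y :: v ∈ star X) : u ++ [x] ∈ star X ∧ y :: v ∈ star X := by
  obtain ⟨l, hl, hfl⟩ := h
  induction l generalizing u with
  | nil => simp at hfl
  | cons w l ih =>
    have hl' : ∀ y ∈ l, y ∈ X := fun y hy => hl y (by simp [hy])
    have hw := hl w (by simp)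
    rw [List.flatten_cons] at hfl
    have hfl' : w ++ l.flatten = (u ++ [x]) ++ (y :: v) := by rw [hfl]; simp
    rcases List.append_eq_append_iff.1 hfl' with ⟨t, ht1, ht2⟩ | ⟨t, ht1, ht2⟩
    · rcases List.eq_nil_or_concat' t with rfl | ⟨t', z, rfl⟩
      · simp only [List.append_nil, List.nil_append] at ht1 ht2
        exact ⟨ht1 ▸ mem_star_of_mem hw, ⟨l, hl', ht2⟩⟩
      · have hz : z = x := by
          have := congrArg List.getLast? ht1
          simpa using this.symm
        subst hz
        have h2 := ih (u := t') hl' (by rw [ht2]; simp)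
        refine ⟨?_, h2.2⟩
        rw [ht1]
        exact star_append (mem_star_of_mem hw) h2.1
    · rcases t with _ | ⟨z, t'⟩
      · simp only [List.append_nil, List.nil_append] at ht1 ht2
        exact ⟨ht1 ▸ mem_star_of_mem hw, ⟨l, hl', ht2.symm⟩⟩
      · exfalso
        have hz : y = z := by
          have := congrArg List.head? ht2
          simpa using this
        subst hz
        apply hX u t'
        rw [ht1] at hw
        simpa using hw

/-- Sets of words of length one or two. -/
def Short (X : Set (List A)) : Prop :=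
  ∀ x ∈ X, (∃ a, x = [a]) ∨ ∃ a b, x = [a, b]

theorem star_cons_iff {X : Set (List A)} (hX : Short X) {x : A} {z : List A} :
    x :: z ∈ star X ↔ ([x] ∈ X ∧ z ∈ star X) ∨
      ∃ b z', z = b :: z' ∧ [x, b] ∈ X ∧ z' ∈ star X := by
  constructor
  · rintro ⟨l, hl, hfl⟩
    rcases l with _ | ⟨w, l⟩
    · simp at hfl
    · have hl' : ∀ y ∈ l, y ∈ X := fun y hy => hl y (by simp [hy])
      have hw := hl w (by simp)
      rcases hX w hw with ⟨a, rfl⟩ | ⟨a, b, rfl⟩
      · left
        simp only [List.flatten_cons, List.cons_append, List.nil_append, List.cons.injEq] at hfl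
        obtain ⟨rfl, hz⟩ := hfl
        exact ⟨hw, ⟨l, hl', hz⟩⟩
      · right
        simp only [List.flatten_cons, List.cons_append, List.nil_append, List.cons.injEq] at hfl
        obtain ⟨rfl, hz⟩ := hfl
        exact ⟨b, l.flatten, hz.symm, hw, ⟨l, hl', rfl⟩⟩
  · rintro (⟨h1, h2⟩ | ⟨b, z', rfl, h1, h2⟩)
    · exact star_append (mem_star_of_mem h1) h2
    · exact star_append (mem_star_of_mem h1) h2

theorem star_concat {X : Set (List A)} (hX : Short X) {y : A} {w : List A}
    (h : w ++ [y] ∈ star X) (hy : [y] ∉ X) :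
    ∃ w' x, w = w' ++ [x] ∧ [x, y] ∈ X ∧ w' ∈ star X := by
  obtain ⟨l, hl, hfl⟩ := h
  rcases List.eq_nil_or_concat' l with rfl | ⟨l', v, rfl⟩
  · simp at hfl
  · have hl' : ∀ y ∈ l', y ∈ X := fun y hy => hl y (by simp [hy])
    have hv := hl v (by simp)
    rw [List.flatten_append] at hfl
    rcases hX v hv with ⟨a, rfl⟩ | ⟨a, b, rfl⟩
    · exfalso
      have h1 : l'.flatten ++ [a] = w ++ [y] := by simpa using hfl
      have h2 := (List.append_inj' h1 rfl).2
      simp only [List.cons.injEq, and_true] at h2
      exact hy (h2 ▸ hv)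
    · have h1 : (l'.flatten ++ [a]) ++ [b] = w ++ [y] := by simpa using hfl
      obtain ⟨h2, h3⟩ := List.append_inj' h1 rfl
      simp only [List.cons.injEq, and_true] at h3
      subst h3
      exact ⟨l'.flatten, a, h2.symm, hv, ⟨l', hl', rfl⟩⟩

theorem short_no {X : Set (List A)} (hX : Short X) {x y : A} (hxy : [x, y] ∉ X) :
    ∀ u v, u ++ x :: y :: v ∉ X := by
  intro u v huv
  rcases hX _ huv with ⟨a', h1⟩ | ⟨a', b', h1⟩
  · have := congrArg List.length h1
    simp at this
    omega
  · have hlen := congrArg List.length h1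
    simp at hlen
    have hu : u = [] := List.length_eq_zero_iff.1 (by omega)
    have hv : v = [] := List.length_eq_zero_iff.1 (by omega)
    subst hu hv
    simp only [List.nil_append] at huv
    exact hxy huv

theorem left_reset {X : Set (List A)} (hX : Short X) {x y z' : A} (hxy : [x, y] ∉ X)
    (hy : [y] ∉ X) {u z : List A} (h : u ++ x :: y :: z' :: z ∈ star X) : z ∈ star X := by
  have h1 := (split_no (short_no hX hxy) h).2
  rcases (star_cons_iff hX).1 h1 with ⟨h2, _⟩ | ⟨b, w, h2, _, h3⟩
  · exact absurd h2 hy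
  · simp only [List.cons.injEq] at h2
    rw [h2.2]
    exact h3

theorem right_reset {X : Set (List A)} (hX : Short X) {x y z' : A} (hxy : [x, y] ∉ X)
    (hx : [x] ∉ X) {z v : List A} (h : z ++ z' :: x :: y :: v ∈ star X) : z ∈ star X := by
  have h0 : (z ++ [z']) ++ x :: y :: v ∈ star X := by simpa using h
  have h1 := (split_no (short_no hX hxy) h0).1
  obtain ⟨w', x', h2, _, h3⟩ := star_concat hX h1 hx
  rw [(List.append_inj' h2 rfl).1]
  exact h3

end RCP
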