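import Mathlib

/-!
Definitions for the classification of the sets `X ⊆ {1} ∪ D ∪ D²`.
-/

namespace RCP

variable {A : Type*}

/-- The word `d` begins a word of `X`: `d ∈ X`, or `d e ∈ X` for a word `e` of `D`. -/
def BeginsW (D X : Set (List A)) (d : List A) : Prop := d ∈ X ∨ ∃ e ∈ D, d ++ e ∈ X

/-- The word `d` ends a word of `X`: `d ∈ X`, or `e d ∈ X` for a word `e` of `D`. -/
def EndsW (D X : Set (List A)) (d : List A) : Prop := d ∈ X ∨ ∃ e ∈ D, e ++ d ∈ X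

/-- There are words `a, b₁, …, bₖ, c` of `D` with `k ≥ 1`, with `a, c ∈ X` and all `bᵢ ∉ X`, such
that the product of any two consecutive ones is in `X`. -/
def ChainW (D X : Set (List A)) : Prop :=
  ∃ a ∈ D, ∃ c ∈ D, ∃ l : List (List A), a ∈ X ∧ c ∈ X ∧ l ≠ [] ∧ (∀ b ∈ l, b ∈ D ∧ b ∉ X) ∧
    List.IsChain (fun x y => x ++ y ∈ X) (a :: (l ++ [c]))

/-- `x y ∈ X` whenever `x` ends a word of `X`, `y` begins a word of `X` and `y ∉ X`. -/
def FullToRight (D X : Set (List A)) : Prop :=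
  ∀ x ∈ D, ∀ y ∈ D, EndsW D X x → BeginsW D X y → y ∉ X → x ++ y ∈ X

/-- `x y ∈ X` whenever `x` ends a word of `X`, `y` begins a word of `X` and `x ∉ X`. -/
def FullToLeft (D X : Set (List A)) : Prop :=
  ∀ x ∈ D, ∀ y ∈ D, EndsW D X x → BeginsW D X y → x ∉ X → x ++ y ∈ X

end RCP
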