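import Pool.Agent.RCP.ShortPos
import Pool.Agent.RCP.ShortDefs

namespace RCP

open scoped Classical

variable {A : Type*} {D X : Set (List A)}

theorem phi_one (d : ↥D) : phi [d] = d.1 := by simp [phi]

theorem phi_two (d e : ↥D) : phi [d, e] = d.1 ++ e.1 := by simp [phi]

theorem nil_not_mem_code (hD : IsCode D) : [] ∉ D := by
  intro h
  have := hD [[]] [] (by simpa using h) (by simp) (by simp)
  simp at this

theorem star_diff_nil (X : Set (List A)) : star (X \ {[]}) = star X := by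
  apply Set.Subset.antisymm
  · exact star_subset_star (fun x hx => mem_star_of_mem hx.1)
  · refine star_subset_star (fun x hx => ?_)
    by_cases h : x = []
    · rw [h]; exact nil_mem_star _
    · exact mem_star_of_mem ⟨hx, h⟩

theorem rich_diff_nil (X : Set (List A)) : HasRichCode X ↔ HasRichCode (X \ {[]}) := by
  unfold HasRichCode
  rw [star_diff_nil]

theorem code_short_iff (hD : IsCode D) (hfin : X.Finite)
    (hX : ∀ x ∈ X, x = [] ∨ x ∈ D ∨ ∃ d ∈ D, ∃ e ∈ D, x = d ++ e) :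
    HasRichCode X ↔ ¬ ChainW D X ∨ FullToRight D X ∨ FullToLeft D X := by
  have hnil := nil_not_mem_code hD
  set X' := X \ {[]} with hX'
  have hXD : X' ⊆ star D := by
    rintro x ⟨hx, hx0⟩
    rcases hX x hx with h | h | ⟨d, hd, e, he, rfl⟩
    · exact absurd h hx0
    · exact mem_star_of_mem h
    · exact star_append (mem_star_of_mem hd) (mem_star_of_mem he)
  have h1 : HasRichCode X ↔ HasRichCode (pre D X') :=
    (rich_diff_nil X).trans ⟨pre_of_rich hD hXD, rich_of_pre hD hXD⟩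
  have hne : ∀ d : ↥D, d.1 ≠ [] := fun d h => hnil (h ▸ d.2)
  have hone : ∀ d : ↥D, [d] ∈ pre D X' ↔ d.1 ∈ X := by
    intro d
    show phi [d] ∈ X' ↔ _
    rw [phi_one]
    exact ⟨fun h => h.1, fun h => ⟨h, hne d⟩⟩
  have htwo : ∀ d e : ↥D, [d, e] ∈ pre D X' ↔ d.1 ++ e.1 ∈ X := by
    intro d e
    show phi [d, e] ∈ X' ↔ _
    rw [phi_two]
    refine ⟨fun h => h.1, fun h => ⟨h, ?_⟩⟩
    intro h0
    have h0' : d.1 ++ e.1 = [] := h0
    exact hne d (List.append_eq_nil_iff.1 h0').1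
  have hshort : Short (pre D X') := by
    intro z hz
    have hz' : phi z ∈ X' := hz
    rcases hX _ hz'.1 with h | h | ⟨d, hd, e, he, h⟩
    · exact absurd h hz'.2
    · left
      refine ⟨⟨phi z, h⟩, phi_inj hD ?_⟩
      rw [phi_one]
    · right
      refine ⟨⟨d, hd⟩, ⟨e, he⟩, phi_inj hD ?_⟩
      rw [phi_two, h]
  have hpfin : (pre D X').Finite :=
    Set.Finite.preimage ((phi_inj hD).injOn) (hfin.subset Set.diff_subset)
  rw [h1, short_iff hpfin hshort]
  have hbeg : ∀ d : ↥D, Begins (pre D X') d ↔ BeginsW D X d.1 := by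
    intro d
    unfold Begins BeginsW
    rw [hone]
    refine or_congr Iff.rfl ?_
    constructor
    · rintro ⟨e, he⟩
      exact ⟨e.1, e.2, (htwo d e).1 he⟩
    · rintro ⟨e, he, h⟩
      exact ⟨⟨e, he⟩, (htwo d ⟨e, he⟩).2 h⟩
  have hend : ∀ d : ↥D, Ends (pre D X') d ↔ EndsW D X d.1 := by
    intro d
    unfold Ends EndsW
    rw [hone]
    refine or_congr Iff.rfl ?_
    constructor
    · rintro ⟨e, he⟩
      exact ⟨e.1, e.2, (htwo e d).1 he⟩
    · rintro ⟨e, he, h⟩
      exact ⟨⟨e, he⟩, (htwo ⟨e, he⟩ d).2 h⟩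
  have hrel : (fun x y : ↥D => [x, y] ∈ pre D X') = (fun x y : ↥D => x.1 ++ y.1 ∈ X) := by
    funext x y
    exact propext (htwo x y)
  have hchain : HasChain (pre D X') ↔ ChainW D X := by
    constructor
    · rintro ⟨a, c, l, ha, hc, hl0, hl, hch⟩
      refine ⟨a.1, a.2, c.1, c.2, l.map Subtype.val, (hone a).1 ha, (hone c).1 hc, ?_, ?_, ?_⟩
      · intro h
        exact hl0 (List.map_eq_nil_iff.1 h)
      · intro b hb
        obtain ⟨b', hb', rfl⟩ := List.mem_map.1 hb
        exact ⟨b'.2, fun h => hl b' hb' ((hone b').2 h)⟩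
      · have h2 : a.1 :: (l.map Subtype.val ++ [c.1]) =
            (a :: (l ++ [c])).map Subtype.val := by simp
        rw [h2, List.isChain_map]
        rw [hrel] at hch
        exact hch
    · rintro ⟨a, ha, c, hc, l, haX, hcX, hl0, hl, hch⟩
      lift l to List ↥D using (fun b hb => (hl b hb).1) with l' hl'
      refine ⟨⟨a, ha⟩, ⟨c, hc⟩, l', (hone _).2 haX, (hone _).2 hcX, ?_, ?_, ?_⟩
      · rintro rfl
        exact hl0 rfl
      · intro b hb h
        exact (hl b.1 (List.mem_map.2 ⟨b, hb, rfl⟩)).2 ((hone b).1 h)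
      · rw [hrel]
        have h2 : a :: (l'.map Subtype.val ++ [c]) =
            ((⟨a, ha⟩ : ↥D) :: (l' ++ [(⟨c, hc⟩ : ↥D)])).map Subtype.val := by simp
        rw [h2, List.isChain_map] at hch
        exact hch
  have hleft : LeftFull (pre D X') ↔ FullToRight D X := by
    constructor
    · intro h x hx y hy hxe hyb hyX
      exact (htwo ⟨x, hx⟩ ⟨y, hy⟩).1 (h _ _ ((hend ⟨x, hx⟩).2 hxe) ((hbeg ⟨y, hy⟩).2 hyb)
        (fun h' => hyX ((hone ⟨y, hy⟩).1 h')))
    · intro h x y hxe hyb hyX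
      exact (htwo x y).2 (h _ x.2 _ y.2 ((hend x).1 hxe) ((hbeg y).1 hyb)
        (fun h' => hyX ((hone y).2 h')))
  have hright : RightFull (pre D X') ↔ FullToLeft D X := by
    constructor
    · intro h x hx y hy hxe hyb hxX
      exact (htwo ⟨x, hx⟩ ⟨y, hy⟩).1 (h _ _ ((hend ⟨x, hx⟩).2 hxe) ((hbeg ⟨y, hy⟩).2 hyb)
        (fun h' => hxX ((hone ⟨x, hx⟩).1 h')))
    · intro h x y hxe hyb hxX
      exact (htwo x y).2 (h _ x.2 _ y.2 ((hend x).1 hxe) ((hbeg y).1 hyb)
        (fun h' => hxX ((hone x).2 h')))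
  rw [hchain, hleft, hright]

end RCP
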