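import Pool.Agent.RCP.ShortZeros

namespace RCP

open Matrix
open scoped Classical

variable {A : Type*} {X : Set (List A)}

theorem letters_finset (hfin : X.Finite) : ∃ T : Finset A, ∀ x ∈ X, ∀ a ∈ x, a ∈ T := by
  have h1 : (⋃ w ∈ X, {x : A | x ∈ w}).Finite := hfin.biUnion (fun w _ => List.finite_toSet w)
  refine ⟨h1.toFinset, fun x hx a ha => ?_⟩
  rw [Set.Finite.mem_toFinset]
  exact Set.mem_biUnion hx ha

theorem PM_eval (X : Set (List A)) (T : Finset A) (ε t : ℝ) :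
    (PM X T ε).map (Polynomial.evalRingHom t) = 1 - (ε * t) • KK X T := by
  ext i j
  simp only [PM, Matrix.map_apply, Matrix.sub_apply, Matrix.smul_apply, smul_eq_mul, map_sub,
    map_mul]
  by_cases hij : i = j
  · subst hij; simp
  · simp [hij]

theorem det_eval (X : Set (List A)) (T : Finset A) (ε t : ℝ) :
    (PM X T ε).det.eval t = FF (KK X T) (ε * t) := by
  have h1 : (PM X T ε).det.eval t = (Polynomial.evalRingHom t) (PM X T ε).det := rfl
  rw [h1, RingHom.map_det, RingHom.mapMatrix_apply, PM_eval]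
  rfl

theorem ph_eval (X : Set (List A)) (T : Finset A) (ε t : ℝ) :
    (ph X T ε).eval t = t * PH (KK X T) (LV X T) (RV X T) (ε * t) := by
  have hadj : ∀ y c, ((PM X T ε).adjugate y c).eval t = (1 - (ε * t) • KK X T).adjugate y c := by
    intro y c
    rw [← PM_eval]
    have h1 : ((PM X T ε).map (Polynomial.evalRingHom t)).adjugate =
        (PM X T ε).adjugate.map (Polynomial.evalRingHom t) :=
      (RingHom.map_adjugate (Polynomial.evalRingHom t) _).symm
    rw [h1]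
    rfl
  unfold ph PH
  rw [Polynomial.eval_finset_sum, dotProduct, Finset.mul_sum]
  refine Finset.sum_congr rfl (fun y _ => ?_)
  rw [Polynomial.eval_mul, Polynomial.eval_C, Polynomial.eval_finset_sum, Matrix.mulVec,
    dotProduct, Finset.mul_sum, Finset.mul_sum, Finset.mul_sum]
  refine Finset.sum_congr rfl (fun c _ => ?_)
  rw [Polynomial.eval_mul, Polynomial.eval_mul, Polynomial.eval_C, Polynomial.eval_X, hadj]
  ring

theorem cp_eval (X : Set (List A)) (T : Finset A) (ε t : ℝ) :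
    (cp X T ε).eval t = (1 - np X T * t - ε * qc X T ε * t ^ 2) * FF (KK X T) (ε * t) +
      ε * t ^ 3 * PH (KK X T) (LV X T) (RV X T) (ε * t) := by
  unfold cp
  generalize hr : ε * qc X T ε = r
  simp only [Polynomial.eval_add, Polynomial.eval_mul, Polynomial.eval_sub, Polynomial.eval_one,
    Polynomial.eval_pow, Polynomial.eval_X, Polynomial.eval_C, det_eval, ph_eval]
  ring

theorem wt_nonneg {ε : ℝ} (hε : 0 ≤ ε) (x : A) : 0 ≤ wt X ε x := by
  unfold wt
  split_ifs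
  · exact zero_le_one
  · exact hε

theorem wt_le {ε : ℝ} (hε : ε ≤ 1) (x : A) : wt X ε x ≤ wt X 1 x := by
  unfold wt
  split_ifs
  · exact le_rfl
  · exact hε

theorem qc_nonneg (X : Set (List A)) (T : Finset A) {ε : ℝ} (hε : 0 ≤ ε) : 0 ≤ qc X T ε := by
  unfold qc
  refine add_nonneg (Finset.sum_nonneg (fun _ _ => Nat.cast_nonneg _)) ?_
  exact Finset.sum_nonneg (fun _ _ => Finset.sum_nonneg (fun y _ => wt_nonneg hε y))

theorem qc_le (X : Set (List A)) (T : Finset A) {ε : ℝ} (hε : ε ≤ 1) :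
    qc X T ε ≤ qc X T 1 := by
  unfold qc
  refine add_le_add le_rfl ?_
  exact Finset.sum_le_sum (fun _ _ => Finset.sum_le_sum (fun y _ => wt_le hε y))

theorem KK_nonneg (X : Set (List A)) (T : Finset A) (i k : ↥T) : 0 ≤ KK X T i k := by
  unfold KK
  split_ifs
  · exact zero_le_one
  · exact le_rfl

theorem RV_nonneg (X : Set (List A)) (T : Finset A) (i : ↥T) : 0 ≤ RV X T i := by
  unfold RV
  split_ifs
  · exact le_rfl
  · exact Nat.cast_nonneg _

theorem LV_nonneg (X : Set (List A)) (T : Finset A) (i : ↥T) : 0 ≤ LV X T i := by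
  unfold LV
  split_ifs
  · exact le_rfl
  · exact Nat.cast_nonneg _

theorem chain_form {T : Finset A} (hT : ∀ x ∈ X, ∀ a ∈ x, a ∈ T) {c : A} (hc : [c] ∈ X)
    (l : List A) : ∀ (y : A) (hy : y ∈ T), [y] ∉ X → (∀ b ∈ l, [b] ∉ X) →
      List.IsChain (fun x y => [x, y] ∈ X) (y :: (l ++ [c])) →
      1 ≤ ((KK X T) ^ l.length *ᵥ RV X T) ⟨y, hy⟩ := by
  induction l with
  | nil =>
    intro y hy hyX _ hch
    simp only [List.nil_append] at hch
    have h1 : [y, c] ∈ X := (List.isChain_cons_cons.1 hch).1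
    simp only [List.length_nil, pow_zero, Matrix.one_mulVec]
    unfold RV
    rw [if_neg hyX]
    have h2 : 0 < (T.filter (fun c => [c] ∈ X ∧ [y, c] ∈ X)).card :=
      Finset.card_pos.2 ⟨c, Finset.mem_filter.2 ⟨hT _ hc c (by simp), hc, h1⟩⟩
    exact_mod_cast h2
  | cons b l ih =>
    intro y hy hyX hl hch
    rw [List.cons_append] at hch
    obtain ⟨h1, h2⟩ := List.isChain_cons_cons.1 hch
    have hbT : b ∈ T := hT _ h1 b (by simp)
    have h3 := ih b hbT (hl b (by simp)) (fun b' hb' => hl b' (by simp [hb'])) h2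
    rw [List.length_cons, pow_succ', ← Matrix.mulVec_mulVec]
    have h4 : KK X T ⟨y, hy⟩ ⟨b, hbT⟩ = 1 := by
      unfold KK
      rw [if_pos ⟨hyX, hl b (by simp), h1⟩]
    have h5 : KK X T ⟨y, hy⟩ ⟨b, hbT⟩ * ((KK X T) ^ l.length *ᵥ RV X T) ⟨b, hbT⟩ ≤
        (KK X T *ᵥ ((KK X T) ^ l.length *ᵥ RV X T)) ⟨y, hy⟩ := by
      rw [Matrix.mulVec, dotProduct]
      exact Finset.single_le_sum (f := fun k => KK X T ⟨y, hy⟩ k *
        ((KK X T) ^ l.length *ᵥ RV X T) k)
        (fun k _ => mul_nonneg (KK_nonneg X T _ k)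
          (pow_mulVec_nonneg (KK_nonneg X T) (RV_nonneg X T) _ k)) (Finset.mem_univ _)
    rw [h4, one_mul] at h5
    exact h3.trans h5

/-- A path `a b₁ … bₖ c` with `k ≥ 1`, with `a, c` in `X` and the `bᵢ` outside `X`. -/
def HasChain (X : Set (List A)) : Prop :=
  ∃ a c l, [a] ∈ X ∧ [c] ∈ X ∧ l ≠ [] ∧ (∀ b ∈ l, [b] ∉ X) ∧
    List.IsChain (fun x y => [x, y] ∈ X) (a :: (l ++ [c]))

/-- The letter `x` ends a word of `X`. -/
def Ends (X : Set (List A)) (x : A) : Prop := [x] ∈ X ∨ ∃ z, [z, x] ∈ X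

/-- The letter `x` begins a word of `X`. -/
def Begins (X : Set (List A)) (x : A) : Prop := [x] ∈ X ∨ ∃ z, [x, z] ∈ X

/-- Every letter that ends a word is followed by all letters outside `X` that begin a word. -/
def LeftFull (X : Set (List A)) : Prop :=
  ∀ x y, Ends X x → Begins X y → [y] ∉ X → [x, y] ∈ X

/-- The mirror image of `LeftFull`. -/
def RightFull (X : Set (List A)) : Prop :=
  ∀ x y, Ends X x → Begins X y → [x] ∉ X → [x, y] ∈ X

/-- A chain excludes a rich code, unless `X` is full on one side. -/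
theorem short_neg (hfin : X.Finite) (hX : Short X) (hch : HasChain X) (hL : ¬ LeftFull X)
    (hR : ¬ RightFull X) : ¬ HasRichCode X := by
  obtain ⟨T, hT⟩ := letters_finset hfin
  obtain ⟨a, c, l, ha, hc, hl0, hl, hchain⟩ := hch
  obtain ⟨b, l', rfl⟩ := List.exists_cons_of_ne_nil hl0
  rw [List.cons_append] at hchain
  obtain ⟨hab, hch2⟩ := List.isChain_cons_cons.1 hchain
  have haT : a ∈ T := hT _ ha a (by simp)
  have hbT : b ∈ T := hT _ hab b (by simp)
  have hbX : [b] ∉ X := hl b (by simp)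
  have hpath := chain_form hT hc l' b hbT hbX (fun b' hb' => hl b' (by simp [hb'])) hch2
  have hLb : 1 ≤ LV X T ⟨b, hbT⟩ := by
    unfold LV
    rw [if_neg hbX]
    have h2 : 0 < (T.filter (fun x => [x] ∈ X ∧ [x, b] ∈ X)).card :=
      Finset.card_pos.2 ⟨a, Finset.mem_filter.2 ⟨haT, ha, hab⟩⟩
    exact_mod_cast h2
  have hform : 1 ≤ LV X T ⬝ᵥ ((KK X T) ^ l'.length *ᵥ RV X T) := by
    have h1 : LV X T ⟨b, hbT⟩ * ((KK X T) ^ l'.length *ᵥ RV X T) ⟨b, hbT⟩ ≤
        LV X T ⬝ᵥ ((KK X T) ^ l'.length *ᵥ RV X T) := by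
      rw [dotProduct]
      exact Finset.single_le_sum (f := fun k => LV X T k *
        ((KK X T) ^ l'.length *ᵥ RV X T) k)
        (fun k _ => mul_nonneg (LV_nonneg X T k)
          (pow_mulVec_nonneg (KK_nonneg X T) (RV_nonneg X T) _ k)) (Finset.mem_univ _)
    have h2 : 1 * 1 ≤ LV X T ⟨b, hbT⟩ * ((KK X T) ^ l'.length *ᵥ RV X T) ⟨b, hbT⟩ :=
      mul_le_mul hLb hpath zero_le_one (zero_le_one.trans hLb)
    linarith
  have hn : (1 : ℝ) ≤ np X T := by
    have : 0 < np X T := Finset.card_pos.2 ⟨a, Finset.mem_filter.2 ⟨haT, ha⟩⟩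
    exact_mod_cast this
  obtain ⟨e, s, t, he, hs, hst, hs0, ht0, hFs, hFt⟩ := two_zeros (KK_nonneg X T) (LV_nonneg X T)
    (RV_nonneg X T) hform hn (fun e => qc X T e) (fun e he => qc_nonneg X T he)
    (fun e _ he => qc_le X T he)
  have hL' : ∃ x y, Ends X x ∧ Begins X y ∧ [y] ∉ X ∧ [x, y] ∉ X := by
    by_contra h
    apply hL
    intro x y hx hy hyX
    by_contra h'
    exact h ⟨x, y, hx, hy, hyX, h'⟩
  have hR' : ∃ x y, Ends X x ∧ Begins X y ∧ [x] ∉ X ∧ [x, y] ∉ X := by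
    by_contra h
    apply hR
    intro x y hx hy hxX
    by_contra h'
    exact h ⟨x, y, hx, hy, hxX, h'⟩
  obtain ⟨x1, y1, hx1, hy1, hy1X, hxy1⟩ := hL'
  obtain ⟨x2, y2, hx2, hy2, hx2X, hxy2⟩ := hR'
  obtain ⟨u1, hu1⟩ : ∃ u, u ++ [x1] ∈ X := by
    rcases hx1 with h | ⟨z, h⟩
    · exact ⟨[], h⟩
    · exact ⟨[z], h⟩
  obtain ⟨z1, hz1⟩ : ∃ z, [y1, z] ∈ X := by
    rcases hy1 with h | h
    · exact absurd h hy1X
    · exact h
  obtain ⟨z2, hz2⟩ : ∃ z, [z, x2] ∈ X := by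
    rcases hx2 with h | h
    · exact absurd h hx2X
    · exact h
  obtain ⟨v2, hv2⟩ : ∃ v, y2 :: v ∈ X := by
    rcases hy2 with h | ⟨z, h⟩
    · exact ⟨[], h⟩
    · exact ⟨[z], h⟩
  have hp : u1 ++ [x1] ++ [y1, z1] ∈ star X :=
    star_append (mem_star_of_mem hu1) (mem_star_of_mem hz1)
  have hq : [z2, x2] ++ (y2 :: v2) ∈ star X :=
    star_append (mem_star_of_mem hz2) (mem_star_of_mem hv2)
  refine no_rich_of_two_poles T (w := wt X e) (fun x => wt_nonneg he.le x) hp hq ?_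
    (cp X T e) (PM X T e).det ?_ hs hst ?_ ?_ ?_ ?_
  · rintro z ⟨α, β, hz⟩
    have h1 : (α ++ u1) ++ x1 :: y1 :: z1 :: (z ++ z2 :: x2 :: y2 :: (v2 ++ β)) ∈ star X := by
      simpa using hz
    have h2 := left_reset hX hxy1 hy1X h1
    exact right_reset hX hxy2 hx2X h2
  · have := series_eq e hX hT
    exact this
  · rw [cp_eval]; exact hs0
  · rw [cp_eval]; exact ht0
  · rw [det_eval]; exact hFs
  · rw [det_eval]; exact hFt

end RCP
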