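import Pool.Agent.RCP.ShortSer

namespace RCP

open Matrix
open scoped Classical

variable {A : Type*}

/-- Real polynomials as complex power series. -/
noncomputable def psi : Polynomial ℝ →+* PowerSeries ℂ :=
  (Polynomial.coeToPowerSeries.ringHom).comp (Polynomial.mapRingHom (algebraMap ℝ ℂ))

theorem psi_apply (p : Polynomial ℝ) :
    psi p = ((p.map (algebraMap ℝ ℂ) : Polynomial ℂ) : PowerSeries ℂ) := rfl

theorem psi_C (r : ℝ) : psi (Polynomial.C r) = PowerSeries.C (r : ℂ) := by
  rw [psi_apply]; simp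

theorem psi_X : psi Polynomial.X = PowerSeries.X := by
  rw [psi_apply]; simp

variable (X : Set (List A)) (T : Finset A) (ε : ℝ)

/-- Weights: `1` for letters in `X`, `ε` for the others. -/
noncomputable def wt (x : A) : ℝ := if [x] ∈ X then 1 else ε

/-- Adjacency between letters outside `X`. -/
noncomputable def KK : Matrix ↥T ↥T ℝ := fun x y =>
  if [x.1] ∉ X ∧ [y.1] ∉ X ∧ [x.1, y.1] ∈ X then 1 else 0

/-- Right partners in `X`. -/
noncomputable def RV (y : ↥T) : ℝ :=
  if [y.1] ∈ X then 0 else ((T.filter (fun c => [c] ∈ X ∧ [y.1, c] ∈ X)).card : ℝ)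

/-- Left partners in `X`. -/
noncomputable def LV (y : ↥T) : ℝ :=
  if [y.1] ∈ X then 0 else ((T.filter (fun x => [x] ∈ X ∧ [x, y.1] ∈ X)).card : ℝ)

/-- Number of letters in `X`. -/
noncomputable def np : ℕ := (T.filter (fun x => [x] ∈ X)).card

/-- The quadratic coefficient. -/
noncomputable def qc : ℝ :=
  ∑ x ∈ T.filter (fun x => [x] ∈ X), ((T.filter (fun y => [y] ∉ X ∧ [x, y] ∈ X)).card : ℝ) +
    ∑ x ∈ T.filter (fun x => [x] ∉ X), ∑ y ∈ T.filter (fun y => [x, y] ∈ X), wt X ε y

/-- The matrix `1 - ε t K`. -/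
noncomputable def PM : Matrix ↥T ↥T (Polynomial ℝ) :=
  1 - (Polynomial.C ε * Polynomial.X) • (KK X T).map Polynomial.C

/-- The numerator of the path sum. -/
noncomputable def ph : Polynomial ℝ :=
  ∑ y : ↥T, Polynomial.C (LV X T y) * ∑ c : ↥T,
    (PM X T ε).adjugate y c * (Polynomial.C (RV X T c) * Polynomial.X)

/-- The denominator polynomial of the growth series. -/
noncomputable def cp : Polynomial ℝ :=
  (1 - Polynomial.C (np X T : ℝ) * Polynomial.X -
    Polynomial.C (ε * qc X T ε) * Polynomial.X ^ 2) * (PM X T ε).det +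
    Polynomial.C ε * Polynomial.X ^ 2 * ph X T ε

variable {X T}

theorem J_eq (hX : Short X) (hT : ∀ x ∈ X, ∀ a ∈ x, a ∈ T) (y : ↥T) :
    ser T (wt X ε) (jj X y.1) = PowerSeries.C (RV X T y : ℂ) *
        (PowerSeries.X * ser T (wt X ε) (gg X)) +
      PowerSeries.C (ε : ℂ) * PowerSeries.X * ∑ c : ↥T, PowerSeries.C (KK X T y c : ℂ) *
        ser T (wt X ε) (jj X c.1) := by
  by_cases hy : [y.1] ∈ X
  · have h1 : jj X y.1 = fun _ => 0 := by
      funext z
      unfold jj
      rw [if_pos hy]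
    have h2 : RV X T y = 0 := by unfold RV; rw [if_pos hy]
    have h3 : ∀ c, KK X T y c = 0 := by
      intro c
      unfold KK
      rw [if_neg (fun h => h.1 hy)]
    rw [h1, ser_zero, h2]
    simp [h3]
  · have h1 : jj X y.1 = (fun z =>
        (fun z => ∑ c ∈ T.filter (fun c => [c] ∈ X ∧ [y.1, c] ∈ X), ci c (gg X) z) z +
        (fun z => ∑ c ∈ T.filter (fun c => [c] ∉ X ∧ [y.1, c] ∈ X), ci c (jj X c) z) z) := by
      funext z
      exact jj_rec hX hT hy z
    rw [h1, ser_add, ser_sum, ser_sum]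
    congr 1
    · have h2 : ∀ c ∈ T.filter (fun c => [c] ∈ X ∧ [y.1, c] ∈ X), ser T (wt X ε) (ci c (gg X)) =
          PowerSeries.X * ser T (wt X ε) (gg X) := by
        intro c hc
        have hc' := Finset.mem_filter.1 hc
        have h3 : wt X ε c = 1 := by unfold wt; rw [if_pos hc'.2.1]
        rw [ser_ci T (wt X ε) hc'.1, h3]
        simp
      rw [Finset.sum_congr rfl h2, Finset.sum_const, nsmul_eq_mul]
      unfold RV
      rw [if_neg hy]
      simp
    · have h2 : ∀ c ∈ T.filter (fun c => [c] ∉ X ∧ [y.1, c] ∈ X),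
          ser T (wt X ε) (ci c (jj X c)) =
          PowerSeries.C (ε : ℂ) * (PowerSeries.X * ser T (wt X ε) (jj X c)) := by
        intro c hc
        have hc' := Finset.mem_filter.1 hc
        have h3 : wt X ε c = ε := by unfold wt; rw [if_neg hc'.2.1]
        rw [ser_ci T (wt X ε) hc'.1, h3]
      rw [Finset.sum_congr rfl h2, Finset.sum_filter, Finset.mul_sum]
      rw [← Finset.sum_coe_sort T]
      refine Finset.sum_congr rfl (fun c _ => ?_)
      unfold KK
      by_cases h4 : [c.1] ∉ X ∧ [y.1, c.1] ∈ X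
      · rw [if_pos h4, if_pos ⟨hy, h4.1, h4.2⟩]
        simp only [Complex.ofReal_one, map_one, one_mul]
        ring
      · rw [if_neg h4, if_neg (fun h => h4 ⟨h.2.1, h.2.2⟩)]
        simp

theorem G_eq (hX : Short X) (hT : ∀ x ∈ X, ∀ a ∈ x, a ∈ T) :
    (1 - PowerSeries.C ((np X T : ℝ) : ℂ) * PowerSeries.X -
      PowerSeries.C ((ε * qc X T ε : ℝ) : ℂ) * PowerSeries.X ^ 2) * ser T (wt X ε) (gg X) +
      PowerSeries.C (ε : ℂ) * PowerSeries.X ^ 2 *
        ∑ y : ↥T, PowerSeries.C (LV X T y : ℂ) * ser T (wt X ε) (jj X y.1) = 1 := by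
  set G := ser T (wt X ε) (gg X) with hG
  have h0 : gg X [] = 1 := by
    unfold gg
    rw [if_pos (nil_mem_star X)]
  have hP : ∀ x ∈ T.filter (fun x => [x] ∈ X), PowerSeries.C (wt X ε x : ℂ) *
      ser T (wt X ε) (fun z => gg X (x :: z)) = G +
      ((T.filter (fun y => [y] ∉ X ∧ [x, y] ∈ X)).card : PowerSeries ℂ) *
        (PowerSeries.C (ε : ℂ) * PowerSeries.X * G) -
      PowerSeries.C (ε : ℂ) * PowerSeries.X * ∑ y ∈ T.filter (fun y => [y] ∉ X ∧ [x, y] ∈ X),
        ser T (wt X ε) (jj X y) := by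
    intro x hx
    have hx' := (Finset.mem_filter.1 hx).2
    have h1 : wt X ε x = 1 := by unfold wt; rw [if_pos hx']
    have h2 : (fun z => gg X (x :: z)) = (fun z => gg X z +
        (fun z => ∑ y ∈ T.filter (fun y => [y] ∉ X ∧ [x, y] ∈ X),
          ci y (fun z => gg X z - jj X y z) z) z) := by
      funext z
      exact gg_P hX hT hx' z
    have h3 : ∀ y ∈ T.filter (fun y => [y] ∉ X ∧ [x, y] ∈ X),
        ser T (wt X ε) (ci y (fun z => gg X z - jj X y z)) =
        PowerSeries.C (ε : ℂ) * PowerSeries.X * G -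
          PowerSeries.C (ε : ℂ) * PowerSeries.X * ser T (wt X ε) (jj X y) := by
      intro y hy
      have hy' := Finset.mem_filter.1 hy
      have h3 : wt X ε y = ε := by unfold wt; rw [if_neg hy'.2.1]
      rw [ser_ci T (wt X ε) hy'.1, h3, ser_sub]
      ring
    rw [h2, ser_add, ser_sum, Finset.sum_congr rfl h3, Finset.sum_sub_distrib, Finset.sum_const,
      nsmul_eq_mul, ← Finset.mul_sum, h1]
    simp only [Complex.ofReal_one, map_one, one_mul]
    ring
  have hN : ∀ x ∈ T.filter (fun x => [x] ∉ X), PowerSeries.C (wt X ε x : ℂ) *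
      ser T (wt X ε) (fun z => gg X (x :: z)) =
      PowerSeries.C ((∑ y ∈ T.filter (fun y => [x, y] ∈ X), wt X ε y : ℝ) : ℂ) *
        (PowerSeries.C (ε : ℂ) * PowerSeries.X * G) := by
    intro x hx
    have hx' := (Finset.mem_filter.1 hx).2
    have h1 : wt X ε x = ε := by unfold wt; rw [if_neg hx']
    have h2 : (fun z => gg X (x :: z)) =
        (fun z => ∑ y ∈ T.filter (fun y => [x, y] ∈ X), ci y (gg X) z) := by
      funext z
      exact gg_notP hX hT hx' z
    have h3 : ∀ y ∈ T.filter (fun y => [x, y] ∈ X), ser T (wt X ε) (ci y (gg X)) =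
        PowerSeries.C (wt X ε y : ℂ) * (PowerSeries.X * G) := by
      intro y hy
      exact ser_ci T (wt X ε) (Finset.mem_filter.1 hy).1 _
    rw [h2, ser_sum, Finset.sum_congr rfl h3, ← Finset.sum_mul, h1]
    push_cast
    rw [map_sum]
    ring
  have hLsum : ∑ y : ↥T, PowerSeries.C (LV X T y : ℂ) * ser T (wt X ε) (jj X y.1) =
      ∑ x ∈ T.filter (fun x => [x] ∈ X), ∑ y ∈ T.filter (fun y => [y] ∉ X ∧ [x, y] ∈ X),
        ser T (wt X ε) (jj X y) := by
    have h1 : ∀ x ∈ T.filter (fun x => [x] ∈ X),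
        ∑ y ∈ T.filter (fun y => [y] ∉ X ∧ [x, y] ∈ X), ser T (wt X ε) (jj X y) =
        ∑ y ∈ T, if [y] ∉ X ∧ [x, y] ∈ X then ser T (wt X ε) (jj X y) else 0 := by
      intro x _
      rw [Finset.sum_filter]
    rw [Finset.sum_congr rfl h1, Finset.sum_comm]
    rw [← Finset.sum_coe_sort T]
    refine Finset.sum_congr rfl (fun y _ => ?_)
    unfold LV
    by_cases hy : [y.1] ∈ X
    · rw [if_pos hy]
      have : ∀ x ∈ T.filter (fun x => [x] ∈ X),
          (if [y.1] ∉ X ∧ [x, y.1] ∈ X then ser T (wt X ε) (jj X y.1) else 0) = 0 := by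
        intro x _
        rw [if_neg (fun h => h.1 hy)]
      rw [Finset.sum_congr rfl this]
      simp
    · rw [if_neg hy]
      have : ∀ x ∈ T.filter (fun x => [x] ∈ X),
          (if [y.1] ∉ X ∧ [x, y.1] ∈ X then ser T (wt X ε) (jj X y.1) else 0) =
          if [x, y.1] ∈ X then ser T (wt X ε) (jj X y.1) else 0 := by
        intro x _
        by_cases h : [x, y.1] ∈ X
        · rw [if_pos ⟨hy, h⟩, if_pos h]
        · rw [if_neg (fun h' => h h'.2), if_neg h]
      rw [Finset.sum_congr rfl this, ← Finset.sum_filter, Finset.filter_filter, Finset.sum_const,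
        nsmul_eq_mul]
      simp
  have hmain : G = 1 + PowerSeries.X * (∑ x ∈ T.filter (fun x => [x] ∈ X), (G +
      ((T.filter (fun y => [y] ∉ X ∧ [x, y] ∈ X)).card : PowerSeries ℂ) *
        (PowerSeries.C (ε : ℂ) * PowerSeries.X * G) -
      PowerSeries.C (ε : ℂ) * PowerSeries.X * ∑ y ∈ T.filter (fun y => [y] ∉ X ∧ [x, y] ∈ X),
        ser T (wt X ε) (jj X y)) + ∑ x ∈ T.filter (fun x => [x] ∉ X),
      PowerSeries.C ((∑ y ∈ T.filter (fun y => [x, y] ∈ X), wt X ε y : ℝ) : ℂ) *
        (PowerSeries.C (ε : ℂ) * PowerSeries.X * G)) := by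
    conv_lhs => rw [hG, ser_cons]
    rw [h0, map_one, ← Finset.sum_filter_add_sum_filter_not T (fun x => [x] ∈ X),
      Finset.sum_congr rfl hP, Finset.sum_congr rfl hN]
  rw [Finset.sum_sub_distrib, Finset.sum_add_distrib, Finset.sum_const, nsmul_eq_mul,
    ← Finset.mul_sum, ← hLsum, ← Finset.sum_mul, ← Finset.sum_mul] at hmain
  have h4 : ((T.filter (fun x => [x] ∈ X)).card : PowerSeries ℂ) =
      PowerSeries.C ((np X T : ℝ) : ℂ) := by
    unfold np
    simp
  have h5 : PowerSeries.C ((ε * qc X T ε : ℝ) : ℂ) = PowerSeries.C (ε : ℂ) *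
      (∑ x ∈ T.filter (fun x => [x] ∈ X),
        ((T.filter (fun y => [y] ∉ X ∧ [x, y] ∈ X)).card : PowerSeries ℂ) +
      ∑ x ∈ T.filter (fun x => [x] ∉ X),
        PowerSeries.C ((∑ y ∈ T.filter (fun y => [x, y] ∈ X), wt X ε y : ℝ) : ℂ)) := by
    unfold qc
    push_cast
    rw [map_mul, map_add, map_sum, map_sum]
    congr 2
  rw [h4] at hmain
  rw [h5]
  linear_combination hmain

theorem series_eq (hX : Short X) (hT : ∀ x ∈ X, ∀ a ∈ x, a ∈ T) :
    psi (cp X T ε) * ser T (wt X ε) (gg X) = psi (PM X T ε).det := by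
  set G := ser T (wt X ε) (gg X) with hG
  set J : ↥T → PowerSeries ℂ := fun y => ser T (wt X ε) (jj X y.1) with hJ
  have hvec : ((PM X T ε).map psi) *ᵥ J = fun y => psi (Polynomial.C (RV X T y) * Polynomial.X) * G := by
    have hPM : (PM X T ε).map psi = 1 - (PowerSeries.C (ε : ℂ) * PowerSeries.X) •
        (KK X T).map (fun r => PowerSeries.C (r : ℂ)) := by
      ext i j
      simp only [PM, Matrix.map_apply, Matrix.sub_apply, Matrix.smul_apply, smul_eq_mul, map_sub,
        map_mul, psi_C, psi_X]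
      congr 1
      by_cases hij : i = j
      · subst hij; simp
      · simp [hij]
    funext y
    rw [hPM, Matrix.sub_mulVec, Matrix.one_mulVec, Matrix.smul_mulVec, Pi.sub_apply,
      Pi.smul_apply, smul_eq_mul, map_mul, psi_C, psi_X]
    have h1 := J_eq ε hX hT y
    have h2 : ((KK X T).map (fun r => PowerSeries.C (r : ℂ)) *ᵥ J) y =
        ∑ c : ↥T, PowerSeries.C (KK X T y c : ℂ) * ser T (wt X ε) (jj X c.1) := by
      simp only [Matrix.mulVec, dotProduct, Matrix.map_apply, hJ]
    rw [h2]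
    have h3 : J y = ser T (wt X ε) (jj X y.1) := rfl
    rw [h3]
    linear_combination h1
  have hadj : ∀ y, psi (PM X T ε).det * J y =
      ∑ c : ↥T, psi ((PM X T ε).adjugate y c * (Polynomial.C (RV X T c) * Polynomial.X)) * G := by
    intro y
    have h1 : ((PM X T ε).map psi).adjugate *ᵥ (((PM X T ε).map psi) *ᵥ J) =
        ((PM X T ε).map psi).det • J := by
      rw [Matrix.mulVec_mulVec, Matrix.adjugate_mul, Matrix.smul_mulVec, Matrix.one_mulVec]
    have h2 := congrFun h1 y
    rw [hvec, Pi.smul_apply, smul_eq_mul] at h2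
    have hdet : ((PM X T ε).map psi).det = psi (PM X T ε).det := (RingHom.map_det psi _).symm
    have hadj : ((PM X T ε).map psi).adjugate = (PM X T ε).adjugate.map psi :=
      (RingHom.map_adjugate psi _).symm
    rw [hdet, hadj] at h2
    rw [← h2]
    simp only [Matrix.mulVec, dotProduct, Matrix.map_apply]
    refine Finset.sum_congr rfl (fun c _ => ?_)
    rw [map_mul psi ((PM X T ε).adjugate y c)]
    ring
  have hmain := G_eq ε hX hT
  have hph : psi (ph X T ε) * G = psi (PM X T ε).det *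
      ∑ y : ↥T, PowerSeries.C (LV X T y : ℂ) * J y := by
    unfold ph
    rw [map_sum, Finset.sum_mul, Finset.mul_sum]
    refine Finset.sum_congr rfl (fun y _ => ?_)
    rw [map_mul, psi_C, map_sum]
    have h3 : psi (PM X T ε).det * (PowerSeries.C (LV X T y : ℂ) * J y) =
        PowerSeries.C (LV X T y : ℂ) * (psi (PM X T ε).det * J y) := by ring
    rw [h3, hadj y, mul_assoc, Finset.sum_mul]
  have hcp : psi (cp X T ε) = (1 - PowerSeries.C ((np X T : ℝ) : ℂ) * PowerSeries.X -
      PowerSeries.C ((ε * qc X T ε : ℝ) : ℂ) * PowerSeries.X ^ 2) * psi (PM X T ε).det +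
      PowerSeries.C (ε : ℂ) * PowerSeries.X ^ 2 * psi (ph X T ε) := by
    unfold cp
    generalize ε * qc X T ε = r
    simp only [map_add, map_mul, map_sub, map_one, map_pow, psi_X, psi_C]
  have hJs : ∑ y : ↥T, PowerSeries.C (LV X T y : ℂ) * ser T (wt X ε) (jj X y.1) =
      ∑ y : ↥T, PowerSeries.C (LV X T y : ℂ) * J y := rfl
  rw [hJs] at hmain
  rw [hcp]
  linear_combination psi (PM X T ε).det * hmain +
    PowerSeries.C (ε : ℂ) * PowerSeries.X ^ 2 * hph

end RCP
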