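import Pool.Agent.RCP.Short

namespace RCP

open scoped Classical

variable {A : Type*}

theorem wsum_add (T : Finset A) (w : A → ℝ) (n : ℕ) : ∀ h k : List A → ℂ,
    wsum T w n (fun z => h z + k z) = wsum T w n h + wsum T w n k := by
  induction n with
  | zero => intro h k; rfl
  | succ n ih =>
    intro h k
    simp only [wsum]
    rw [← Finset.sum_add_distrib]
    refine Finset.sum_congr rfl (fun a _ => ?_)
    rw [← mul_add, ih]

theorem wsum_sub (T : Finset A) (w : A → ℝ) (n : ℕ) : ∀ h k : List A → ℂ,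
    wsum T w n (fun z => h z - k z) = wsum T w n h - wsum T w n k := by
  induction n with
  | zero => intro h k; rfl
  | succ n ih =>
    intro h k
    simp only [wsum]
    rw [← Finset.sum_sub_distrib]
    refine Finset.sum_congr rfl (fun a _ => ?_)
    rw [← mul_sub, ih]

theorem wsum_zero (T : Finset A) (w : A → ℝ) (n : ℕ) : wsum T w n (fun _ => 0) = 0 := by
  induction n with
  | zero => rfl
  | succ n ih => simp only [wsum, ih]; simp

theorem wsum_sum (T : Finset A) (w : A → ℝ) (n : ℕ) (s : Finset A) (h : A → List A → ℂ) :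
    wsum T w n (fun z => ∑ y ∈ s, h y z) = ∑ y ∈ s, wsum T w n (h y) := by
  induction s using Finset.induction_on with
  | empty => simp [wsum_zero]
  | insert a s ha ih =>
    rw [Finset.sum_insert ha, ← ih, ← wsum_add]
    congr 1
    funext z
    rw [Finset.sum_insert ha]

/-- The function that is `k z'` at `y :: z'` and `0` elsewhere. -/
noncomputable def ci (y : A) (k : List A → ℂ) : List A → ℂ
  | [] => 0
  | b :: z' => if b = y then k z' else 0

theorem ci_cons (y b : A) (k : List A → ℂ) (z : List A) :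
    ci y k (b :: z) = if b = y then k z else 0 := rfl

theorem wsum_ci_zero (T : Finset A) (w : A → ℝ) (y : A) (k : List A → ℂ) :
    wsum T w 0 (ci y k) = 0 := rfl

theorem wsum_ci_succ (T : Finset A) (w : A → ℝ) {y : A} (hy : y ∈ T) (k : List A → ℂ) (n : ℕ) :
    wsum T w (n + 1) (ci y k) = (w y : ℂ) * wsum T w n k := by
  simp only [wsum]
  rw [Finset.sum_eq_single y]
  · congr 2
    funext z
    simp [ci]
  · intro b _ hb
    have : (fun z => ci y k (b :: z)) = (fun _ => 0) := by
      funext z
      simp [ci, hb]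
    rw [this, wsum_zero, mul_zero]
  · intro h; exact absurd hy h

/-- The power series of a function. -/
noncomputable def ser (T : Finset A) (w : A → ℝ) (h : List A → ℂ) : PowerSeries ℂ :=
  PowerSeries.mk (fun n => wsum T w n h)

variable (T : Finset A) (w : A → ℝ)

theorem ser_ci {y : A} (hy : y ∈ T) (k : List A → ℂ) :
    ser T w (ci y k) = PowerSeries.C (w y : ℂ) * (PowerSeries.X * ser T w k) := by
  ext n
  rw [PowerSeries.coeff_C_mul]
  rcases n with _ | n
  · simp [ser, wsum_ci_zero]
  · rw [PowerSeries.coeff_succ_X_mul, ser, ser, PowerSeries.coeff_mk, PowerSeries.coeff_mk,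
      wsum_ci_succ T w hy]

theorem ser_add (h k : List A → ℂ) :
    ser T w (fun z => h z + k z) = ser T w h + ser T w k := by
  ext n; simp [ser, wsum_add]

theorem ser_sub (h k : List A → ℂ) :
    ser T w (fun z => h z - k z) = ser T w h - ser T w k := by
  ext n; simp [ser, wsum_sub]

theorem ser_zero : ser T w (fun _ => 0) = 0 := by
  ext n; simp [ser, wsum_zero]

theorem ser_sum (s : Finset A) (h : A → List A → ℂ) :
    ser T w (fun z => ∑ y ∈ s, h y z) = ∑ y ∈ s, ser T w (h y) := by
  ext n; simp [ser, wsum_sum]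

theorem ser_cons (h : List A → ℂ) :
    ser T w h = PowerSeries.C (h []) +
      PowerSeries.X * ∑ x ∈ T, PowerSeries.C (w x : ℂ) * ser T w (fun z => h (x :: z)) := by
  ext n
  rcases n with _ | n
  · simp [ser, wsum]
  · rw [map_add, PowerSeries.coeff_succ_X_mul, PowerSeries.coeff_C, if_neg (by omega), zero_add,
      map_sum]
    simp [ser, wsum, PowerSeries.coeff_C_mul]

/-- Indicator of `X∗`. -/
noncomputable def gg (X : Set (List A)) (z : List A) : ℂ := if z ∈ star X then 1 else 0

/-- Indicator of `z` and `y z` both lying in `X∗`, for a letter `y` outside `X`. -/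
noncomputable def jj (X : Set (List A)) (y : A) (z : List A) : ℂ :=
  if [y] ∈ X then 0 else gg X z * gg X (y :: z)

variable {X : Set (List A)} {T}

theorem gg_notP (hX : Short X) (hT : ∀ x ∈ X, ∀ a ∈ x, a ∈ T) {x : A}
    (hx : [x] ∉ X) (z : List A) :
    gg X (x :: z) = ∑ y ∈ T.filter (fun y => [x, y] ∈ X), ci y (gg X) z := by
  rcases z with _ | ⟨b, z⟩
  · have h1 : ∀ y ∈ T.filter (fun y => [x, y] ∈ X), ci y (gg X) [] = 0 := fun y _ => rfl
    rw [Finset.sum_congr rfl h1, Finset.sum_const_zero]
    unfold gg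
    rw [if_neg]
    rw [star_cons_iff hX]
    rintro (⟨h, _⟩ | ⟨b, z', h, _⟩)
    · exact hx h
    · simp at h
  · have h1 : ∀ y ∈ T.filter (fun y => [x, y] ∈ X), ci y (gg X) (b :: z) =
        if y = b then gg X z else 0 := by
      intro y _
      rw [ci_cons]
      by_cases h : b = y
      · rw [if_pos h, if_pos h.symm]
      · rw [if_neg h, if_neg (fun h' => h h'.symm)]
    rw [Finset.sum_congr rfl h1, Finset.sum_ite_eq']
    by_cases hxb : [x, b] ∈ X
    · rw [if_pos (Finset.mem_filter.2 ⟨hT _ hxb b (by simp), hxb⟩)]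
      unfold gg
      congr 1
      rw [eq_iff_iff, star_cons_iff hX]
      constructor
      · rintro (⟨h, _⟩ | ⟨b', z', h, _, h'⟩)
        · exact absurd h hx
        · simp only [List.cons.injEq] at h
          rw [h.2]; exact h'
      · intro h
        exact Or.inr ⟨b, z, rfl, hxb, h⟩
    · have hnm : b ∉ T.filter (fun y => [x, y] ∈ X) := by
        intro h
        exact hxb (Finset.mem_filter.1 h).2
      rw [if_neg hnm]
      unfold gg
      rw [if_neg]
      rw [star_cons_iff hX]
      rintro (⟨h, _⟩ | ⟨b', z', h, h', _⟩)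
      · exact hx h
      · simp only [List.cons.injEq] at h
        rw [h.1] at hxb
        exact hxb h'

theorem gg_P (hX : Short X) (hT : ∀ x ∈ X, ∀ a ∈ x, a ∈ T) {x : A}
    (hx : [x] ∈ X) (z : List A) :
    gg X (x :: z) = gg X z + ∑ y ∈ T.filter (fun y => [y] ∉ X ∧ [x, y] ∈ X),
      ci y (fun z => gg X z - jj X y z) z := by
  rcases z with _ | ⟨b, z⟩
  · have h1 : ∀ y ∈ T.filter (fun y => [y] ∉ X ∧ [x, y] ∈ X),
        ci y (fun z => gg X z - jj X y z) [] = 0 := fun y _ => rfl
    rw [Finset.sum_congr rfl h1, Finset.sum_const_zero, add_zero]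
    unfold gg
    rw [if_pos (mem_star_of_mem hx), if_pos (nil_mem_star X)]
  · have h1 : ∀ y ∈ T.filter (fun y => [y] ∉ X ∧ [x, y] ∈ X),
        ci y (fun z => gg X z - jj X y z) (b :: z) =
        if y = b then gg X z - jj X b z else 0 := by
      intro y _
      rw [ci_cons]
      by_cases h : b = y
      · rw [if_pos h, if_pos h.symm, h]
      · rw [if_neg h, if_neg (fun h' => h h'.symm)]
    rw [Finset.sum_congr rfl h1, Finset.sum_ite_eq']
    by_cases hxb : [b] ∉ X ∧ [x, b] ∈ X
    · rw [if_pos (Finset.mem_filter.2 ⟨hT _ hxb.2 b (by simp), hxb⟩)]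
      unfold jj
      rw [if_neg hxb.1]
      have h2 : x :: b :: z ∈ star X ↔ b :: z ∈ star X ∨ z ∈ star X := by
        rw [star_cons_iff hX]
        constructor
        · rintro (⟨_, h⟩ | ⟨b', z', h, _, h'⟩)
          · exact Or.inl h
          · simp only [List.cons.injEq] at h
            rw [h.2]; exact Or.inr h'
        · rintro (h | h)
          · exact Or.inl ⟨hx, h⟩
          · exact Or.inr ⟨b, z, rfl, hxb.2, h⟩
      unfold gg
      by_cases h3 : b :: z ∈ star X
      · rw [if_pos (h2.2 (Or.inl h3)), if_pos h3]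
        ring
      · by_cases h4 : z ∈ star X
        · rw [if_pos (h2.2 (Or.inr h4)), if_neg h3, if_pos h4]
          ring
        · rw [if_neg (fun h => (h2.1 h).elim h3 h4), if_neg h3, if_neg h4]
          ring
    · have hnm : b ∉ T.filter (fun y => [y] ∉ X ∧ [x, y] ∈ X) := by
        intro h
        exact hxb (Finset.mem_filter.1 h).2
      rw [if_neg hnm, add_zero]
      unfold gg
      congr 1
      rw [eq_iff_iff, star_cons_iff hX]
      constructor
      · rintro (⟨_, h⟩ | ⟨b', z', h, h', h''⟩)
        · exact h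
        · simp only [List.cons.injEq] at h
          obtain ⟨rfl, rfl⟩ := h
          have hb : [b] ∈ X := by
            by_contra hb
            exact hxb ⟨hb, h'⟩
          exact star_append (mem_star_of_mem hb) h''
      · intro h
        exact Or.inl ⟨hx, h⟩

theorem jj_rec (hX : Short X) (hT : ∀ x ∈ X, ∀ a ∈ x, a ∈ T) {y : A}
    (hy : [y] ∉ X) (z : List A) :
    jj X y z = ∑ c ∈ T.filter (fun c => [c] ∈ X ∧ [y, c] ∈ X), ci c (gg X) z +
      ∑ c ∈ T.filter (fun c => [c] ∉ X ∧ [y, c] ∈ X), ci c (jj X c) z := by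
  rcases z with _ | ⟨b, z⟩
  · have h1 : ∀ c ∈ T.filter (fun c => [c] ∈ X ∧ [y, c] ∈ X), ci c (gg X) [] = 0 := fun c _ => rfl
    have h2 : ∀ c ∈ T.filter (fun c => [c] ∉ X ∧ [y, c] ∈ X), ci c (jj X c) [] = 0 :=
      fun c _ => rfl
    rw [Finset.sum_congr rfl h1, Finset.sum_congr rfl h2, Finset.sum_const_zero,
      Finset.sum_const_zero, add_zero]
    unfold jj gg
    rw [if_neg hy]
    have h3 : [y] ∉ star X := by
      rw [star_cons_iff hX]
      rintro (⟨h, _⟩ | ⟨b, z', h, _⟩)
      · exact hy h
      · simp at h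
    rw [if_neg h3, mul_zero]
  · have h1 : ∀ c ∈ T.filter (fun c => [c] ∈ X ∧ [y, c] ∈ X), ci c (gg X) (b :: z) =
        if c = b then gg X z else 0 := by
      intro c _
      rw [ci_cons]
      by_cases h : b = c
      · rw [if_pos h, if_pos h.symm]
      · rw [if_neg h, if_neg (fun h' => h h'.symm)]
    have h2 : ∀ c ∈ T.filter (fun c => [c] ∉ X ∧ [y, c] ∈ X), ci c (jj X c) (b :: z) =
        if c = b then jj X b z else 0 := by
      intro c _
      rw [ci_cons]
      by_cases h : b = c
      · rw [if_pos h, if_pos h.symm, h]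
      · rw [if_neg h, if_neg (fun h' => h h'.symm)]
    rw [Finset.sum_congr rfl h1, Finset.sum_congr rfl h2, Finset.sum_ite_eq', Finset.sum_ite_eq']
    have h3 : y :: b :: z ∈ star X ↔ [y, b] ∈ X ∧ z ∈ star X := by
      rw [star_cons_iff hX]
      constructor
      · rintro (⟨h, _⟩ | ⟨b', z', h, h', h''⟩)
        · exact absurd h hy
        · simp only [List.cons.injEq] at h
          obtain ⟨rfl, rfl⟩ := h
          exact ⟨h', h''⟩
      · rintro ⟨h, h'⟩
        exact Or.inr ⟨b, z, rfl, h, h'⟩
    unfold jj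
    rw [if_neg hy]
    by_cases hyb : [y, b] ∈ X
    · have hbT : b ∈ T := hT _ hyb b (by simp)
      have h4 : gg X (y :: b :: z) = gg X z := by
        unfold gg
        congr 1
        rw [eq_iff_iff, h3]
        exact ⟨fun h => h.2, fun h => ⟨hyb, h⟩⟩
      rw [h4]
      by_cases hb : [b] ∈ X
      · have hnm : b ∉ T.filter (fun c => [c] ∉ X ∧ [y, c] ∈ X) := by
          intro h
          exact (Finset.mem_filter.1 h).2.1 hb
        have hm : b ∈ T.filter (fun c => [c] ∈ X ∧ [y, c] ∈ X) :=
          Finset.mem_filter.2 ⟨hbT, hb, hyb⟩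
        rw [if_pos hm, if_neg hnm, add_zero]
        unfold gg
        by_cases h5 : z ∈ star X
        · have h6 : b :: z ∈ star X := star_append (mem_star_of_mem hb) h5
          rw [if_pos h5, if_pos h6, one_mul]
        · rw [if_neg h5, mul_zero]
      · have hnm : b ∉ T.filter (fun c => [c] ∈ X ∧ [y, c] ∈ X) := by
          intro h
          exact hb (Finset.mem_filter.1 h).2.1
        have hm : b ∈ T.filter (fun c => [c] ∉ X ∧ [y, c] ∈ X) :=
          Finset.mem_filter.2 ⟨hbT, hb, hyb⟩
        rw [if_neg hnm, if_pos hm, zero_add, if_neg hb]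
        ring
    · have hnm : b ∉ T.filter (fun c => [c] ∈ X ∧ [y, c] ∈ X) := by
        intro h
        exact hyb (Finset.mem_filter.1 h).2.2
      have hnm' : b ∉ T.filter (fun c => [c] ∉ X ∧ [y, c] ∈ X) := by
        intro h
        exact hyb (Finset.mem_filter.1 h).2.2
      rw [if_neg hnm, if_neg hnm', add_zero]
      have h4 : gg X (y :: b :: z) = 0 := by
        unfold gg
        rw [if_neg (fun h => hyb (h3.1 h).1)]
      rw [h4, mul_zero]

end RCP
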