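import Pool.Agent.RCP.ShortPoly

namespace RCP

open Matrix

section analysis

variable {ι : Type*} [Fintype ι] [DecidableEq ι]

/-- The determinant of `1 - x K`. -/
noncomputable def FF (K : Matrix ι ι ℝ) (x : ℝ) : ℝ := (1 - x • K).det

/-- The form of the adjugate of `1 - x K`. -/
noncomputable def PH (K : Matrix ι ι ℝ) (L R : ι → ℝ) (x : ℝ) : ℝ :=
  L ⬝ᵥ ((1 - x • K).adjugate *ᵥ R)

theorem FF_cont (K : Matrix ι ι ℝ) : Continuous (FF K) := by
  unfold FF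
  exact Continuous.matrix_det (by fun_prop)

theorem PH_cont (K : Matrix ι ι ℝ) (L R : ι → ℝ) : Continuous (PH K L R) := by
  unfold PH
  have h1 : Continuous (fun x : ℝ => (1 - x • K).adjugate) :=
    Continuous.matrix_adjugate (by fun_prop)
  have h2 : Continuous (fun x : ℝ => (1 - x • K).adjugate *ᵥ R) :=
    h1.matrix_mulVec continuous_const
  exact Continuous.dotProduct continuous_const h2

theorem FF_zero (K : Matrix ι ι ℝ) : FF K 0 = 1 := by
  unfold FF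
  simp

theorem PH_step (K : Matrix ι ι ℝ) (L R : ι → ℝ) (x : ℝ) :
    PH K L R x = FF K x * (L ⬝ᵥ R) + x * PH K L (K *ᵥ R) x := by
  have h1 : (1 - x • K).adjugate *ᵥ ((1 - x • K) *ᵥ R) = FF K x • R := by
    rw [Matrix.mulVec_mulVec, Matrix.adjugate_mul, Matrix.smul_mulVec, Matrix.one_mulVec]
    rfl
  rw [Matrix.sub_mulVec, Matrix.one_mulVec, Matrix.smul_mulVec, Matrix.mulVec_sub,
    Matrix.mulVec_smul, sub_eq_iff_eq_add] at h1
  unfold PH
  rw [h1, dotProduct_add, dotProduct_smul, dotProduct_smul, smul_eq_mul, smul_eq_mul]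

theorem PH_expand (K : Matrix ι ι ℝ) (L R : ι → ℝ) (x : ℝ) (j : ℕ) :
    PH K L R x = FF K x * ∑ i ∈ Finset.range j, x ^ i * (L ⬝ᵥ (K ^ i *ᵥ R)) +
      x ^ j * PH K L (K ^ j *ᵥ R) x := by
  induction j with
  | zero => simp
  | succ j ih =>
    rw [ih, PH_step K L (K ^ j *ᵥ R) x, Finset.sum_range_succ, Matrix.mulVec_mulVec, ← pow_succ']
    ring

theorem pow_mulVec_nonneg {K : Matrix ι ι ℝ} {R : ι → ℝ} (hK : ∀ i k, 0 ≤ K i k)
    (hR : ∀ i, 0 ≤ R i) (j : ℕ) : ∀ i, 0 ≤ (K ^ j *ᵥ R) i := by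
  induction j with
  | zero => intro i; simpa using hR i
  | succ j ih =>
    intro i
    rw [pow_succ', ← Matrix.mulVec_mulVec]
    exact Finset.sum_nonneg (fun k _ => mul_nonneg (hK i k) (ih k))

theorem form_nonneg {K : Matrix ι ι ℝ} {L R : ι → ℝ} (hK : ∀ i k, 0 ≤ K i k)
    (hL : ∀ i, 0 ≤ L i) (hR : ∀ i, 0 ≤ R i) (j : ℕ) : 0 ≤ L ⬝ᵥ (K ^ j *ᵥ R) :=
  Finset.sum_nonneg (fun k _ => mul_nonneg (hL k) (pow_mulVec_nonneg hK hR j k))

theorem near_zero {K : Matrix ι ι ℝ} {L R : ι → ℝ} (hK : ∀ i k, 0 ≤ K i k)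
    (hL : ∀ i, 0 ≤ L i) (hR : ∀ i, 0 ≤ R i) {j : ℕ} (hj : 1 ≤ L ⬝ᵥ (K ^ j *ᵥ R)) :
    ∃ x0 B : ℝ, 0 < x0 ∧ 0 < B ∧ ∀ x, 0 ≤ x → x ≤ x0 →
      1 / 2 ≤ FF K x ∧ FF K x ≤ 2 ∧ x ^ j / 4 ≤ PH K L R x ∧ PH K L R x ≤ B := by
  set h : ℝ → ℝ := PH K L (K ^ (j + 1) *ᵥ R) with hh
  set B1 : ℝ := |h 0| + 1 with hB1
  set B : ℝ := |PH K L R 0| + 1 with hB
  have hB1p : 0 < B1 := by positivity
  have hBp : 0 < B := by positivity
  have e1 : ∀ᶠ x in nhds (0 : ℝ), |h x| < B1 := by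
    have : Continuous (fun x => |h x|) := (PH_cont K L _).abs
    exact this.continuousAt.eventually_lt continuousAt_const (by rw [hB1]; linarith)
  have e2 : ∀ᶠ x in nhds (0 : ℝ), |PH K L R x| < B := by
    have : Continuous (fun x => |PH K L R x|) := (PH_cont K L _).abs
    exact this.continuousAt.eventually_lt continuousAt_const (by rw [hB]; linarith)
  have e3 : ∀ᶠ x in nhds (0 : ℝ), FF K x < 2 :=
    (FF_cont K).continuousAt.eventually_lt continuousAt_const (by rw [FF_zero]; norm_num)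
  have e4 : ∀ᶠ x in nhds (0 : ℝ), 1 / 2 < FF K x :=
    continuousAt_const.eventually_lt (FF_cont K).continuousAt (by rw [FF_zero]; norm_num)
  obtain ⟨r, hr, hball⟩ := Metric.eventually_nhds_iff.1 (e1.and (e2.and (e3.and e4)))
  refine ⟨min (r / 2) (1 / (4 * B1)), B, by positivity, hBp, fun x hx hx0 => ?_⟩
  have hxr : dist x 0 < r := by
    rw [Real.dist_eq, sub_zero, abs_of_nonneg hx]
    have := hx0.trans (min_le_left _ _)
    linarith
  obtain ⟨k1, k2, k3, k4⟩ := hball hxr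
  have hxB : x * B1 ≤ 1 / 4 := by
    have h1 := hx0.trans (min_le_right _ _)
    have h2 : x * B1 ≤ 1 / (4 * B1) * B1 := mul_le_mul_of_nonneg_right h1 hB1p.le
    have h3 : 1 / (4 * B1) * B1 = 1 / 4 := by field_simp
    linarith
  refine ⟨k4.le, k3.le, ?_, (le_abs_self _).trans k2.le⟩
  rw [PH_expand K L R x (j + 1), Finset.sum_range_succ]
  have hxj : 0 ≤ x ^ j := pow_nonneg hx j
  have h1 : 0 ≤ ∑ i ∈ Finset.range j, x ^ i * (L ⬝ᵥ (K ^ i *ᵥ R)) :=
    Finset.sum_nonneg (fun i _ => mul_nonneg (pow_nonneg hx i) (form_nonneg hK hL hR i))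
  have h2 : x ^ j ≤ x ^ j * (L ⬝ᵥ (K ^ j *ᵥ R)) := by
    have := mul_le_mul_of_nonneg_left hj hxj
    linarith
  have h3 : x ^ j ≤ ∑ i ∈ Finset.range j, x ^ i * (L ⬝ᵥ (K ^ i *ᵥ R)) +
      x ^ j * (L ⬝ᵥ (K ^ j *ᵥ R)) := by linarith
  have h4 : x ^ j / 2 ≤ FF K x * (∑ i ∈ Finset.range j, x ^ i * (L ⬝ᵥ (K ^ i *ᵥ R)) +
      x ^ j * (L ⬝ᵥ (K ^ j *ᵥ R))) := by
    have := mul_le_mul k4.le h3 hxj (by linarith)
    linarith
  have h5 : -(x ^ j / 4) ≤ x ^ (j + 1) * h x := by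
    have h6 : |x ^ (j + 1) * h x| ≤ x ^ j / 4 := by
      rw [abs_mul, abs_of_nonneg (pow_nonneg hx _), pow_succ]
      have h7 : x * |h x| ≤ x * B1 := mul_le_mul_of_nonneg_left k1.le hx
      have h8 : x ^ j * (x * |h x|) ≤ x ^ j * (1 / 4) :=
        mul_le_mul_of_nonneg_left (h7.trans hxB) hxj
      calc x ^ j * x * |h x| = x ^ j * (x * |h x|) := by ring
        _ ≤ x ^ j * (1 / 4) := h8
        _ = x ^ j / 4 := by ring
    have := (abs_le.1 h6).1
    exact this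
  have h9 : h x = PH K L (K ^ (j + 1) *ᵥ R) x := rfl
  rw [← h9]
  linarith

theorem two_zeros {K : Matrix ι ι ℝ} {L R : ι → ℝ} (hK : ∀ i k, 0 ≤ K i k)
    (hL : ∀ i, 0 ≤ L i) (hR : ∀ i, 0 ≤ R i) {j : ℕ} (hj : 1 ≤ L ⬝ᵥ (K ^ j *ᵥ R))
    {n Q : ℝ} (hn : 1 ≤ n) (q : ℝ → ℝ) (hq0 : ∀ e, 0 ≤ e → 0 ≤ q e)
    (hqQ : ∀ e, 0 ≤ e → e ≤ 1 → q e ≤ Q) :
    ∃ e s t : ℝ, 0 < e ∧ 0 < s ∧ s < t ∧
      (1 - n * s - e * q e * s ^ 2) * FF K (e * s) + e * s ^ 3 * PH K L R (e * s) = 0 ∧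
      (1 - n * t - e * q e * t ^ 2) * FF K (e * t) + e * t ^ 3 * PH K L R (e * t) = 0 ∧
      FF K (e * s) ≠ 0 ∧ FF K (e * t) ≠ 0 := by
  obtain ⟨x0, B, hx0, hB, hnear⟩ := near_zero hK hL hR hj
  have hQ : 0 ≤ Q := (hq0 1 zero_le_one).trans (hqQ 1 zero_le_one le_rfl)
  set τ : ℝ := 8 * n + 8 with hτ
  have hτ16 : 16 ≤ τ := by rw [hτ]; linarith
  have hτ0 : 0 < τ := by linarith
  set S : ℝ := τ / x0 + 32 * B + 2 * Q * τ + 1 with hS
  have hSa : 0 < τ / x0 := by positivity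
  have hSb : 0 < 32 * B := by positivity
  have hSc : 0 ≤ 2 * Q * τ := by positivity
  have hS1 : 1 < S := by rw [hS]; linarith
  have hS0 : 0 < S := by linarith
  set δ : ℝ := 1 / S with hδ
  have hδ0 : 0 < δ := by positivity
  have hδS : δ * S = 1 := by rw [hδ]; field_simp
  have hδ1 : δ ≤ 1 := by rw [hδ, div_le_one hS0]; exact hS1.le
  have b1 : τ * δ ≤ x0 := by
    have : δ * (τ / x0) ≤ 1 := by
      rw [← hδS]
      exact mul_le_mul_of_nonneg_left (by rw [hS]; linarith) hδ0.le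
    have h2 : δ * (τ / x0) = τ * δ / x0 := by ring
    rw [h2, div_le_one hx0] at this
    exact this
  have b2 : δ * (32 * B) ≤ 1 := by
    rw [← hδS]
    exact mul_le_mul_of_nonneg_left (by rw [hS]; linarith) hδ0.le
  have b3 : δ * (2 * Q * τ) ≤ 1 := by
    rw [← hδS]
    exact mul_le_mul_of_nonneg_left (by rw [hS]; linarith) hδ0.le
  set e : ℝ := δ ^ (j + 2) with he
  have he0 : 0 < e := by positivity
  have heδ : e ≤ δ := by
    rw [he]
    calc δ ^ (j + 2) ≤ δ ^ 1 := pow_le_pow_of_le_one hδ0.le hδ1 (by omega)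
      _ = δ := pow_one δ
  have he1 : e ≤ 1 := heδ.trans hδ1
  set u : ℝ := τ / δ ^ (j + 1) with hu
  have hδj : 0 < δ ^ (j + 1) := by positivity
  have hδj1 : δ ^ (j + 1) ≤ 1 := pow_le_one₀ hδ0.le hδ1
  have hu0 : 0 < u := by positivity
  have huτ : τ ≤ u := by
    rw [hu, le_div_iff₀ hδj]
    calc τ * δ ^ (j + 1) ≤ τ * 1 := mul_le_mul_of_nonneg_left hδj1 hτ0.le
      _ = τ := mul_one τ
  have hu2 : 2 < u := by linarith
  have heu : e * u = τ * δ := by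
    rw [he, hu]
    field_simp
    ring
  set f : ℝ → ℝ := fun y => (1 - n * y - e * q e * y ^ 2) * FF K (e * y) +
    e * y ^ 3 * PH K L R (e * y) with hf
  have hcont : Continuous f := by
    have h1 : Continuous (fun y : ℝ => FF K (e * y)) := (FF_cont K).comp (by fun_prop)
    have h2 : Continuous (fun y : ℝ => PH K L R (e * y)) := (PH_cont K L R).comp (by fun_prop)
    exact (Continuous.mul (by fun_prop) h1).add (Continuous.mul (by fun_prop) h2)
  have hf0 : f 0 = 1 := by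
    simp [hf, FF_zero]
  have hqe := hq0 e he0.le
  have hqeQ := hqQ e he0.le he1
  have hf2 : f 2 < 0 := by
    obtain ⟨k1, k2, k3, k4⟩ := hnear (e * 2) (by positivity) (by
      have : e * 2 ≤ τ * δ := by
        have : δ * 2 ≤ τ * δ := by nlinarith
        nlinarith
      linarith)
    have h1 : (1 - n * 2 - e * q e * 2 ^ 2) * FF K (e * 2) ≤ -1 / 2 := by
      have h2 : 1 - n * 2 - e * q e * 2 ^ 2 ≤ -1 := by
        have : 0 ≤ e * q e := by positivity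
        linarith
      nlinarith
    have h3 : e * 2 ^ 3 * PH K L R (e * 2) ≤ 1 / 4 := by
      have h4 : e * 2 ^ 3 * PH K L R (e * 2) ≤ e * 2 ^ 3 * B :=
        mul_le_mul_of_nonneg_left k4 (by positivity)
      have h5 : e * B ≤ δ * B := mul_le_mul_of_nonneg_right heδ hB.le
      linarith
    show (1 - n * 2 - e * q e * 2 ^ 2) * FF K (e * 2) + e * 2 ^ 3 * PH K L R (e * 2) < 0
    linarith
  have hfu : 0 < f u := by
    obtain ⟨k1, k2, k3, k4⟩ := hnear (e * u) (by positivity) (by rw [heu]; exact b1)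
    have hx : e * u = τ * δ := heu
    set F := FF K (e * u) with hF
    set Φ := PH K L R (e * u) with hΦ
    have h1 : e * u ^ 3 * ((e * u) ^ j / 4) ≤ e * u ^ 3 * Φ :=
      mul_le_mul_of_nonneg_left k3 (by positivity)
    have h2 : e * u ^ 3 * ((e * u) ^ j / 4) = u * τ ^ (j + 2) / 4 := by
      have h3 : e * u ^ 3 * ((e * u) ^ j / 4) = u * (u * (e * u) ^ (j + 1)) / 4 := by ring
      rw [h3, hx]
      have h4 : u * (τ * δ) ^ (j + 1) = τ ^ (j + 2) := by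
        rw [hu, mul_pow]
        field_simp
        ring
      rw [h4]
    have h5 : τ ^ 2 ≤ τ ^ (j + 2) := pow_le_pow_right₀ (by linarith) (by omega)
    have h6 : u * τ ^ 2 / 4 ≤ e * u ^ 3 * Φ := by
      rw [h2] at h1
      have : u * τ ^ 2 ≤ u * τ ^ (j + 2) := mul_le_mul_of_nonneg_left h5 hu0.le
      linarith
    have h7 : e * q e * u ^ 2 = q e * (τ * δ) * u := by rw [← hx]; ring
    have h8 : q e * (τ * δ) ≤ 1 / 2 := by
      have : q e * (τ * δ) ≤ Q * (τ * δ) := mul_le_mul_of_nonneg_right hqeQ (by positivity)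
      linarith
    have h8' : 0 ≤ q e * (τ * δ) := by positivity
    have h9 : -(2 * (n + 1 / 2) * u) ≤ (1 - n * u - e * q e * u ^ 2) * F := by
      rw [h7]
      have h10 : -((n + 1 / 2) * u) ≤ 1 - n * u - q e * (τ * δ) * u := by
        have : q e * (τ * δ) * u ≤ 1 / 2 * u := mul_le_mul_of_nonneg_right h8 hu0.le
        linarith
      have h11 : 0 ≤ (n + 1 / 2) * u := by positivity
      have h12 : -((n + 1 / 2) * u) * F ≤ (1 - n * u - q e * (τ * δ) * u) * F :=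
        mul_le_mul_of_nonneg_right h10 (by linarith)
      have h13 : (n + 1 / 2) * u * F ≤ (n + 1 / 2) * u * 2 := mul_le_mul_of_nonneg_left k2 h11
      linarith
    have h14 : 2 * (n + 1 / 2) < τ ^ 2 / 4 := by
      have : 16 * τ ≤ τ ^ 2 := by nlinarith
      linarith
    have h15 : 2 * (n + 1 / 2) * u < τ ^ 2 / 4 * u := mul_lt_mul_of_pos_right h14 hu0
    show 0 < (1 - n * u - e * q e * u ^ 2) * F + e * u ^ 3 * Φ
    linarith
  obtain ⟨s, hs, hs'⟩ : ∃ s ∈ Set.Ioo (0 : ℝ) 2, f s = 0 := by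
    have := intermediate_value_Ioo' (show (0 : ℝ) ≤ 2 by norm_num) hcont.continuousOn
    obtain ⟨s, hs, hs'⟩ := this ⟨hf2, by rw [hf0]; norm_num⟩
    exact ⟨s, hs, hs'⟩
  obtain ⟨t, ht, ht'⟩ : ∃ t ∈ Set.Ioo (2 : ℝ) u, f t = 0 := by
    have := intermediate_value_Ioo hu2.le hcont.continuousOn
    obtain ⟨t, ht, ht'⟩ := this ⟨hf2, hfu⟩
    exact ⟨t, ht, ht'⟩
  have hrange : ∀ y, 0 ≤ y → y ≤ u → FF K (e * y) ≠ 0 := by
    intro y hy hyu
    have h1 : e * y ≤ x0 := by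
      have : e * y ≤ e * u := mul_le_mul_of_nonneg_left hyu he0.le
      linarith
    have := (hnear (e * y) (by positivity) h1).1
    intro h0
    rw [h0] at this
    norm_num at this
  exact ⟨e, s, t, he0, hs.1, hs.2.trans ht.1, hs', ht',
    hrange s hs.1.le (hs.2.le.trans hu2.le), hrange t (hs.1.le.trans (hs.2.trans ht.1).le) ht.2.le⟩

end analysis

end RCP
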